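import Mathlib

/-!
# The divisor bound
-/

open Finset Real

namespace Pool.Agent.Helper7.GPC

/-- **The divisor bound**: `τ(m) ≤ C m^ε`. -/
theorem card_divisors_le {ε : ℝ} (hε : 0 < ε) : ∃ C : ℝ, 1 ≤ C ∧ ∀ m : ℕ, m ≠ 0 →
    ((Nat.divisors m).card : ℝ) ≤ C * (m : ℝ) ^ ε := by
  have hL : 0 < log 2 := log_pos one_lt_two
  set C1 : ℝ := 1 + 1 / (ε * log 2) with hC1
  have hC1' : 1 ≤ C1 := by
    have : 0 < 1 / (ε * log 2) := by positivity
    linarith
  set Q0 : ℕ := ⌈(2 : ℝ) ^ (1 / ε)⌉₊ with hQ0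
  refine ⟨C1 ^ Q0, one_le_pow₀ hC1', fun m hm => ?_⟩
  rw [Nat.card_divisors hm]
  push_cast
  have key : ∀ q ∈ m.primeFactors, ((m.factorization q : ℝ) + 1) ≤
      (if q < Q0 then C1 else 1) * ((q : ℝ) ^ (m.factorization q)) ^ ε := by
    intro q hq
    have hq2 : (2 : ℝ) ≤ q := by exact_mod_cast (Nat.prime_of_mem_primeFactors hq).two_le
    have hq0 : (0 : ℝ) < q := by linarith
    set e := m.factorization q
    have h1 : ((q : ℝ) ^ e) ^ ε = ((q : ℝ) ^ ε) ^ e := by
      rw [← rpow_natCast, ← rpow_natCast, ← rpow_mul hq0.le, ← rpow_mul hq0.le, mul_comm]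
    rw [h1]
    split_ifs with h
    · have h2 : (2 : ℝ) ^ ε ≤ (q : ℝ) ^ ε := rpow_le_rpow (by norm_num) hq2 hε.le
      have h3 : ((2 : ℝ) ^ ε) ^ e ≤ ((q : ℝ) ^ ε) ^ e :=
        pow_le_pow_left₀ (by positivity) h2 e
      have h4 : 1 + ε * e * log 2 ≤ ((2 : ℝ) ^ ε) ^ e := by
        have h5 : ((2 : ℝ) ^ ε) ^ e = exp (ε * e * log 2) := by
          rw [← rpow_natCast, ← rpow_mul (by norm_num), rpow_def_of_pos (by norm_num)]
          ring_nf
        rw [h5]
        have := add_one_le_exp (ε * e * log 2)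
        linarith
      have h6 : (e : ℝ) + 1 ≤ C1 * (1 + ε * e * log 2) := by
        have h7 : C1 * (1 + ε * e * log 2) = 1 + e + ε * e * log 2 + 1 / (ε * log 2) := by
          rw [hC1]
          field_simp
          ring
        rw [h7]
        have h8 : 0 ≤ ε * e * log 2 := by positivity
        have h9 : 0 < 1 / (ε * log 2) := by positivity
        linarith
      calc (e : ℝ) + 1 ≤ C1 * (1 + ε * e * log 2) := h6
        _ ≤ C1 * ((q : ℝ) ^ ε) ^ e := by
          refine mul_le_mul_of_nonneg_left (h4.trans h3) (by linarith)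
    · have h2 : (2 : ℝ) ≤ (q : ℝ) ^ ε := by
        have h3 : (2 : ℝ) ^ (1 / ε) ≤ q := by
          have h4 : (Q0 : ℝ) ≤ q := by exact_mod_cast not_lt.1 h
          exact (Nat.le_ceil _).trans h4
        calc (2 : ℝ) = ((2 : ℝ) ^ (1 / ε)) ^ ε := by
              rw [← rpow_mul (by norm_num), one_div, inv_mul_cancel₀ hε.ne', rpow_one]
          _ ≤ (q : ℝ) ^ ε := rpow_le_rpow (by positivity) h3 hε.le
      have h3 : (e : ℝ) + 1 ≤ 2 ^ e := by
        have := Nat.lt_two_pow_self (n := e)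
        have h4 : e + 1 ≤ 2 ^ e := this
        exact_mod_cast h4
      rw [one_mul]
      exact h3.trans (pow_le_pow_left₀ (by norm_num) h2 e)
  refine (prod_le_prod (fun q _ => by positivity) key).trans ?_
  rw [prod_mul_distrib]
  have h1 : ∏ q ∈ m.primeFactors, (if q < Q0 then C1 else 1) ≤ C1 ^ Q0 := by
    rw [← prod_filter_mul_prod_filter_not m.primeFactors (fun q => q < Q0)]
    rw [prod_congr rfl (g := fun _ => C1) (fun q hq => if_pos (mem_filter.1 hq).2),
      prod_congr (s₁ := m.primeFactors.filter fun q => ¬ q < Q0) rfl (g := fun _ => (1 : ℝ))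
        (fun q hq => if_neg (mem_filter.1 hq).2)]
    rw [prod_const, prod_const_one, mul_one]
    refine pow_le_pow_right₀ hC1' ?_
    have h2 : (m.primeFactors.filter fun q => q < Q0) ⊆ range Q0 := fun q hq =>
      mem_range.2 (mem_filter.1 hq).2
    exact (card_le_card h2).trans_eq (card_range _)
  have h2 : ∏ q ∈ m.primeFactors, ((q : ℝ) ^ (m.factorization q)) ^ ε = (m : ℝ) ^ ε := by
    rw [finsetProd_rpow _ _ (fun q _ => by positivity)]
    congr 1
    have h3 := Nat.prod_factorization_pow_eq_self hm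
    conv_rhs => rw [← h3]
    rw [Finsupp.prod, Nat.support_factorization]
    push_cast
    rfl
  rw [h2]
  exact mul_le_mul_of_nonneg_right h1 (by positivity)

end Pool.Agent.Helper7.GPC
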