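import Pool.Agent.Helper7.GPC.Asym
import Pool.Agent.Helper7.PNT.AP

/-!
# Final assembly
-/

open Finset Real Filter

namespace Pool.Agent.Helper7.GPC

/-- a family of hyperbolas modulo `p` together with the set of the points which it has to cover -/
structure Valid (F : Fm) (p n : ℕ) (K : Finset Pt) : Prop where
  det : F.det ≠ 0
  X : F.X.Small n
  Y : F.Y.Small n
  sq : ∀ P ∈ K, InSq n P
  gp : ∀ κ : ZMod p, κ ≠ 0 → GP {P | P ∈ K ∧ F.cls p P = κ}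
  isoX : ∀ P ∈ K, ∀ Q ∈ K, ∀ R ∈ K, P ≠ Q → P ≠ R → Q ≠ R → (p : ℤ) ∣ F.X.at P →
    F.X.at Q = F.X.at P → F.X.at R = F.X.at P → (p : ℤ) ∣ F.Y.at Q - F.Y.at P →
    (p : ℤ) ∣ F.Y.at R - F.Y.at P → False
  isoY : ∀ P ∈ K, ∀ Q ∈ K, ∀ R ∈ K, P ≠ Q → P ≠ R → Q ≠ R → (p : ℤ) ∣ F.Y.at P →
    F.Y.at Q = F.Y.at P → F.Y.at R = F.Y.at P → (p : ℤ) ∣ F.X.at Q - F.X.at P →
    (p : ℤ) ∣ F.X.at R - F.X.at P → False

theorem family_asym (w : ℕ) {ε : ℝ} (hε : 0 < ε) : ∀ᶠ n : ℕ in atTop, ∀ (p : ℕ) (F : Fm)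
    (K : Finset Pt), p.Prime → n ≤ w * p → Valid F p n K →
      ∃ m : ℕ, Cov (K : Set Pt) m ∧ (m : ℝ) ≤ p + ε * n := by
  filter_upwards [err_le w hε] with n hn
  obtain ⟨T, M, N, hN, hT, hM, herr⟩ := hn
  intro p F K hp hpn hV
  have : Fact p.Prime := ⟨hp⟩
  refine ⟨_, family hV.det hV.X hV.Y hpn hT hM hN hV.sq hV.gp hV.isoX hV.isoY, ?_⟩
  have h1 := herr p hp.two_le hpn
  push_cast at h1 ⊢
  linarith

/-- **Assembly.** -/
theorem assembly {k : ℕ} (ρ : Fin k → ℝ) (hρ : ∀ i, 0 < ρ i) {δ0 : ℝ} (hδ0 : 0 < δ0) {n0 : ℕ}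
    (H : ∀ n : ℕ, n0 ≤ n → ∀ p : Fin k → ℕ, (∀ i, (p i).Prime) →
      (∀ i, ρ i * n < p i ∧ (p i : ℝ) ≤ (1 + δ0) * (ρ i * n)) →
      ∃ (F : Fin k → Fm) (K : Fin k → Finset Pt), (∀ i, Valid (F i) (p i) n (K i)) ∧
        ∀ P, InSq n P → ∃ i, P ∈ K i) {ε : ℝ} (hε : 0 < ε) :
    ∀ᶠ n : ℕ in atTop, ∃ m : ℕ, Cov {P | InSq n P} m ∧ (m : ℝ) ≤ (∑ i, ρ i + ε) * n := by
  classical
  -- the number of periods
  obtain ⟨w, hw⟩ : ∃ w : ℕ, ∀ i, 1 / ρ i ≤ w := by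
    refine ⟨∑ i, ⌈1 / ρ i⌉₊, fun i => ?_⟩
    refine (Nat.le_ceil _).trans ?_
    exact_mod_cast single_le_sum (f := fun i => ⌈1 / ρ i⌉₊) (fun _ _ => Nat.zero_le _) (mem_univ i)
  set S : ℝ := ∑ i, ρ i with hS
  have hS0 : 0 ≤ S := sum_nonneg fun i _ => (hρ i).le
  set δ : ℝ := min δ0 (ε / (2 * (S + 1))) with hδ
  have hδ1 : 0 < δ := lt_min hδ0 (by positivity)
  have hδS : δ * S ≤ ε / 2 := by
    have h1 : δ ≤ ε / (2 * (S + 1)) := min_le_right _ _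
    calc δ * S ≤ ε / (2 * (S + 1)) * S := mul_le_mul_of_nonneg_right h1 hS0
      _ ≤ ε / (2 * (S + 1)) * (S + 1) := mul_le_mul_of_nonneg_left (by linarith) (by positivity)
      _ = ε / 2 := by field_simp
  have hprimes : ∀ᶠ n : ℕ in atTop, ∀ i : Fin k, ∃ p : ℕ, p.Prime ∧ ρ i * n < p ∧
      (p : ℝ) ≤ (1 + δ) * (ρ i * n) := by
    rw [eventually_all]
    intro i
    have h1 := PNT.exists_prime hδ1
    exact (tendsto_natCast_atTop_atTop.const_mul_atTop (hρ i)).eventually h1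
  have hε' : 0 < ε / (2 * (k + 1)) := by positivity
  filter_upwards [hprimes, family_asym w hε', eventually_ge_atTop n0] with n hn1 hn2 hn3
  choose p hp hp1 hp2 using hn1
  obtain ⟨F, K, hV, hcov⟩ := H n hn3 p hp fun i => ⟨hp1 i, (hp2 i).trans (by
    have h1 : δ ≤ δ0 := min_le_left _ _
    have h2 : 0 ≤ ρ i * n := mul_nonneg (hρ i).le (Nat.cast_nonneg n)
    nlinarith)⟩
  have hm : ∀ i, ∃ m : ℕ, Cov (K i : Set Pt) m ∧ (m : ℝ) ≤ p i + ε / (2 * (k + 1)) * n := by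
    intro i
    refine hn2 (p i) (F i) (K i) (hp i) ?_ (hV i)
    have h1 : (n : ℝ) ≤ w * p i := by
      have h2 := hw i
      have h3 : (n : ℝ) = 1 / ρ i * (ρ i * n) := by
        have := (hρ i).ne'
        field_simp
      rw [h3]
      exact mul_le_mul h2 (hp1 i).le (mul_nonneg (hρ i).le (Nat.cast_nonneg n))
        (Nat.cast_nonneg w)
    exact_mod_cast h1
  choose m hm1 hm2 using hm
  have hunion : ∀ s : Finset (Fin k), Cov {P | ∃ i ∈ s, P ∈ K i} (∑ i ∈ s, m i) := by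
    intro s
    induction s using Finset.induction_on with
    | empty =>
      refine ⟨fun _ => 0, fun P hP => ?_, fun i P hP => ?_⟩
      · obtain ⟨j, hj, -⟩ := hP
        exact absurd hj (notMem_empty _)
      · obtain ⟨⟨j, hj, -⟩, -⟩ := hP
        exact absurd hj (notMem_empty _)
    | insert a s ha ih =>
      rw [sum_insert ha]
      refine ((hm1 a).union ih).mono (fun P hP => ?_) le_rfl
      obtain ⟨j, hj, hPj⟩ := hP
      rcases mem_insert.1 hj with rfl | hj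
      · exact Or.inl hPj
      · exact Or.inr ⟨j, hj, hPj⟩
  refine ⟨∑ i, m i, (hunion univ).mono (fun P hP => ?_) le_rfl, ?_⟩
  · obtain ⟨i, hi⟩ := hcov P hP
    exact ⟨i, mem_univ _, hi⟩
  · have hn0 : (0 : ℝ) ≤ n := Nat.cast_nonneg n
    push_cast
    calc ∑ i, (m i : ℝ) ≤ ∑ i, ((1 + δ) * (ρ i * n) + ε / (2 * (k + 1)) * n) :=
          sum_le_sum fun i _ => (hm2 i).trans (by linarith [hp2 i])
      _ = (1 + δ) * (S * n) + k * (ε / (2 * (k + 1)) * n) := by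
          rw [sum_add_distrib, ← mul_sum, ← sum_mul, sum_const, card_univ, Fintype.card_fin,
            nsmul_eq_mul]
      _ ≤ (S + ε) * n := by
          have h1 : (k : ℝ) * (ε / (2 * (k + 1))) ≤ ε / 2 := by
            have : (k : ℝ) * (ε / (2 * (k + 1))) = ε / 2 * (k / (k + 1)) := by field_simp
            rw [this]
            have h2 : (k : ℝ) / (k + 1) ≤ 1 := by
              rw [div_le_one (by positivity)]
              linarith
            nlinarith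
          nlinarith [mul_le_mul_of_nonneg_right h1 hn0, mul_le_mul_of_nonneg_right hδS hn0]

end Pool.Agent.Helper7.GPC
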