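import Pool.Agent.Helper7.GPC.Fam2
import Pool.Agent.Helper7.GPC.Div

/-!
# Asymptotics of the error term
-/

open Finset Real Filter

namespace Pool.Agent.Helper7.GPC

/-- the error term is `o(n)` -/
theorem err_le (w : ℕ) {ε : ℝ} (hε : 0 < ε) : ∀ᶠ n : ℕ in atTop, ∃ T M N : ℕ, 0 < N ∧
    (∀ m : ℕ, m ≤ 12 * n → m.divisors.card ≤ T) ∧
    (∀ C : Finset Pt, (∀ P ∈ C, InSq n P) → (trip C).card ≤ M) ∧
    ∀ p : ℕ, 2 ≤ p → n ≤ w * p → (((4 * (12 * w + 1)) * cost p (bB w T) M N (4 * (12 * w + 1)) +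
      (12 * w + 1) ^ 2 : ℕ) : ℝ) ≤ ε * n := by
  obtain ⟨C, hC1, hC⟩ := card_divisors_le (ε := 1 / 24) (by norm_num)
  set r : ℕ := 4 * (12 * w + 1) with hr
  have hr0 : (0 : ℝ) < r := by exact_mod_cast (by omega : 0 < r)
  set η : ℝ := ε / (4 * r) with hη
  have hη0 : 0 < η := by positivity
  -- constants
  set C2 : ℝ := (2 * w + 1) ^ 2 + (36 * w + 1) * (4 * (C * 12 ^ (1 / 24 : ℝ)) ^ 2) + r with hC2
  have hC20 : 0 < C2 := by positivity
  set C3 : ℝ := r * ((1 + r ^ 2) * (2 * w ^ 2 / η ^ 2) * (78 * C2 ^ 2 + 1)) with hC3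
  have hlim : Tendsto (fun n : ℕ => C3 * (n : ℝ) ^ (5 / 6 : ℝ) / n + (r + r * (1 + r ^ 2) +
      (12 * w + 1) ^ 2) / n) atTop (nhds 0) := by
    have h1 : Tendsto (fun n : ℕ => (n : ℝ) ^ (-(1 / 6) : ℝ)) atTop (nhds 0) :=
      (tendsto_rpow_neg_atTop (by norm_num)).comp tendsto_natCast_atTop_atTop
    have h2 : Tendsto (fun n : ℕ => ((r : ℝ) + r * (1 + r ^ 2) + (12 * w + 1) ^ 2) / n) atTop
        (nhds 0) := tendsto_const_div_atTop_nhds_zero_nat _
    have h3 := (h1.const_mul C3).add h2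
    rw [mul_zero, add_zero] at h3
    refine h3.congr' ?_
    filter_upwards [eventually_gt_atTop 0] with n hn
    have hn' : (0 : ℝ) < n := by exact_mod_cast hn
    congr 1
    rw [mul_div_assoc]
    congr 1
    rw [eq_div_iff hn'.ne']
    nth_rewrite 2 [← rpow_one (n : ℝ)]
    rw [← rpow_add hn']
    norm_num
  filter_upwards [hlim.eventually (gt_mem_nhds (show 0 < ε / 2 by positivity)),
    eventually_gt_atTop 0] with n hn hn0
  have hx : (1 : ℝ) ≤ n := by exact_mod_cast hn0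
  have hx0 : (0 : ℝ) < n := by linarith
  set x : ℝ := (n : ℝ) with hxdef
  set R : ℕ := ⌈x ^ (1 / 3 : ℝ)⌉₊ with hR
  have h13 : 1 ≤ x ^ (1 / 3 : ℝ) := one_le_rpow hx (by norm_num)
  have hR0 : 0 < R := Nat.ceil_pos.2 (by linarith)
  have hR1 : (R : ℝ) ≤ 2 * x ^ (1 / 3 : ℝ) := by
    have := (Nat.ceil_lt_add_one (show 0 ≤ x ^ (1 / 3 : ℝ) by linarith)).le
    rw [← hR] at this
    linarith
  have hR2 : x ^ (1 / 3 : ℝ) ≤ R := Nat.le_ceil _
  set T : ℕ := ⌊C * (12 * x) ^ (1 / 24 : ℝ)⌋₊ with hT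
  set M : ℕ := n ^ 2 * ((2 * R + 1) ^ 2 * n * (2 * n + 1)) + n ^ 2 * n ^ 2 * (2 * (n / R) + 1) with hM
  set N : ℕ := ⌊η * x⌋₊ + 1 with hN
  refine ⟨T, M, N, Nat.succ_pos _, ?_, fun C hC => trip_le hR0 hC, ?_⟩
  · intro m hm
    by_cases hm0 : m = 0
    · subst hm0; simp
    · refine Nat.le_floor ?_
      refine (hC m hm0).trans (mul_le_mul_of_nonneg_left ?_ (by linarith))
      refine rpow_le_rpow (Nat.cast_nonneg _) ?_ (by norm_num)
      rw [hxdef]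
      exact_mod_cast hm
  · intro p hp hpn
    -- estimates
    have hT1 : (T : ℝ) ≤ C * 12 ^ (1 / 24 : ℝ) * x ^ (1 / 24 : ℝ) := by
      have h1 : (T : ℝ) ≤ C * (12 * x) ^ (1 / 24 : ℝ) := Nat.floor_le (by positivity)
      rw [mul_rpow (by norm_num) hx0.le] at h1
      linarith
    have hB : ((bB w T : ℕ) : ℝ) + r ≤ C2 * x ^ (1 / 12 : ℝ) := by
      have h1 : (1 : ℝ) ≤ x ^ (1 / 12 : ℝ) := one_le_rpow hx (by norm_num)
      have h2 : (T : ℝ) ^ 2 ≤ (C * 12 ^ (1 / 24 : ℝ)) ^ 2 * x ^ (1 / 12 : ℝ) := by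
        have h3 : x ^ (1 / 12 : ℝ) = (x ^ (1 / 24 : ℝ)) ^ 2 := by
          rw [← rpow_natCast, ← rpow_mul hx0.le]; norm_num
        rw [h3, ← mul_pow]
        exact pow_le_pow_left₀ (Nat.cast_nonneg _) hT1 2
      unfold bB
      push_cast
      rw [hC2]
      have h4 : (0 : ℝ) ≤ (2 * w + 1) ^ 2 := by positivity
      have h5 : (0 : ℝ) ≤ 36 * w + 1 := by positivity
      nlinarith [mul_le_mul_of_nonneg_left h2 h5, mul_le_mul_of_nonneg_left h1 h4,
        mul_le_mul_of_nonneg_left h1 hr0.le]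
    have hB2 : (((bB w T : ℕ) : ℝ) + r) ^ 2 ≤ C2 ^ 2 * x ^ (1 / 6 : ℝ) := by
      have h3 : x ^ (1 / 6 : ℝ) = (x ^ (1 / 12 : ℝ)) ^ 2 := by
        rw [← rpow_natCast, ← rpow_mul hx0.le]; norm_num
      rw [h3, ← mul_pow]
      exact pow_le_pow_left₀ (by positivity) hB 2
    have h23 : x ^ (2 / 3 : ℝ) = (x ^ (1 / 3 : ℝ)) ^ 2 := by
      rw [← rpow_natCast, ← rpow_mul hx0.le]; norm_num
    have hM1 : (M : ℝ) ≤ x ^ 4 * (78 * x ^ (2 / 3 : ℝ)) := by
      have h1 : (2 * (R : ℝ) + 1) ^ 2 ≤ 25 * x ^ (2 / 3 : ℝ) := by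
        rw [h23]
        have h2 : 2 * (R : ℝ) + 1 ≤ 5 * x ^ (1 / 3 : ℝ) := by linarith
        calc (2 * (R : ℝ) + 1) ^ 2 ≤ (5 * x ^ (1 / 3 : ℝ)) ^ 2 :=
              pow_le_pow_left₀ (by positivity) h2 2
          _ = _ := by ring
      have h2 : ((n / R : ℕ) : ℝ) ≤ x ^ (2 / 3 : ℝ) := by
        have h3 : ((n / R : ℕ) : ℝ) ≤ x / R := Nat.cast_div_le
        refine h3.trans ?_
        rw [div_le_iff₀ (by exact_mod_cast hR0)]
        calc x = x ^ (2 / 3 : ℝ) * x ^ (1 / 3 : ℝ) := by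
              rw [← rpow_add hx0]; norm_num
          _ ≤ x ^ (2 / 3 : ℝ) * R := mul_le_mul_of_nonneg_left hR2 (by positivity)
      have h3 : (1 : ℝ) ≤ x ^ (2 / 3 : ℝ) := one_le_rpow hx (by norm_num)
      rw [hM]
      push_cast
      rw [← hxdef]
      have h4 : x * (2 * x + 1) ≤ 3 * x ^ 2 := by nlinarith
      have h5 : (2 * (R : ℝ) + 1) ^ 2 * x * (2 * x + 1) ≤ 25 * x ^ (2 / 3 : ℝ) * (3 * x ^ 2) := by
        rw [mul_assoc]
        exact mul_le_mul h1 h4 (by positivity) (by positivity)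
      calc x ^ 2 * ((2 * (R : ℝ) + 1) ^ 2 * x * (2 * x + 1)) +
            x ^ 2 * x ^ 2 * (2 * ((n / R : ℕ) : ℝ) + 1)
          ≤ x ^ 2 * (25 * x ^ (2 / 3 : ℝ) * (3 * x ^ 2)) +
            x ^ 2 * x ^ 2 * (2 * x ^ (2 / 3 : ℝ) + x ^ (2 / 3 : ℝ)) := by
            refine add_le_add (mul_le_mul_of_nonneg_left h5 (by positivity))
              (mul_le_mul_of_nonneg_left (by linarith) (by positivity))
        _ = x ^ 4 * (78 * x ^ (2 / 3 : ℝ)) := by ring
    have hN1 : η * x ≤ N := by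
      rw [hN]; push_cast
      exact (Nat.lt_floor_add_one _).le
    have hN2 : (N : ℝ) ≤ η * x + 1 := by
      rw [hN]; push_cast
      have := Nat.floor_le (show 0 ≤ η * x by positivity)
      linarith
    -- the main term
    have hq : ((((1 + r ^ 2) * (M * (bB w T + r) ^ 2 + 1) / (p * (p - 1))) / N ^ 2 : ℕ) : ℝ) ≤
        (1 + r ^ 2) * (2 * w ^ 2 / η ^ 2) * (78 * C2 ^ 2 + 1) * x ^ (5 / 6 : ℝ) := by
      have hp0 : (0 : ℝ) < p := by
        have : 0 < p := by omega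
        exact_mod_cast this
      have hw0 : (0 : ℝ) < w := by
        have : 0 < w := by
          rcases Nat.eq_zero_or_pos w with h | h
          · subst h; omega
          · exact h
        exact_mod_cast this
      have hpp : x ^ 2 / (2 * w ^ 2) ≤ ((p * (p - 1) : ℕ) : ℝ) := by
        rw [Nat.cast_mul, Nat.cast_sub (by omega), Nat.cast_one]
        have h1 : x ≤ w * p := by rw [hxdef]; exact_mod_cast hpn
        have h2 : (2 : ℝ) ≤ p := by exact_mod_cast hp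
        rw [div_le_iff₀ (by positivity)]
        have h3 : x ^ 2 ≤ (w * p) ^ 2 := pow_le_pow_left₀ hx0.le h1 2
        have h4 : (w : ℝ) ^ 2 * p ^ 2 ≤ p * (p - 1) * (2 * w ^ 2) := by
          have h5 : (p : ℝ) ≤ 2 * (p - 1) := by linarith
          have h6 : (p : ℝ) * p ≤ p * (2 * (p - 1)) := mul_le_mul_of_nonneg_left h5 hp0.le
          nlinarith [mul_le_mul_of_nonneg_left h6 (sq_nonneg (w : ℝ))]
        calc x ^ 2 ≤ (w * p) ^ 2 := h3
          _ = (w : ℝ) ^ 2 * p ^ 2 := by ring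
          _ ≤ _ := h4
      refine Nat.cast_div_le.trans ?_
      have h1 : (((1 + r ^ 2) * (M * (bB w T + r) ^ 2 + 1) / (p * (p - 1)) : ℕ) : ℝ) ≤
          ((1 + r ^ 2) * (M * (bB w T + r) ^ 2 + 1)) / (x ^ 2 / (2 * w ^ 2)) := by
        refine Nat.cast_div_le.trans ?_
        push_cast
        refine div_le_div_of_nonneg_left (by positivity) (by positivity) ?_
        have := hpp
        push_cast at this
        exact this
      have h2 : ((1 + (r : ℝ) ^ 2) * (M * (bB w T + r) ^ 2 + 1)) ≤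
          (1 + r ^ 2) * ((78 * C2 ^ 2 + 1) * x ^ (5 / 6 : ℝ) * x ^ 4) := by
        refine mul_le_mul_of_nonneg_left ?_ (by positivity)
        have h3 : (M : ℝ) * (((bB w T : ℕ) : ℝ) + r) ^ 2 ≤
            x ^ 4 * (78 * x ^ (2 / 3 : ℝ)) * (C2 ^ 2 * x ^ (1 / 6 : ℝ)) :=
          mul_le_mul hM1 hB2 (by positivity) (by positivity)
        have h4 : x ^ (5 / 6 : ℝ) = x ^ (2 / 3 : ℝ) * x ^ (1 / 6 : ℝ) := by
          rw [← rpow_add hx0]; norm_num
        have h5 : (1 : ℝ) ≤ x ^ (5 / 6 : ℝ) * x ^ 4 :=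
          one_le_mul_of_one_le_of_one_le (one_le_rpow hx (by norm_num)) (one_le_pow₀ hx)
        calc (M : ℝ) * (((bB w T : ℕ) : ℝ) + r) ^ 2 + 1 ≤
              x ^ 4 * (78 * x ^ (2 / 3 : ℝ)) * (C2 ^ 2 * x ^ (1 / 6 : ℝ)) +
                x ^ (5 / 6 : ℝ) * x ^ 4 := add_le_add h3 h5
          _ = _ := by rw [h4]; ring
      calc (((1 + r ^ 2) * (M * (bB w T + r) ^ 2 + 1) / (p * (p - 1)) : ℕ) : ℝ) /
            ((N ^ 2 : ℕ) : ℝ)
          ≤ ((1 + (r : ℝ) ^ 2) * ((78 * C2 ^ 2 + 1) * x ^ (5 / 6 : ℝ) * x ^ 4) /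
              (x ^ 2 / (2 * w ^ 2))) / (η * x) ^ 2 := by
            refine div_le_div₀ (by positivity) (h1.trans
              (div_le_div_of_nonneg_right h2 (by positivity))) (by positivity) ?_
            push_cast
            exact pow_le_pow_left₀ (by positivity) hN1 2
        _ = _ := by
            field_simp
    unfold cost
    push_cast
    have hsum : (r : ℝ) * (N + ((((1 + r ^ 2) * (M * (bB w T + r) ^ 2 + 1) / (p * (p - 1))) /
        N ^ 2 : ℕ) : ℝ) + (1 + r ^ 2)) + (12 * w + 1) ^ 2 ≤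
        r * (η * x) + (C3 * x ^ (5 / 6 : ℝ) + (r + r * (1 + r ^ 2) + (12 * w + 1) ^ 2)) := by
      have h1 := mul_le_mul_of_nonneg_left hN2 hr0.le
      have h2 := mul_le_mul_of_nonneg_left hq hr0.le
      rw [hC3]
      nlinarith
    have h1 : r * (η * x) = ε / 4 * x := by
      rw [hη]; field_simp
    have h2 : C3 * x ^ (5 / 6 : ℝ) + (r + r * (1 + r ^ 2) + (12 * w + 1) ^ 2) ≤ ε / 2 * x := by
      rw [← add_div, div_lt_iff₀ hx0] at hn
      exact hn.le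
    have h3 : 0 < ε * x := mul_pos hε hx0
    linarith [hsum, h1, h2]

end Pool.Agent.Helper7.GPC
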