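import Mathlib

/-!
# General position in the integer grid: basic notions and the colouring lemma
-/

open Finset

namespace Pool.Agent.Helper7.GPC

/-- points -/
abbrev Pt : Type := ℤ × ℤ

/-- three points are collinear -/
def col (P Q R : Pt) : Prop := (Q.1 - P.1) * (R.2 - P.2) = (Q.2 - P.2) * (R.1 - P.1)

instance (P Q R : Pt) : Decidable (col P Q R) := by unfold col; infer_instance

theorem col_swap {P Q R : Pt} (h : col P Q R) : col P R Q := by
  unfold col at *; linarith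

theorem col_rot {P Q R : Pt} (h : col P Q R) : col Q P R := by
  unfold col at *; linarith

theorem col_swap_iff {P Q R : Pt} : col P Q R ↔ col P R Q := ⟨col_swap, col_swap⟩

theorem col_rot_iff {P Q R : Pt} : col P Q R ↔ col Q P R := ⟨col_rot, col_rot⟩

/-- three points on the line through two distinct points are collinear -/
theorem col_trans {P Q R S : Pt} (hPQ : P ≠ Q) (h1 : col P Q R) (h2 : col P Q S) :
    col P R S := by
  unfold col at *
  rcases eq_or_ne P.1 Q.1 with hx | hx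
  · have hy : Q.2 - P.2 ≠ 0 := fun h => hPQ (Prod.ext hx (by linarith))
    have h3 : Q.1 - P.1 = 0 := by linarith
    rw [h3, zero_mul] at h1 h2
    have h4 : R.1 - P.1 = 0 := (mul_eq_zero.1 h1.symm).resolve_left hy
    have h5 : S.1 - P.1 = 0 := (mul_eq_zero.1 h2.symm).resolve_left hy
    rw [h4, h5]; ring
  · have hx' : Q.1 - P.1 ≠ 0 := fun h => hx (by linarith)
    apply mul_left_cancel₀ hx'
    calc (Q.1 - P.1) * ((R.1 - P.1) * (S.2 - P.2)) = (R.1 - P.1) * ((Q.1 - P.1) * (S.2 - P.2)) := by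
          ring
      _ = (R.1 - P.1) * ((Q.2 - P.2) * (S.1 - P.1)) := by rw [h2]
      _ = (S.1 - P.1) * ((Q.2 - P.2) * (R.1 - P.1)) := by ring
      _ = (S.1 - P.1) * ((Q.1 - P.1) * (R.2 - P.2)) := by rw [h1]
      _ = _ := by ring

/-- general position: no three distinct points on a line -/
def GP (S : Set Pt) : Prop :=
  ∀ P ∈ S, ∀ Q ∈ S, ∀ R ∈ S, P ≠ Q → P ≠ R → Q ≠ R → ¬ col P Q R

theorem GP.mono {S T : Set Pt} (h : GP T) (hST : S ⊆ T) : GP S :=
  fun P hP Q hQ R hR => h P (hST hP) Q (hST hQ) R (hST hR)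

/-- `S` is the union of `k` sets in general position -/
def Cov (S : Set Pt) (k : ℕ) : Prop :=
  ∃ c : Pt → ℕ, (∀ P ∈ S, c P < k) ∧ ∀ i, GP {P | P ∈ S ∧ c P = i}

theorem Cov.mono {S T : Set Pt} {k l : ℕ} (h : Cov T k) (hST : S ⊆ T) (hkl : k ≤ l) : Cov S l := by
  obtain ⟨c, h1, h2⟩ := h
  exact ⟨c, fun P hP => (h1 P (hST hP)).trans_le hkl, fun i => (h2 i).mono fun P hP =>
    ⟨hST hP.1, hP.2⟩⟩

open Classical in
theorem Cov.union {S T : Set Pt} {k l : ℕ} (hS : Cov S k) (hT : Cov T l) :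
    Cov (S ∪ T) (k + l) := by
  obtain ⟨c, h1, h2⟩ := hS
  obtain ⟨d, h3, h4⟩ := hT
  refine ⟨fun P => if P ∈ S then c P else k + d P, fun P hP => ?_, fun i => ?_⟩
  · by_cases h : P ∈ S
    · simp only [if_pos h]
      exact (h1 P h).trans_le (Nat.le_add_right _ _)
    · simp only [if_neg h]
      have := h3 P (hP.resolve_left h)
      omega
  · by_cases hi : i < k
    · refine (h2 i).mono fun P hP => ?_
      obtain ⟨-, hP2⟩ := hP
      by_cases h : P ∈ S
      · simp only [if_pos h] at hP2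
        exact ⟨h, hP2⟩
      · simp only [if_neg h] at hP2
        omega
    · refine (h4 (i - k)).mono fun P hP => ?_
      obtain ⟨hP1, hP2⟩ := hP
      by_cases h : P ∈ S
      · simp only [if_pos h] at hP2
        have := h1 P h
        omega
      · simp only [if_neg h] at hP2
        exact ⟨hP1.resolve_left h, by omega⟩

theorem Cov.card (S : Finset Pt) : Cov (S : Set Pt) S.card := by
  classical
  let e := S.equivFin
  refine ⟨fun P => if h : P ∈ S then (e ⟨P, h⟩ : ℕ) else 0, fun P hP => ?_, fun i => ?_⟩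
  · have hP' : P ∈ S := hP
    simp only [dif_pos hP']
    exact (e ⟨P, hP'⟩).2
  · rintro P ⟨hP, hP2⟩ Q ⟨hQ, hQ2⟩ R _ hPQ
    have hP' : P ∈ S := hP
    have hQ' : Q ∈ S := hQ
    simp only [dif_pos hP'] at hP2
    simp only [dif_pos hQ'] at hQ2
    have h1 : e ⟨P, hP'⟩ = e ⟨Q, hQ'⟩ := Fin.ext (hP2.trans hQ2.symm)
    have h2 := e.injective h1
    exact absurd (congrArg Subtype.val h2) hPQ

/-- the ordered collinear triples of distinct points -/
noncomputable def trip (D : Finset Pt) : Finset (Pt × Pt × Pt) :=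
  (D ×ˢ D ×ˢ D).filter fun t =>
    t.1 ≠ t.2.1 ∧ t.1 ≠ t.2.2 ∧ t.2.1 ≠ t.2.2 ∧ col t.1 t.2.1 t.2.2

theorem mem_trip {D : Finset Pt} {t : Pt × Pt × Pt} : t ∈ trip D ↔
    (t.1 ∈ D ∧ t.2.1 ∈ D ∧ t.2.2 ∈ D) ∧
      t.1 ≠ t.2.1 ∧ t.1 ≠ t.2.2 ∧ t.2.1 ≠ t.2.2 ∧ col t.1 t.2.1 t.2.2 := by
  unfold trip
  rw [mem_filter, mem_product, mem_product]

/-- the number of colourings for which three given points have the same colour -/
theorem card_mono {D : Finset Pt} {N : ℕ} {P Q R : D} (hPQ : P ≠ Q) (hPR : P ≠ R) (hQR : Q ≠ R) :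
    (univ.filter fun f : D → Fin N => f P = f Q ∧ f P = f R).card * N ^ 2 ≤
      Fintype.card (D → Fin N) := by
  classical
  have h1 : (univ.filter fun f : D → Fin N => f P = f Q ∧ f P = f R).card ≤
      Fintype.card ({x : D // x ≠ Q ∧ x ≠ R} → Fin N) := by
    rw [← Fintype.card_coe]
    refine Fintype.card_le_of_injective (fun f x => f.1 x.1) fun f g hfg => ?_
    have h2 : ∀ x : D, x ≠ Q → x ≠ R → f.1 x = g.1 x := fun x h3 h4 =>
      congrFun hfg ⟨x, h3, h4⟩
    have hf := (mem_filter.1 f.2).2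
    have hg := (mem_filter.1 g.2).2
    apply Subtype.ext
    funext x
    by_cases h3 : x = Q
    · rw [h3, ← hf.1, ← hg.1]; exact h2 P hPQ hPR
    · by_cases h4 : x = R
      · rw [h4, ← hf.2, ← hg.2]; exact h2 P hPQ hPR
      · exact h2 x h3 h4
  have h2 : Fintype.card {x : D // x ≠ Q ∧ x ≠ R} + 2 = Fintype.card D := by
    have h3 := Fintype.card_subtype_compl (fun x : D => x = Q ∨ x = R)
    have h4 : Fintype.card {x : D // x = Q ∨ x = R} = 2 := by
      rw [Fintype.card_subtype]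
      have : (univ.filter fun x : D => x = Q ∨ x = R) = {Q, R} := by
        ext x; simp
      rw [this, card_pair hQR]
    have h5 : Fintype.card {x : D // ¬ (x = Q ∨ x = R)} =
        Fintype.card {x : D // x ≠ Q ∧ x ≠ R} :=
      Fintype.card_congr (Equiv.subtypeEquivRight fun x => by tauto)
    have h6 : 2 ≤ Fintype.card D := by
      rw [← h4]; exact Fintype.card_subtype_le _
    rw [← h5, h3, h4]
    omega
  calc _ ≤ Fintype.card ({x : D // x ≠ Q ∧ x ≠ R} → Fin N) * N ^ 2 := Nat.mul_le_mul_right _ h1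
    _ = Fintype.card (D → Fin N) := by
      rw [Fintype.card_fun, Fintype.card_fun, Fintype.card_fin, ← h2, pow_add]

/-- **The colouring lemma.** -/
theorem color (D : Finset Pt) {N : ℕ} (hN : 0 < N) :
    Cov (D : Set Pt) (N + (trip D).card / N ^ 2) := by
  classical
  -- monochromatic triples
  let M : (D → Fin N) → Finset (Pt × Pt × Pt) := fun f => (trip D).filter fun t =>
    ∃ P Q R : D, t = (P.1, Q.1, R.1) ∧ f P = f Q ∧ f P = f R
  have hsum : ∑ f : D → Fin N, (M f).card * N ^ 2 ≤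
      (trip D).card * Fintype.card (D → Fin N) := by
    have h1 : ∀ f : D → Fin N, (M f).card = ∑ t ∈ trip D,
        if ∃ P Q R : D, t = (P.1, Q.1, R.1) ∧ f P = f Q ∧ f P = f R then 1 else 0 := by
      intro f
      rw [card_filter]
    simp_rw [h1]
    rw [← sum_mul, sum_comm, sum_mul]
    refine (sum_le_card_nsmul _ _ (Fintype.card (D → Fin N)) fun t ht => ?_).trans_eq
      (by rw [smul_eq_mul])
    rw [mem_trip] at ht
    obtain ⟨⟨h2, h3, h4⟩, h5, h6, h7, -⟩ := ht
    rw [← card_filter]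
    refine le_trans (Nat.mul_le_mul_right _ (card_le_card ?_)) (card_mono (P := ⟨t.1, h2⟩)
      (Q := ⟨t.2.1, h3⟩) (R := ⟨t.2.2, h4⟩) (fun h => h5 (congrArg Subtype.val h))
      (fun h => h6 (congrArg Subtype.val h)) (fun h => h7 (congrArg Subtype.val h)))
    intro f hf
    rw [mem_filter] at hf ⊢
    obtain ⟨-, P, Q, R, h8, h9, h10⟩ := hf
    refine ⟨mem_univ _, ?_⟩
    have e1 : (⟨t.1, h2⟩ : D) = P := Subtype.ext (congrArg (fun x => x.1) h8)
    have e2 : (⟨t.2.1, h3⟩ : D) = Q := Subtype.ext (congrArg (fun x => x.2.1) h8)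
    have e3 : (⟨t.2.2, h4⟩ : D) = R := Subtype.ext (congrArg (fun x => x.2.2) h8)
    rw [e1, e2, e3]
    exact ⟨h9, h10⟩
  obtain ⟨f, hf⟩ : ∃ f : D → Fin N, (M f).card * N ^ 2 ≤ (trip D).card := by
    by_contra hc
    push Not at hc
    have : Nonempty (D → Fin N) := ⟨fun _ => ⟨0, hN⟩⟩
    have h1 : ∑ f : D → Fin N, (trip D).card < ∑ f : D → Fin N, (M f).card * N ^ 2 :=
      sum_lt_sum_of_nonempty univ_nonempty fun f _ => hc f
    rw [sum_const, nsmul_eq_mul, Nat.cast_id, mul_comm] at h1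
    exact absurd hsum (not_le.2 h1)
  have hMc : (M f).card ≤ (trip D).card / N ^ 2 := (Nat.le_div_iff_mul_le (by positivity)).2 hf
  let X : Finset Pt := (M f).image fun t => t.1
  have hX : X.card ≤ (trip D).card / N ^ 2 := card_image_le.trans hMc
  have h1 : Cov ((D : Set Pt) \ X) N := by
    refine ⟨fun P => if h : P ∈ D then (f ⟨P, h⟩ : ℕ) else 0, fun P hP => ?_, fun i => ?_⟩
    · have hP' : P ∈ D := hP.1
      simp only [dif_pos hP']
      exact (f ⟨P, hP'⟩).2
    · rintro P ⟨⟨hP, hPX⟩, hP2⟩ Q ⟨⟨hQ, -⟩, hQ2⟩ R ⟨⟨hR, -⟩, hR2⟩ hPQ hPR hQR hcol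
      have hP' : P ∈ D := hP
      have hQ' : Q ∈ D := hQ
      have hR' : R ∈ D := hR
      simp only [dif_pos hP'] at hP2
      simp only [dif_pos hQ'] at hQ2
      simp only [dif_pos hR'] at hR2
      refine hPX ?_
      rw [Finset.mem_coe, mem_image]
      refine ⟨(P, Q, R), ?_, rfl⟩
      rw [mem_filter, mem_trip]
      exact ⟨⟨⟨hP', hQ', hR'⟩, hPQ, hPR, hQR, hcol⟩, ⟨P, hP'⟩, ⟨Q, hQ'⟩, ⟨R, hR'⟩, rfl,
        Fin.ext (hP2.trans hQ2.symm), Fin.ext (hP2.trans hR2.symm)⟩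
  refine (h1.union (Cov.card X)).mono (fun P hP => ?_) (by omega)
  by_cases h : P ∈ (X : Set Pt)
  · exact Or.inr h
  · exact Or.inl ⟨hP, h⟩

end Pool.Agent.Helper7.GPC
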