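import Pool.Agent.Helper7.GPC.Final
import Pool.Agent.Helper7.GPC.Data73

/-!
MP_1b5634_co: an upper bound smaller than `1` for the constant of Wood's problem.

The definitions `grid`, `GenPos`, `Partitions` and `gp` are in
`Pool/Agent/Helper7/GPC/Final.lean`.
-/

set_option autoImplicit false

open Filter Asymptotics Pool.Agent.Helper7.GPC

namespace Pool.Agent.Helper7.GPC.BelowOne

/-- The grid `G_n = {1, ..., n}²` can be partitioned into `(71/73) n + o(n)` sets in general
position. -/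
theorem below_one :
    (∀ n : ℕ, Partitions (grid n) (gp (grid n))) ∧
    (∃ f : ℕ → ℝ, f =o[atTop] (fun n : ℕ => (n : ℝ)) ∧
      ∀ n : ℕ, (gp (grid n) : ℝ) ≤ 71 / 73 * n + f n) ∧
    limsup (fun n : ℕ => (gp (grid n) : ℝ) / n) atTop ≤ 71 / 73 := by
  refine ⟨gp_attained, final (by norm_num) fun ε hε => ?_⟩
  have h := Data73.design.bound hε
  filter_upwards [h] with n hn
  obtain ⟨m, hm, hm2⟩ := hn
  refine ⟨m, hm, ?_⟩
  have e : (((45 : ℕ) : ℝ) + ((26 : ℕ) : ℝ)) / ((73 : ℕ) : ℝ) = 71 / 73 := by norm_num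
  rw [e] at hm2
  exact hm2

end Pool.Agent.Helper7.GPC.BelowOne
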