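import Pool.Agent.Helper7.GPC.Three

/-!
# Cells and windows
-/

namespace Pool.Agent.Helper7.GPC

/-- `p` is slightly larger than `m n / W`, and `n` is large -/
structure Sc (W m p n : ℤ) : Prop where
  W0 : 0 < W
  m0 : 0 < m
  W3 : W ≤ 3 * m
  lo : m * n < W * p
  hi : 256 * (W * p) ≤ 256 * (m * n) + n
  n0 : 256 * W ≤ n

/-- the cell of a coordinate -/
def cell (W n x : ℤ) : ℤ := W * x / n

theorem Sc.npos {W m p n : ℤ} (h : Sc W m p n) : 0 < n := by
  have h1 := h.W0
  have h2 := h.n0
  omega

theorem cell_le {W n : ℤ} (hn : 0 < n) (x : ℤ) : n * cell W n x ≤ W * x :=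
  Int.mul_ediv_self_le hn.ne'

theorem lt_cell {W n : ℤ} (hn : 0 < n) (x : ℤ) : W * x < n * cell W n x + n :=
  Int.lt_mul_ediv_self_add hn

theorem cell_range {W n x : ℤ} (hW : 0 < W) (hx : 0 ≤ x) (hxn : x < n) :
    0 ≤ cell W n x ∧ cell W n x < W := by
  have hn : 0 < n := by omega
  constructor
  · exact Int.ediv_nonneg (mul_nonneg hW.le hx) hn.le
  · refine Int.ediv_lt_of_lt_mul hn ?_
    exact mul_lt_mul_of_pos_left hxn hW

/-- a translate to the right -/
theorem shift_pos {W m p n : ℤ} (h : Sc W m p n) {x d : ℤ} (hd : 0 ≤ d) (hd2 : d ≤ 2) :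
    ∃ o : ℕ, o < 2 ∧ (d = 0 → o = 0) ∧ cell W n (x + p * d) = cell W n x + d * m + o ∧
      128 * (n * (cell W n x + o)) ≤ 128 * (W * x) + n := by
  have hn := h.npos
  have h1 := cell_le (W := W) hn x
  have h2 := lt_cell (W := W) hn x
  have h3 := cell_le (W := W) hn (x + p * d)
  have h4 := lt_cell (W := W) hn (x + p * d)
  set a := cell W n x
  set a' := cell W n (x + p * d)
  have hth0 : 0 < W * p - m * n := by linarith [h.lo]
  have hth1 : 256 * (W * p - m * n) ≤ n := by linarith [h.hi]
  have e1 : W * (x + p * d) = W * x + d * (m * n) + d * (W * p - m * n) := by ring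
  have e2 : 0 ≤ d * (W * p - m * n) := mul_nonneg hd hth0.le
  have e3 : d * (W * p - m * n) ≤ 2 * (W * p - m * n) := mul_le_mul_of_nonneg_right hd2 hth0.le
  rw [e1] at h3 h4
  have g1 : a + d * m ≤ a' := by
    have : n * (a + d * m) < n * (a' + 1) := by
      have : n * (a + d * m) = n * a + d * (m * n) := by ring
      rw [this, mul_add, mul_one]
      linarith
    have := lt_of_mul_lt_mul_left this hn.le
    omega
  have g2 : a' ≤ a + d * m + 1 := by
    have : n * a' < n * (a + d * m + 2) := by
      have : n * (a + d * m + 2) = n * a + d * (m * n) + 2 * n := by ring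
      rw [this]
      linarith
    have := lt_of_mul_lt_mul_left this hn.le
    omega
  have g3 : d = 0 → a' = a := by
    intro h0
    have : x + p * d = x := by rw [h0]; ring
    show cell W n (x + p * d) = a
    rw [this]
  rcases eq_or_ne a' (a + d * m) with h5 | h5
  · refine ⟨0, by norm_num, fun _ => rfl, by push_cast; omega, ?_⟩
    push_cast
    rw [add_zero]
    linarith
  · have h6 : a' = a + d * m + 1 := by omega
    refine ⟨1, by norm_num, fun h0 => ?_, by push_cast; omega, ?_⟩
    · exfalso
      have := g3 h0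
      rw [h0] at h6
      omega
    · push_cast
      have : n * a' = n * a + d * (m * n) + n := by rw [h6]; ring
      rw [mul_add, mul_one]
      linarith

/-- the offset is monotone -/
theorem shift_mono {W m p n : ℤ} (h : Sc W m p n) {x d k : ℤ} {o o' : ℕ} (hdk : d ≤ k)
    (h1 : cell W n (x + p * d) = cell W n x + d * m + o)
    (h2 : cell W n (x + p * k) = cell W n x + k * m + o') : o ≤ o' := by
  have hn := h.npos
  have h3 := cell_le (W := W) hn (x + p * d)
  have h4 := lt_cell (W := W) hn (x + p * k)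
  rw [h1] at h3
  rw [h2] at h4
  set a := cell W n x
  have hth0 : 0 < W * p - m * n := by linarith [h.lo]
  have e1 : W * (x + p * k) = W * (x + p * d) + (k - d) * (m * n) + (k - d) * (W * p - m * n) := by
    ring
  have e2 : 0 ≤ (k - d) * (W * p - m * n) := mul_nonneg (by omega) hth0.le
  rw [e1] at h4
  have : n * (o : ℤ) < n * (o' + 1) := by
    have e3 : n * (a + d * m + o) = n * a + d * (m * n) + n * o := by ring
    have e4 : n * (a + k * m + o') = n * a + k * (m * n) + n * o' := by ring
    have e5 : (k - d) * (m * n) = k * (m * n) - d * (m * n) := by ring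
    rw [e3] at h3
    rw [e4] at h4
    rw [mul_add, mul_one]
    linarith
  have := lt_of_mul_lt_mul_left this hn.le
  omega

/-- a translate to the left -/
theorem shift_neg {W m p n : ℤ} (h : Sc W m p n) {x d : ℤ} (hd : 0 ≤ d) (hd2 : d ≤ 2) :
    ∃ o : ℕ, o < 2 ∧ cell W n (x + p * (-d)) = cell W n x - d * m - o ∧
      128 * (W * x) ≤ 128 * (n * (cell W n x + 1 - o)) + n := by
  have hn := h.npos
  have h1 := cell_le (W := W) hn x
  have h2 := lt_cell (W := W) hn x
  have h3 := cell_le (W := W) hn (x + p * (-d))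
  have h4 := lt_cell (W := W) hn (x + p * (-d))
  set a := cell W n x
  set a' := cell W n (x + p * (-d))
  have hth0 : 0 < W * p - m * n := by linarith [h.lo]
  have hth1 : 256 * (W * p - m * n) ≤ n := by linarith [h.hi]
  have e1 : W * (x + p * (-d)) = W * x - d * (m * n) - d * (W * p - m * n) := by ring
  have e2 : 0 ≤ d * (W * p - m * n) := mul_nonneg hd hth0.le
  have e3 : d * (W * p - m * n) ≤ 2 * (W * p - m * n) := mul_le_mul_of_nonneg_right hd2 hth0.le
  rw [e1] at h3 h4
  have g1 : a' ≤ a - d * m := by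
    have : n * a' < n * (a - d * m + 1) := by
      have : n * (a - d * m + 1) = n * a - d * (m * n) + n := by ring
      rw [this]
      linarith
    have := lt_of_mul_lt_mul_left this hn.le
    omega
  have g2 : a - d * m - 1 ≤ a' := by
    have : n * (a - d * m - 1) < n * (a' + 1) := by
      have : n * (a - d * m - 1) = n * a - d * (m * n) - n := by ring
      rw [this, mul_add, mul_one]
      linarith
    have := lt_of_mul_lt_mul_left this hn.le
    omega
  rcases eq_or_ne a' (a - d * m) with h5 | h5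
  · refine ⟨0, by norm_num, by push_cast; omega, ?_⟩
    push_cast
    rw [sub_zero, mul_add, mul_one]
    linarith
  · have h6 : a' = a - d * m - 1 := by omega
    refine ⟨1, by norm_num, by push_cast; omega, ?_⟩
    push_cast
    have : n * a' = n * a - d * (m * n) - n := by rw [h6]; ring
    have e4 : n * (a + 1 - 1) = n * a := by ring
    rw [e4]
    linarith

theorem shift_mono_neg {W m p n : ℤ} (h : Sc W m p n) {x d k : ℤ} {o o' : ℕ} (hdk : d ≤ k)
    (h1 : cell W n (x + p * (-d)) = cell W n x - d * m - o)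
    (h2 : cell W n (x + p * (-k)) = cell W n x - k * m - o') : o ≤ o' := by
  have hn := h.npos
  have h3 := lt_cell (W := W) hn (x + p * (-d))
  have h4 := cell_le (W := W) hn (x + p * (-k))
  rw [h1] at h3
  rw [h2] at h4
  set a := cell W n x
  have hth0 : 0 < W * p - m * n := by linarith [h.lo]
  have e1 : W * (x + p * (-k)) = W * (x + p * (-d)) - (k - d) * (m * n) -
      (k - d) * (W * p - m * n) := by ring
  have e2 : 0 ≤ (k - d) * (W * p - m * n) := mul_nonneg (by omega) hth0.le
  rw [e1] at h4
  have : n * (o : ℤ) < n * (o' + 1) := by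
    have e3 : n * (a - d * m - o) = n * a - d * (m * n) - n * o := by ring
    have e4 : n * (a - k * m - o') = n * a - k * (m * n) - n * o' := by ring
    have e5 : (k - d) * (m * n) = k * (m * n) - d * (m * n) := by ring
    rw [e3] at h3
    rw [e4] at h4
    rw [mul_add, mul_one]
    linarith
  have := lt_of_mul_lt_mul_left this hn.le
  omega

/-- an approximation of the constants -/
def Cen (W n c Z : ℤ) : Prop := Z * n - 8 * W ≤ 4 * W * c ∧ 4 * W * c ≤ Z * n + 8 * W

theorem kbound {W m p n : ℤ} (h : Sc W m p n) {s c T κ : ℤ} (hT : -(2 * W) ≤ T)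
    (hT2 : T < 2 * W) (hs1 : -(2 * n) ≤ s) (hs2 : s ≤ 2 * n) (he : s = κ * p + c)
    (hc : Cen W n c (4 * T + 2)) : -14 ≤ κ ∧ κ ≤ 14 := by
  have hn := h.npos
  have hW := h.W0
  obtain ⟨h1, h2⟩ := hc
  -- `|c| ≤ 2 n + 2`
  have hc1 : c ≤ 2 * n + 2 := by
    have h3 : 4 * W * c ≤ 4 * W * (2 * n + 2) := by
      have h4 : (4 * T + 2) * n ≤ 4 * (2 * W) * n := mul_le_mul_of_nonneg_right (by omega) hn.le
      linarith
    exact le_of_mul_le_mul_left h3 (by omega)
  have hc2 : -(2 * n + 2) ≤ c := by
    have h3 : 4 * W * (-(2 * n + 2)) ≤ 4 * W * c := by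
      have h4 : 4 * (-(2 * W)) * n ≤ (4 * T + 2) * n := mul_le_mul_of_nonneg_right (by omega) hn.le
      linarith
    exact le_of_mul_le_mul_left h3 (by omega)
  have hp : n < 3 * p := by
    have h3 : W * n < W * (3 * p) := by
      have h4 := h.lo
      have h5 : W * n ≤ 3 * m * n := mul_le_mul_of_nonneg_right h.W3 hn.le
      linarith
    exact lt_of_mul_lt_mul_left h3 hW.le
  have hn256 : 256 ≤ n := by
    have := h.n0
    omega
  have hp0 : 0 < p := by omega
  constructor
  · by_contra hk
    have : κ * p ≤ -15 * p := mul_le_mul_of_nonneg_right (by omega) hp0.le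
    omega
  · by_contra hk
    have : 15 * p ≤ κ * p := mul_le_mul_of_nonneg_right (by omega) hp0.le
    omega

theorem ktheta {W m p n κ : ℤ} (h : Sc W m p n) (hk1 : -14 ≤ κ) (hk2 : κ ≤ 14) :
    -(7 * n) ≤ 128 * (κ * (W * p - m * n)) ∧ 128 * (κ * (W * p - m * n)) ≤ 7 * n := by
  have hth0 : 0 < W * p - m * n := by linarith [h.lo]
  have hth1 : 256 * (W * p - m * n) ≤ n := by linarith [h.hi]
  have h1 : κ * (W * p - m * n) ≤ 14 * (W * p - m * n) := mul_le_mul_of_nonneg_right hk2 hth0.le
  have h2 : -14 * (W * p - m * n) ≤ κ * (W * p - m * n) := mul_le_mul_of_nonneg_right hk1 hth0.le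
  constructor <;> linarith

/-- the window of a sum -/
theorem win_sum {W m p n : ℤ} (h : Sc W m p n) {u v c T κ : ℤ} {o : ℕ} (hk1 : -14 ≤ κ)
    (hk2 : κ ≤ 14) (he : u + v = κ * p + c) (hc : Cen W n c (4 * T + 2))
    (ho : 128 * (n * (cell W n u + o)) ≤ 128 * (W * u) + n) :
    cell W n u + cell W n v + o ≤ κ * m + T ∧ κ * m + T - 1 ≤ cell W n u + cell W n v := by
  have hn := h.npos
  have h1 := cell_le (W := W) hn u
  have h2 := lt_cell (W := W) hn u
  have h3 := cell_le (W := W) hn v
  have h4 := lt_cell (W := W) hn v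
  have h5 := ktheta h hk1 hk2
  have h6 := h.n0
  obtain ⟨hc1, hc2⟩ := hc
  set a := cell W n u
  set b := cell W n v
  have e1 : 4 * (W * u) + 4 * (W * v) = 4 * (κ * m) * n + 4 * (κ * (W * p - m * n)) +
      4 * W * c := by
    calc 4 * (W * u) + 4 * (W * v) = 4 * W * (u + v) := by ring
      _ = _ := by rw [he]; ring
  constructor
  · have : n * (128 * (a + b + o)) ≤ n * (128 * (κ * m) + 128 * T + 104) := by
      have e2 : n * (128 * (a + b + o)) = 128 * (n * (a + o)) + 128 * (n * b) := by ring
      have e3 : n * (128 * (κ * m) + 128 * T + 104) = 32 * (4 * (κ * m) * n) +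
        32 * ((4 * T + 2) * n) + 40 * n := by ring
      rw [e2, e3]
      linarith [h5.2]
    have := le_of_mul_le_mul_left this hn
    omega
  · have : n * (128 * (κ * m) + 128 * T + 32) ≤ n * (128 * (a + b + 2)) := by
      have e2 : n * (128 * (a + b + 2)) = 128 * (n * a + n) + 128 * (n * b + n) := by ring
      have e3 : n * (128 * (κ * m) + 128 * T + 32) = 32 * (4 * (κ * m) * n) +
        32 * ((4 * T + 2) * n) - 32 * n := by ring
      rw [e2, e3]
      linarith [h5.1]
    have := le_of_mul_le_mul_left this hn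
    omega

/-- the window of a difference `v - u` -/
theorem win_diff {W m p n : ℤ} (h : Sc W m p n) {u v c T κ : ℤ} {o o' : ℕ} (hk1 : -14 ≤ κ)
    (hk2 : κ ≤ 14) (he : v - u = κ * p + c) (hc : Cen W n c (4 * T + 2))
    (ho : 128 * (n * (cell W n u + o)) ≤ 128 * (W * u) + n)
    (ho' : 128 * (W * v) ≤ 128 * (n * (cell W n v + 1 - o')) + n) :
    κ * m + T + o ≤ cell W n v - cell W n u ∧ κ * m + T + o' ≤ cell W n v - cell W n u ∧
      cell W n v - cell W n u ≤ κ * m + T + 1 := by
  have hn := h.npos
  have h1 := cell_le (W := W) hn u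
  have h2 := lt_cell (W := W) hn u
  have h3 := cell_le (W := W) hn v
  have h4 := lt_cell (W := W) hn v
  have h5 := ktheta h hk1 hk2
  have h6 := h.n0
  obtain ⟨hc1, hc2⟩ := hc
  set a := cell W n u
  set b := cell W n v
  have e1 : 4 * (W * v) - 4 * (W * u) = 4 * (κ * m) * n + 4 * (κ * (W * p - m * n)) +
      4 * W * c := by
    calc 4 * (W * v) - 4 * (W * u) = 4 * W * (v - u) := by ring
      _ = _ := by rw [he]; ring
  have e3 : n * (128 * (κ * m) + 128 * T + 64) = 32 * (4 * (κ * m) * n) +
        32 * ((4 * T + 2) * n) := by ring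
  refine ⟨?_, ?_, ?_⟩
  · have : n * (128 * (κ * m) + 128 * T + 64) ≤ n * (128 * (b - a - o) + 128 + 33) := by
      have e2 : n * (128 * (b - a - o) + 128 + 33) = 128 * (n * b + n) - 128 * (n * (a + o)) +
        33 * n := by ring
      rw [e2, e3]
      linarith [h5.1]
    have := le_of_mul_le_mul_left this hn
    omega
  · have : n * (128 * (κ * m) + 128 * T + 64) ≤ n * (128 * (b - a - o') + 128 + 33) := by
      have e2 : n * (128 * (b - a - o') + 128 + 33) = 128 * (n * (b + 1 - o')) - 128 * (n * a) +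
        33 * n := by ring
      rw [e2, e3]
      linarith [h5.1]
    have := le_of_mul_le_mul_left this hn
    omega
  · have : n * (128 * (b - a - 1) - 40) ≤ n * (128 * (κ * m) + 128 * T + 64) := by
      have e2 : n * (128 * (b - a - 1) - 40) = 128 * (n * b) - 128 * (n * a + n) - 40 * n := by
        ring
      rw [e2, e3]
      linarith [h5.2]
    have := le_of_mul_le_mul_left this hn
    omega

end Pool.Agent.Helper7.GPC
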