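import Pool.Agent.Helper7.GPC.Basic

/-!
# The number of the collinear triples of a square, and the divisor bound
-/

open Finset

namespace Pool.Agent.Helper7.GPC

/-- the direction of a line -/
theorem exists_dir {P Q : Pt} (h : P ≠ Q) : ∃ (g : ℕ) (e : Pt), 0 < g ∧ IsCoprime e.1 e.2 ∧
    Q = (P.1 + g * e.1, P.2 + g * e.2) := by
  have hg : 0 < Int.gcd (Q.1 - P.1) (Q.2 - P.2) := by
    rw [Nat.pos_iff_ne_zero, Ne, Int.gcd_eq_zero_iff]
    rintro ⟨h1, h2⟩
    exact h (Prod.ext (by linarith) (by linarith))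
  obtain ⟨a, b, hab, ha, hb⟩ := Int.exists_gcd_one hg
  refine ⟨Int.gcd (Q.1 - P.1) (Q.2 - P.2), (a, b), hg, Int.isCoprime_iff_gcd_eq_one.2 hab, ?_⟩
  apply Prod.ext
  · simp only
    linarith
  · simp only
    linarith

/-- points on a line with a primitive direction -/
theorem exists_param {P S e : Pt} (he : IsCoprime e.1 e.2)
    (h : e.1 * (S.2 - P.2) = e.2 * (S.1 - P.1)) :
    ∃ t : ℤ, S = (P.1 + t * e.1, P.2 + t * e.2) := by
  obtain ⟨u, v, huv⟩ := he
  refine ⟨u * (S.1 - P.1) + v * (S.2 - P.2), Prod.ext ?_ ?_⟩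
  · simp only
    linear_combination -(v * h) - (S.1 - P.1) * huv
  · simp only
    linear_combination u * h - (S.2 - P.2) * huv

theorem exists_line {P Q S : Pt} (h : P ≠ Q) (hc : col P Q S) : ∃ (g : ℕ) (e : Pt) (t : ℤ),
    0 < g ∧ IsCoprime e.1 e.2 ∧ Q = (P.1 + g * e.1, P.2 + g * e.2) ∧
      S = (P.1 + t * e.1, P.2 + t * e.2) := by
  obtain ⟨g, e, hg, he, hQ⟩ := exists_dir h
  have h1 : e.1 * (S.2 - P.2) = e.2 * (S.1 - P.1) := by
    unfold col at hc
    rw [hQ] at hc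
    have hg' : (g : ℤ) ≠ 0 := by exact_mod_cast hg.ne'
    apply mul_left_cancel₀ hg'
    simp only at hc
    linear_combination hc
  obtain ⟨t, ht⟩ := exists_param he h1
  exact ⟨g, e, t, hg, he, hQ, ht⟩

/-- the square -/
def InSq (n : ℕ) (P : Pt) : Prop := 0 ≤ P.1 ∧ P.1 < n ∧ 0 ≤ P.2 ∧ P.2 < n

/-- the number of the collinear triples in a square -/
theorem trip_le {n R : ℕ} (hR : 0 < R) {C : Finset Pt} (hC : ∀ P ∈ C, InSq n P) :
    (trip C).card ≤ n ^ 2 * ((2 * R + 1) ^ 2 * n * (2 * n + 1)) + n ^ 2 * n ^ 2 * (2 * (n / R) + 1) := by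
  classical
  obtain ⟨G, hG, hmem⟩ : ∃ G : Finset Pt, G.card = n ^ 2 ∧ ∀ P, InSq n P → P ∈ G := by
    refine ⟨Ico (0 : ℤ) n ×ˢ Ico (0 : ℤ) n, ?_, fun P hP =>
      mem_product.2 ⟨mem_Ico.2 ⟨hP.1, hP.2.1⟩, mem_Ico.2 ⟨hP.2.2.1, hP.2.2.2⟩⟩⟩
    rw [card_product, Int.card_Ico]
    simp [sq]
  obtain ⟨E, hE, hmemE⟩ : ∃ E : Finset Pt, E.card = (2 * R + 1) ^ 2 ∧
      ∀ e : Pt, |e.1| ≤ R → |e.2| ≤ R → e ∈ E := by
    refine ⟨Icc (-(R : ℤ)) R ×ˢ Icc (-(R : ℤ)) R, ?_, fun e h1 h2 =>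
      mem_product.2 ⟨mem_Icc.2 (abs_le.1 h1), mem_Icc.2 (abs_le.1 h2)⟩⟩
    rw [card_product, Int.card_Icc, sq]
    congr 1 <;> omega
  let T1 : Finset (Pt × Pt × Pt) := (G ×ˢ E ×ˢ Ico 0 n ×ˢ Icc (-(n : ℤ)) n).image
    fun x => (x.1, (x.1.1 + (x.2.2.1 : ℤ) * x.2.1.1, x.1.2 + (x.2.2.1 : ℤ) * x.2.1.2),
      (x.1.1 + x.2.2.2 * x.2.1.1, x.1.2 + x.2.2.2 * x.2.1.2))
  have hT1 : T1.card ≤ n ^ 2 * ((2 * R + 1) ^ 2 * n * (2 * n + 1)) := by
    refine card_image_le.trans ?_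
    rw [card_product, card_product, card_product, hG, hE, Nat.card_Ico, Int.card_Icc, Nat.sub_zero]
    have : ((n : ℤ) + 1 - -(n : ℤ)).toNat = 2 * n + 1 := by omega
    rw [this, mul_assoc ((2 * R + 1) ^ 2)]
  -- the direction of the line through two points
  let dir : Pt × Pt → Pt := fun x => if h : x.1 ≠ x.2 then (exists_dir h).choose_spec.choose else 0
  let T2 : Finset (Pt × Pt × Pt) := (G ×ˢ G ×ˢ Icc (-((n / R : ℕ) : ℤ)) ((n / R : ℕ) : ℤ)).image
    fun x => (x.1, x.2.1, (x.1.1 + x.2.2 * (dir (x.1, x.2.1)).1,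
      x.1.2 + x.2.2 * (dir (x.1, x.2.1)).2))
  have hT2 : T2.card ≤ n ^ 2 * n ^ 2 * (2 * (n / R) + 1) := by
    refine card_image_le.trans ?_
    rw [card_product, card_product, hG, Int.card_Icc]
    have : (((n / R : ℕ) : ℤ) + 1 - -((n / R : ℕ) : ℤ)).toNat = 2 * (n / R) + 1 := by omega
    rw [this, mul_assoc]
  refine (card_le_card (t := T1 ∪ T2) ?_).trans ((card_union_le _ _).trans (add_le_add hT1 hT2))
  rintro ⟨P, Q, S⟩ ht
  obtain ⟨⟨hP, hQ, hS⟩, hPQ, hPS, hQS, hcol⟩ := mem_trip.1 ht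
  simp only at hP hQ hS hPQ hPS hQS hcol
  have hP' := hC P hP
  have hQ' := hC Q hQ
  have hS' := hC S hS
  -- the direction
  have hdir : dir (P, Q) = (exists_dir hPQ).choose_spec.choose := dif_pos hPQ
  set e : Pt := (exists_dir hPQ).choose_spec.choose with he
  set g : ℕ := (exists_dir hPQ).choose with hg
  obtain ⟨hg0, hec, hQe⟩ := (exists_dir hPQ).choose_spec.choose_spec
  rw [← he, ← hg] at hQe
  rw [← hg] at hg0
  rw [← he] at hec
  have h1 : e.1 * (S.2 - P.2) = e.2 * (S.1 - P.1) := by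
    unfold col at hcol
    rw [hQe] at hcol
    have hg' : (g : ℤ) ≠ 0 := by exact_mod_cast hg0.ne'
    apply mul_left_cancel₀ hg'
    simp only at hcol
    linear_combination hcol
  obtain ⟨t, ht⟩ := exists_param hec h1
  -- bounds
  have hQ1 : Q.1 - P.1 = g * e.1 := by rw [hQe]; ring
  have hQ2 : Q.2 - P.2 = g * e.2 := by rw [hQe]; ring
  have hS1 : S.1 - P.1 = t * e.1 := by rw [ht]; ring
  have hS2 : S.2 - P.2 = t * e.2 := by rw [ht]; ring
  have b1 : |(g : ℤ) * e.1| < n := by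
    rw [← hQ1, abs_lt]
    have := hP'.1; have := hP'.2.1; have := hQ'.1; have := hQ'.2.1
    constructor <;> linarith
  have b2 : |(g : ℤ) * e.2| < n := by
    rw [← hQ2, abs_lt]
    have := hP'.2.2.1; have := hP'.2.2.2; have := hQ'.2.2.1; have := hQ'.2.2.2
    constructor <;> linarith
  have b3 : |t * e.1| < n := by
    rw [← hS1, abs_lt]
    have := hP'.1; have := hP'.2.1; have := hS'.1; have := hS'.2.1
    constructor <;> linarith
  have b4 : |t * e.2| < n := by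
    rw [← hS2, abs_lt]
    have := hP'.2.2.1; have := hP'.2.2.2; have := hS'.2.2.1; have := hS'.2.2.2
    constructor <;> linarith
  have he0 : e.1 ≠ 0 ∨ e.2 ≠ 0 := by
    by_contra hc
    push Not at hc
    rw [hc.1, hc.2] at hec
    obtain ⟨u, v, huv⟩ := hec
    simp at huv
  have hg_lt : (g : ℤ) < n := by
    rcases he0 with h | h
    · have h2 : 1 ≤ |e.1| := Int.one_le_abs h
      rw [abs_mul, Nat.abs_cast] at b1
      nlinarith
    · have h2 : 1 ≤ |e.2| := Int.one_le_abs h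
      rw [abs_mul, Nat.abs_cast] at b2
      nlinarith
  have ht_lt : |t| < n := by
    rcases he0 with h | h
    · have h2 : 1 ≤ |e.1| := Int.one_le_abs h
      rw [abs_mul] at b3
      nlinarith [abs_nonneg t]
    · have h2 : 1 ≤ |e.2| := Int.one_le_abs h
      rw [abs_mul] at b4
      nlinarith [abs_nonneg t]
  rw [mem_union]
  by_cases hsm : |e.1| ≤ R ∧ |e.2| ≤ R
  · left
    rw [mem_image]
    refine ⟨(P, e, g, t), ?_, ?_⟩
    · rw [mem_product, mem_product, mem_product]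
      refine ⟨hmem P hP', hmemE e hsm.1 hsm.2,
        mem_Ico.2 ⟨Nat.zero_le _, by exact_mod_cast hg_lt⟩, mem_Icc.2 ?_⟩
      exact abs_le.1 ht_lt.le
    · simp only
      rw [← hQe, ← ht]
  · right
    rw [mem_image]
    refine ⟨(P, Q, t), ?_, ?_⟩
    · rw [mem_product, mem_product]
      refine ⟨hmem P hP', hmem Q hQ', mem_Icc.2 (abs_le.1 ?_)⟩
      have h3 : (R : ℤ) < |e.1| ∨ (R : ℤ) < |e.2| := by
        by_contra hc
        push Not at hc
        exact hsm hc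
      have h4 : |t| * R < n := by
        rcases h3 with h3 | h3
        · rw [abs_mul] at b3
          nlinarith [abs_nonneg t]
        · rw [abs_mul] at b4
          nlinarith [abs_nonneg t]
      have h5 : t.natAbs * R < n := by
        have : ((t.natAbs * R : ℕ) : ℤ) < n := by
          rw [Nat.cast_mul, Int.natCast_natAbs]
          exact h4
        exact_mod_cast this
      have h6 : t.natAbs ≤ n / R := (Nat.le_div_iff_mul_le hR).2 h5.le
      rw [← Int.natCast_natAbs]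
      exact_mod_cast h6
    · simp only
      rw [hdir, ← ht]

end Pool.Agent.Helper7.GPC
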