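import Pool.Agent.Helper7.GPC.ValidB

/-!
# Designs with two families
-/

open Finset Filter

namespace Pool.Agent.Helper7.GPC

/-- a certified design -/
structure Design (W mA mB S MA N1 N2 MB NX NY : ℕ) (A1 A2 B1 B2 : ℤ) : Prop where
  W0 : 0 < W
  mA2 : W ≤ 2 * mA
  mAW : mA ≤ W
  mB3 : W ≤ 3 * mB
  mBW : mB ≤ W
  a1 : -(2 * (W : ℤ)) ≤ A1
  a2 : A1 < 2 * W
  a3 : -(2 * (W : ℤ)) ≤ A2
  a4 : A2 < 2 * W
  b1 : -(2 * (W : ℤ)) ≤ B1
  b2 : B1 < 2 * W
  b3 : -(2 * (W : ℤ)) ≤ B2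
  b4 : B2 < 2 * W
  hN1 : Tr W S MA N1 (fun _ b => W - 1 - b) (fun a _ => W - 1 - a)
  hN2 : Tr W S MA N2 (fun _ b => b) (fun a _ => a)
  hNX : Tr W S MB NX (fun a _ => W - 1 - a) (fun _ b => b)
  hNY : Tr W S MB NY (fun a _ => a) (fun _ b => W - 1 - b)
  chkA : ChkA W mA S MA N1 N2 A1 A2
  chkB : ChkB W mB S MB NX NY B1 B2
  cov : ∀ a < W, ∀ b < W, MA.testBit (a * S + b) = true ∨ MB.testBit (a * S + b) = true

theorem sc_of {W m p n : ℕ} (hW : 0 < W) (hm : 0 < m) (hmW : m ≤ W) (hW3 : W ≤ 3 * m)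
    (hn : 256 * W ≤ n) (h1 : (m : ℝ) / W * n < p)
    (h2 : (p : ℝ) ≤ (1 + 1 / (256 * W)) * ((m : ℝ) / W * n)) : Sc W m p n where
  W0 := by exact_mod_cast hW
  m0 := by exact_mod_cast hm
  W3 := by exact_mod_cast hW3
  lo := by
    have hW' : (0 : ℝ) < W := by exact_mod_cast hW
    have h3 : (m : ℝ) * n < W * p := by
      calc (m : ℝ) * n = W * ((m : ℝ) / W * n) := by field_simp
        _ < W * p := mul_lt_mul_of_pos_left h1 hW'
    exact_mod_cast h3
  hi := by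
    have hW' : (0 : ℝ) < W := by exact_mod_cast hW
    have hmW' : (m : ℝ) ≤ W := by exact_mod_cast hmW
    have h3 : 256 * ((W : ℝ) * p) ≤ 256 * (m * n) + n := by
      calc 256 * ((W : ℝ) * p) ≤ 256 * (W * ((1 + 1 / (256 * W)) * ((m : ℝ) / W * n))) := by
            have := mul_le_mul_of_nonneg_left h2 hW'.le
            linarith
        _ = 256 * (m * n) + m / W * n := by field_simp
        _ ≤ 256 * (m * n) + n := by
            have h4 : (m : ℝ) / W ≤ 1 := by rw [div_le_one hW']; exact hmW'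
            have h5 : (0 : ℝ) ≤ n := Nat.cast_nonneg n
            nlinarith
    exact_mod_cast h3
  n0 := by exact_mod_cast hn

/-- **The bound given by a design.** -/
theorem Design.bound {W mA mB S MA N1 N2 MB NX NY : ℕ} {A1 A2 B1 B2 : ℤ}
    (D : Design W mA mB S MA N1 N2 MB NX NY A1 A2 B1 B2) {ε : ℝ} (hε : 0 < ε) :
    ∀ᶠ n : ℕ in atTop, ∃ m : ℕ, Cov {P | InSq n P} m ∧
      (m : ℝ) ≤ (((mA : ℝ) + mB) / W + ε) * n := by
  have hW := D.W0
  have hW' : (0 : ℝ) < W := by exact_mod_cast hW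
  have hmA : 0 < mA := by have := D.mA2; omega
  have hmB : 0 < mB := by have := D.mB3; omega
  have hmA' : (0 : ℝ) < mA := by exact_mod_cast hmA
  have hmB' : (0 : ℝ) < mB := by exact_mod_cast hmB
  have h := assembly (k := 2) ![(mA : ℝ) / W, (mB : ℝ) / W] (by
    intro i
    fin_cases i
    · simp only [Fin.zero_eta, Matrix.cons_val_zero]; positivity
    · simp only [Fin.mk_one, Matrix.cons_val_one, Matrix.cons_val_fin_one]; positivity)
    (δ0 := 1 / (256 * W)) (by positivity) (n0 := 256 * W) (by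
    intro n hn p hp hpn
    have sA : Sc W mA (p 0) n := sc_of hW hmA D.mAW (by have := D.mA2; omega) hn
      (by simpa using (hpn 0).1) (by simpa using (hpn 0).2)
    have sB : Sc W mB (p 1) n := sc_of hW hmB D.mBW D.mB3 hn
      (by simpa using (hpn 1).1) (by simpa using (hpn 1).2)
    refine ⟨![fmA (cc1 W n A1 A2) (cc2 W n A1 A2), fmB (cc1 W n B1 B2) (cc2 W n B1 B2)],
      ![KS W S MA n, KS W S MB n], ?_, ?_⟩
    · intro i
      fin_cases i
      · exact validA (hp 0) sA D.mA2 D.a1 D.a2 D.a3 D.a4 D.hN1 D.hN2 D.chkA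
      · have h2p : 2 < p 1 := by
          have h1 := sB.mul_lt (c := 3) (by norm_num) (by exact_mod_cast D.mB3)
          have h2 : n ≤ 3 * p 1 := by exact_mod_cast h1
          omega
        exact validB (hp 1) h2p sB D.b1 D.b2 D.b3 D.b4 D.hNX D.hNY D.chkB
    · intro P hP
      have hW2 : (0 : ℤ) < W := by exact_mod_cast hW
      obtain ⟨h1, h2, h3, h4⟩ := hP
      have ca := cell_range hW2 h1 h2
      have cb := cell_range hW2 h3 h4
      rcases D.cov (cell W n P.1).toNat (by omega) (cell W n P.2).toNat (by omega) with h5 | h5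
      · exact ⟨0, mem_KS.2 ⟨⟨h1, h2, h3, h4⟩, h5⟩⟩
      · exact ⟨1, mem_KS.2 ⟨⟨h1, h2, h3, h4⟩, h5⟩⟩) hε
  filter_upwards [h] with n hn
  obtain ⟨m, hm1, hm2⟩ := hn
  refine ⟨m, hm1, ?_⟩
  have e1 : ∑ i : Fin 2, (![(mA : ℝ) / W, (mB : ℝ) / W]) i = ((mA : ℝ) + mB) / W := by
    rw [Fin.sum_univ_two]
    simp only [Matrix.cons_val_zero, Matrix.cons_val_one, Matrix.cons_val_fin_one]
    field_simp
  rw [e1] at hm2
  exact hm2

end Pool.Agent.Helper7.GPC
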