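import Pool.Agent.Helper7.GPC.Insert
import Pool.Agent.Helper7.GPC.Coll

/-!
# Families of hyperbolas modulo a prime
-/

open Finset

namespace Pool.Agent.Helper7.GPC

/-- an affine linear form -/
structure Lin where
  l : ℤ
  m : ℤ
  c : ℤ

/-- the value at a point -/
def Lin.at (L : Lin) (P : Pt) : ℤ := L.l * P.1 + L.m * P.2 - L.c

/-- the linear part -/
def Lin.lin (L : Lin) (d : Pt) : ℤ := L.l * d.1 + L.m * d.2

/-- small coefficients -/
structure Lin.Small (L : Lin) (n : ℕ) : Prop where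
  l : |L.l| ≤ 1
  m : |L.m| ≤ 1
  c : |L.c| ≤ 4 * n

theorem Lin.at_add (L : Lin) (P d : Pt) (t : ℤ) :
    L.at (P.1 + t * d.1, P.2 + t * d.2) = L.at P + t * L.lin d := by
  unfold Lin.at Lin.lin; ring

theorem Lin.Small.abs_le {L : Lin} {n : ℕ} (h : L.Small n) {P : Pt} (hP : InSq n P) :
    |L.at P| ≤ 6 * n := by
  unfold Lin.at
  obtain ⟨h1, h2, h3, h4⟩ := hP
  have e1 : |L.l * P.1| ≤ n := by
    rw [abs_mul, abs_of_nonneg h1]
    have := h.l
    nlinarith [abs_nonneg L.l]
  have e2 : |L.m * P.2| ≤ n := by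
    rw [abs_mul, abs_of_nonneg h3]
    have := h.m
    nlinarith [abs_nonneg L.m]
  have e3 := h.c
  rw [_root_.abs_le] at *
  constructor <;> linarith [e1.1, e1.2, e2.1, e2.2, e3.1, e3.2]

/-- collinear points and linear forms -/
theorem Lin.at_col (L : Lin) {v1 v2 P : Pt} (hne : v1 ≠ v2) (h : L.at v1 = L.at v2)
    (hc : col v1 v2 P) : L.at P = L.at v1 := by
  obtain ⟨g, e, t, hg, -, hv, hP⟩ := exists_line hne hc
  have h1 := L.at_add v1 e g
  have h2 := L.at_add v1 e t
  rw [← hv] at h1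
  rw [← hP] at h2
  have h3 : (g : ℤ) * L.lin e = 0 := by linarith
  have h4 : L.lin e = 0 := (mul_eq_zero.1 h3).resolve_left (by exact_mod_cast hg.ne')
  rw [h2, h4]; ring

/-- a family -/
structure Fm where
  X : Lin
  Y : Lin

/-- the determinant -/
def Fm.det (F : Fm) : ℤ := F.X.l * F.Y.m - F.X.m * F.Y.l

/-- the class of a point -/
def Fm.cls (F : Fm) (p : ℕ) (P : Pt) : ZMod p := ((F.X.at P * F.Y.at P : ℤ) : ZMod p)

/-- the family with the forms exchanged -/
def Fm.sw (F : Fm) : Fm := ⟨F.Y, F.X⟩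

theorem Fm.sw_cls (F : Fm) (p : ℕ) (P : Pt) : F.sw.cls p P = F.cls p P := by
  unfold Fm.cls Fm.sw; rw [mul_comm]

theorem Fm.sw_det (F : Fm) : F.sw.det = -F.det := by
  unfold Fm.det Fm.sw; ring

/-- integer divisors -/
def idiv (N : ℤ) : Finset ℤ :=
  (N.natAbs.divisors.image fun d : ℕ => (d : ℤ)) ∪ (N.natAbs.divisors.image fun d : ℕ => -(d : ℤ))

theorem mem_idiv {N d : ℤ} (hN : N ≠ 0) (h : d ∣ N) : d ∈ idiv N := by
  unfold idiv
  rw [mem_union, mem_image, mem_image]
  have h1 : d.natAbs ∈ N.natAbs.divisors :=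
    Nat.mem_divisors.2 ⟨Int.natAbs_dvd_natAbs.2 h, Int.natAbs_ne_zero.2 hN⟩
  rcases Int.natAbs_eq d with h2 | h2
  · exact Or.inl ⟨_, h1, h2.symm⟩
  · exact Or.inr ⟨_, h1, h2.symm⟩

theorem card_idiv_le {N : ℤ} {T : ℕ} (h : N.natAbs.divisors.card ≤ T) : (idiv N).card ≤ 2 * T := by
  unfold idiv
  refine (card_union_le _ _).trans ?_
  have h1 := card_image_le (s := N.natAbs.divisors) (f := fun d : ℕ => (d : ℤ))
  have h2 := card_image_le (s := N.natAbs.divisors) (f := fun d : ℕ => -(d : ℤ))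
  omega

/-- the bound for the number of the bad points -/
def bB (w T : ℕ) : ℕ := (2 * w + 1) ^ 2 + (36 * w + 1) * ((2 * T) * (2 * T))

/-- **The number of bad points.** -/
theorem bad_le {F : Fm} {p n w T : ℕ} [hp : Fact p.Prime] (hdet : F.det ≠ 0)
    (hX : F.X.Small n) (hY : F.Y.Small n) (hw : n ≤ w * p)
    (hT : ∀ m : ℕ, m ≤ 12 * n → m.divisors.card ≤ T)
    {C V : Finset Pt} (hC : ∀ P ∈ C, InSq n P) (hC0 : ∀ P ∈ C, F.cls p P ≠ 0)
    (hV : ∀ v ∈ V, InSq n v) (hVC : ∀ v ∈ V, v ∉ C) {j0 : ℤ} (hVj : ∀ v ∈ V, F.X.at v = j0 * p)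
    {P : Pt} (hP : P ∈ C) :
    (V.filter fun v => ∃ Q ∈ C, Q ≠ P ∧ F.cls p Q = F.cls p P ∧ col v P Q).card ≤ bB w T := by
  classical
  have hp0 : (0 : ℤ) < p := by exact_mod_cast hp.out.pos
  have hn : 0 < n := by
    have := hC P hP
    unfold InSq at this
    omega
  -- the class of P is not zero
  have hXP : ¬ (p : ℤ) ∣ F.X.at P := fun h => hC0 P hP (by
    unfold Fm.cls
    rw [ZMod.intCast_zmod_eq_zero_iff_dvd]
    exact Dvd.dvd.mul_right h _)
  have hYP : ¬ (p : ℤ) ∣ F.Y.at P := fun h => hC0 P hP (by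
    unfold Fm.cls
    rw [ZMod.intCast_zmod_eq_zero_iff_dvd]
    exact Dvd.dvd.mul_left h _)
  -- the directions
  let D1 : Finset Pt := Icc (-(w : ℤ)) w ×ˢ Icc (-(w : ℤ)) w
  let N1 : ℤ := F.X.at P - j0 * p
  let D2 : Finset (ℤ × ℤ × ℤ) := (Icc (-(18 * w : ℤ)) (18 * w)).biUnion fun j =>
    (idiv N1 ×ˢ idiv (j * p - F.Y.at P)).image fun x => (j, x)
  -- every bad point has a code
  have hcode : ∀ v ∈ V.filter (fun v => ∃ Q ∈ C, Q ≠ P ∧ F.cls p Q = F.cls p P ∧ col v P Q),
      (∃ d ∈ D1, ∃ t1 : ℤ, IsCoprime d.1 d.2 ∧ P = (v.1 + t1 * d.1, v.2 + t1 * d.2)) ∨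
      (∃ (d : Pt) (t1 : ℤ), IsCoprime d.1 d.2 ∧ P = (v.1 + t1 * d.1, v.2 + t1 * d.2) ∧
        N1.natAbs ≤ 12 * n ∧ F.X.lin d ∈ idiv N1 ∧ ∃ j ∈ Icc (-(18 * w : ℤ)) (18 * w),
          (j * p - F.Y.at P).natAbs ≤ 12 * n ∧ F.Y.lin d ∈ idiv (j * p - F.Y.at P)) := by
    intro v hv
    rw [mem_filter] at hv
    obtain ⟨hvV, Q, hQ, hQP, hcls, hcol⟩ := hv
    have hvP : v ≠ P := fun h => hVC v hvV (h ▸ hP)
    obtain ⟨g, d, t2, hg, hd, hPd, hQd⟩ := exists_line hvP hcol
    have eX1 := F.X.at_add v d g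
    have eX2 := F.X.at_add v d t2
    have eY1 := F.Y.at_add v d g
    have eY2 := F.Y.at_add v d t2
    rw [← hPd] at eX1 eY1
    rw [← hQd] at eX2 eY2
    have hXv := hVj v hvV
    -- the congruence
    have hdvd : (p : ℤ) ∣ (g * F.X.lin d) * (F.Y.at v + g * F.Y.lin d) -
        (t2 * F.X.lin d) * (F.Y.at v + t2 * F.Y.lin d) := by
      have h1 : (p : ℤ) ∣ F.X.at P * F.Y.at P - F.X.at Q * F.Y.at Q := by
        rw [← ZMod.intCast_zmod_eq_zero_iff_dvd]
        unfold Fm.cls at hcls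
        push_cast at hcls ⊢
        rw [hcls, sub_self]
      rw [eX1, eX2, eY1, eY2, hXv] at h1
      have h2 : (j0 * p + g * F.X.lin d) * (F.Y.at v + g * F.Y.lin d) -
          (j0 * p + t2 * F.X.lin d) * (F.Y.at v + t2 * F.Y.lin d) =
          ((g * F.X.lin d) * (F.Y.at v + g * F.Y.lin d) -
          (t2 * F.X.lin d) * (F.Y.at v + t2 * F.Y.lin d)) +
          p * (j0 * ((F.Y.at v + g * F.Y.lin d) - (F.Y.at v + t2 * F.Y.lin d))) := by ring
      rw [h2] at h1
      exact (Int.dvd_add_left (dvd_mul_right _ _)).1 h1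
    have h3 : (g * F.X.lin d) * (F.Y.at v + g * F.Y.lin d) -
        (t2 * F.X.lin d) * (F.Y.at v + t2 * F.Y.lin d) =
        F.X.lin d * ((g - t2) * (F.Y.at P + t2 * F.Y.lin d)) := by
      rw [eY1]; ring
    rw [h3] at hdvd
    have hpp : Prime (p : ℤ) := Nat.prime_iff_prime_int.1 hp.out
    have hlam : ¬ (p : ℤ) ∣ F.X.lin d := by
      intro h
      apply hXP
      rw [eX1, hXv]
      exact dvd_add (dvd_mul_left _ _) (Dvd.dvd.mul_left h _)
    have hgt : (g : ℤ) ≠ t2 := by
      intro h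
      apply hQP
      rw [hQd, hPd, h]
    have hvS := hV v hvV
    have hPS := hC P hP
    have hQS := hC Q hQ
    rcases hpp.dvd_or_dvd ((hpp.dvd_or_dvd hdvd).resolve_left hlam) with h4 | h4
    · -- small directions
      left
      refine ⟨d, ?_, g, hd, hPd⟩
      have h5 : (p : ℤ) ≤ |(g : ℤ) - t2| := Int.le_of_dvd (abs_pos.2 (sub_ne_zero.2 hgt))
        ((dvd_abs _ _).2 h4)
      have h6 : |((g : ℤ) - t2) * d.1| < n := by
        have : ((g : ℤ) - t2) * d.1 = P.1 - Q.1 := by rw [hPd, hQd]; ring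
        rw [this, abs_lt]
        have := hPS.1; have := hPS.2.1; have := hQS.1; have := hQS.2.1
        constructor <;> linarith
      have h7 : |((g : ℤ) - t2) * d.2| < n := by
        have : ((g : ℤ) - t2) * d.2 = P.2 - Q.2 := by rw [hPd, hQd]; ring
        rw [this, abs_lt]
        have := hPS.2.2.1; have := hPS.2.2.2; have := hQS.2.2.1; have := hQS.2.2.2
        constructor <;> linarith
      have hw' : (n : ℤ) ≤ w * p := by exact_mod_cast hw
      rw [abs_mul] at h6 h7
      have h8 : |d.1| ≤ w := by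
        by_contra hc
        push Not at hc
        nlinarith [abs_nonneg d.1]
      have h9 : |d.2| ≤ w := by
        by_contra hc
        push Not at hc
        nlinarith [abs_nonneg d.2]
      exact mem_product.2 ⟨mem_Icc.2 (abs_le.1 h8), mem_Icc.2 (abs_le.1 h9)⟩
    · right
      obtain ⟨j, hj⟩ := h4
      refine ⟨d, g, hd, hPd, ?_, ?_, j, ?_, ?_, ?_⟩
      · have h5 := hX.abs_le hPS
        have h6 := hX.abs_le hvS
        have h7 : N1 = F.X.at P - F.X.at v := by rw [hXv]
        have h8 : |N1| ≤ 12 * n := by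
          rw [h7]
          rw [abs_le] at *
          constructor <;> linarith [h5.1, h5.2, h6.1, h6.2]
        rw [Int.abs_eq_natAbs] at h8
        exact_mod_cast h8
      · refine mem_idiv ?_ ?_
        · intro h5
          apply hXP
          have h6 : F.X.at P = j0 * p := by
            change F.X.at P - j0 * p = 0 at h5
            linarith
          rw [h6]; exact dvd_mul_left _ _
        · change F.X.lin d ∣ F.X.at P - j0 * p
          rw [eX1, hXv]
          exact ⟨g, by ring⟩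
      · have h5 := hY.abs_le hPS
        have h6 := hY.abs_le hQS
        have h7 := hY.abs_le hvS
        have h8 : (p : ℤ) * j = F.Y.at P + (F.Y.at Q - F.Y.at v) := by
          rw [← hj, eY2]; ring
        have h9 : |(p : ℤ) * j| ≤ 18 * n := by
          rw [h8]
          rw [abs_le] at *
          constructor <;> linarith [h5.1, h5.2, h6.1, h6.2, h7.1, h7.2]
        have hw' : (n : ℤ) ≤ w * p := by exact_mod_cast hw
        have h10 : |j| ≤ 18 * w := by
          rw [abs_mul, abs_of_pos hp0] at h9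
          by_contra hc
          push Not at hc
          nlinarith [abs_nonneg j]
        exact mem_Icc.2 (abs_le.1 h10)
      · have h6 := hY.abs_le hQS
        have h7 := hY.abs_le hvS
        have h8 : j * p - F.Y.at P = F.Y.at Q - F.Y.at v := by
          rw [eY2]; linarith
        have h9 : |j * p - F.Y.at P| ≤ 12 * n := by
          rw [h8]
          rw [abs_le] at *
          constructor <;> linarith [h6.1, h6.2, h7.1, h7.2]
        rw [Int.abs_eq_natAbs] at h9
        exact_mod_cast h9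
      · refine mem_idiv ?_ ?_
        · intro h5
          apply hYP
          have h6 : F.Y.at P = j * p := by linarith
          rw [h6]; exact dvd_mul_left _ _
        · exact ⟨t2, by linarith⟩
  -- the point is determined by the direction
  have huniq : ∀ v ∈ V, ∀ v' ∈ V, ∀ (d : Pt) (t t' : ℤ),
      P = (v.1 + t * d.1, v.2 + t * d.2) → P = (v'.1 + t' * d.1, v'.2 + t' * d.2) → v = v' := by
    intro v hv v' hv' d t t' h1 h2
    have e1 := F.X.at_add v d t
    have e2 := F.X.at_add v' d t'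
    rw [← h1, hVj v hv] at e1
    rw [← h2, hVj v' hv'] at e2
    have h3 : (t - t') * F.X.lin d = 0 := by linarith
    have h4 : F.X.lin d ≠ 0 := by
      intro h4
      apply hXP
      rw [e1, h4, mul_zero, add_zero]
      exact dvd_mul_left _ _
    have h5 : t = t' := by
      have := (mul_eq_zero.1 h3).resolve_right h4
      linarith
    subst h5
    have h6 := congrArg Prod.fst (h1.symm.trans h2)
    have h7 := congrArg Prod.snd (h1.symm.trans h2)
    simp only at h6 h7
    exact Prod.ext (by linarith) (by linarith)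
  -- counting
  let V1 := V.filter fun v => ∃ d ∈ D1, ∃ t1 : ℤ, IsCoprime d.1 d.2 ∧
    P = (v.1 + t1 * d.1, v.2 + t1 * d.2)
  let V2 := V.filter fun v => ∃ (d : Pt) (t1 : ℤ), IsCoprime d.1 d.2 ∧
    P = (v.1 + t1 * d.1, v.2 + t1 * d.2) ∧
        N1.natAbs ≤ 12 * n ∧ F.X.lin d ∈ idiv N1 ∧ ∃ j ∈ Icc (-(18 * w : ℤ)) (18 * w),
          (j * p - F.Y.at P).natAbs ≤ 12 * n ∧ F.Y.lin d ∈ idiv (j * p - F.Y.at P)
  have hV1 : V1.card ≤ (2 * w + 1) ^ 2 := by
    have h1 : V1 ⊆ D1.biUnion fun d => V.filter fun v => ∃ t1 : ℤ,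
        P = (v.1 + t1 * d.1, v.2 + t1 * d.2) := by
      intro v hv
      obtain ⟨hv1, d, hd, t1, -, h2⟩ := mem_filter.1 hv
      rw [mem_biUnion]
      exact ⟨d, hd, mem_filter.2 ⟨hv1, t1, h2⟩⟩
    refine (card_le_card h1).trans ((card_biUnion_le_card_mul _ _ 1 fun d _ => ?_).trans ?_)
    · rw [card_le_one]
      intro v hv v' hv'
      obtain ⟨hv1, t, h2⟩ := mem_filter.1 hv
      obtain ⟨hv1', t', h2'⟩ := mem_filter.1 hv'
      exact huniq v hv1 v' hv1' d t t' h2 h2'
    · rw [mul_one]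
      change (Icc (-(w : ℤ)) w ×ˢ Icc (-(w : ℤ)) w).card ≤ _
      rw [card_product, Int.card_Icc, sq]
      exact Nat.mul_le_mul (by omega) (by omega)
  have hV2 : V2.card ≤ (36 * w + 1) * ((2 * T) * (2 * T)) := by
    by_cases hN1 : N1.natAbs ≤ 12 * n
    · have h1 : V2 ⊆ ((Icc (-(18 * w : ℤ)) (18 * w)).filter fun j =>
          (j * p - F.Y.at P).natAbs ≤ 12 * n).biUnion fun j =>
          (idiv N1 ×ˢ idiv (j * p - F.Y.at P)).biUnion fun x => V.filter fun v =>
            ∃ (d : Pt) (t1 : ℤ), P = (v.1 + t1 * d.1, v.2 + t1 * d.2) ∧ F.X.lin d = x.1 ∧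
              F.Y.lin d = x.2 := by
        intro v hv
        obtain ⟨hv1, d, t1, -, h2, -, h3, j, hj, h4, h5⟩ := mem_filter.1 hv
        rw [mem_biUnion]
        refine ⟨j, mem_filter.2 ⟨hj, h4⟩, ?_⟩
        rw [mem_biUnion]
        exact ⟨(F.X.lin d, F.Y.lin d), mem_product.2 ⟨h3, h5⟩,
          mem_filter.2 ⟨hv1, d, t1, h2, rfl, rfl⟩⟩
      refine (card_le_card h1).trans ((card_biUnion_le_card_mul _ _ ((2 * T) * (2 * T))
        fun j hj => ?_).trans ?_)
      · refine (card_biUnion_le_card_mul _ _ 1 fun x _ => ?_).trans ?_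
        · rw [card_le_one]
          intro v hv v' hv'
          obtain ⟨hv1, d, t, h2, h3, h4⟩ := mem_filter.1 hv
          obtain ⟨hv1', d', t', h2', h3', h4'⟩ := mem_filter.1 hv'
          have e1 : F.X.lin d = F.X.lin d' := h3.trans h3'.symm
          have e2 : F.Y.lin d = F.Y.lin d' := h4.trans h4'.symm
          unfold Lin.lin at e1 e2
          have e3 : F.det * (d.1 - d'.1) = 0 := by
            unfold Fm.det
            linear_combination F.Y.m * e1 - F.X.m * e2
          have e4 : F.det * (d.2 - d'.2) = 0 := by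
            unfold Fm.det
            linear_combination F.X.l * e2 - F.Y.l * e1
          have e5 := (mul_eq_zero.1 e3).resolve_left hdet
          have e6 := (mul_eq_zero.1 e4).resolve_left hdet
          have e7 : d = d' := Prod.ext (by linarith) (by linarith)
          subst e7
          exact huniq v hv1 v' hv1' d t t' h2 h2'
        · rw [mul_one, card_product]
          exact Nat.mul_le_mul (card_idiv_le (hT _ hN1))
            (card_idiv_le (hT _ (mem_filter.1 hj).2))
      · refine Nat.mul_le_mul_right _ ((card_filter_le _ _).trans ?_)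
        rw [Int.card_Icc]
        omega
    · have h1 : V2 = ∅ := by
        rw [eq_empty_iff_forall_notMem]
        intro v hv
        obtain ⟨-, d, t1, -, -, h2, -⟩ := mem_filter.1 hv
        exact hN1 h2
      rw [h1, card_empty]
      exact Nat.zero_le _
  refine (card_le_card (t := V1 ∪ V2) ?_).trans ((card_union_le _ _).trans (add_le_add hV1 hV2))
  intro v hv
  rw [mem_union]
  have hvV := (mem_filter.1 hv).1
  rcases hcode v hv with h | h
  · exact Or.inl (mem_filter.2 ⟨hvV, h⟩)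
  · exact Or.inr (mem_filter.2 ⟨hvV, h⟩)

end Pool.Agent.Helper7.GPC
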