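import Pool.Agent.Helper7.GPC.Fam

/-!
# The number of classes for a family
-/

open Finset

namespace Pool.Agent.Helper7.GPC

theorem exists_half {β : Type*} (W : Finset Pt) (a : Pt → β)
    (h : ∀ P ∈ W, ∀ Q ∈ W, ∀ R ∈ W, P ≠ Q → P ≠ R → Q ≠ R → a P = a Q → a P = a R → False) :
    ∃ W1 ⊆ W, Set.InjOn a W1 ∧ ∀ P ∈ W, P ∉ W1 → ∀ Q ∈ W, Q ∉ W1 → a P = a Q → P = Q := by
  classical
  have h1 : ∀ x : W.image a, ∃ P ∈ W, a P = x.1 := fun x => mem_image.1 x.2
  choose s hs1 hs2 using h1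
  refine ⟨univ.image s, ?_, ?_, ?_⟩
  · intro P hP
    obtain ⟨x, -, rfl⟩ := mem_image.1 hP
    exact hs1 x
  · intro P hP Q hQ hPQ
    obtain ⟨x, -, rfl⟩ := mem_image.1 hP
    obtain ⟨y, -, rfl⟩ := mem_image.1 hQ
    rw [hs2, hs2] at hPQ
    rw [Subtype.ext hPQ]
  · intro P hP hP1 Q hQ hQ1 hPQ
    by_contra hne
    let x : W.image a := ⟨a P, mem_image_of_mem a hP⟩
    refine h P hP Q hQ (s x) (hs1 x) hne ?_ ?_ hPQ (hs2 x).symm
    · rintro h2
      exact hP1 (mem_image.2 ⟨x, mem_univ _, h2.symm⟩)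
    · rintro h2
      exact hQ1 (mem_image.2 ⟨x, mem_univ _, h2.symm⟩)

/-- **The number of classes for a family.** -/
theorem family {F : Fm} {p n w T M N : ℕ} [hp : Fact p.Prime] (hdet : F.det ≠ 0)
    (hX : F.X.Small n) (hY : F.Y.Small n) (hw : n ≤ w * p)
    (hT : ∀ m : ℕ, m ≤ 12 * n → m.divisors.card ≤ T)
    (hM : ∀ C : Finset Pt, (∀ P ∈ C, InSq n P) → (trip C).card ≤ M) (hN : 0 < N)
    {K : Finset Pt} (hK : ∀ P ∈ K, InSq n P)
    (hgp : ∀ κ : ZMod p, κ ≠ 0 → GP {P | P ∈ K ∧ F.cls p P = κ})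
    (hisoX : ∀ P ∈ K, ∀ Q ∈ K, ∀ R ∈ K, P ≠ Q → P ≠ R → Q ≠ R → (p : ℤ) ∣ F.X.at P →
      F.X.at Q = F.X.at P → F.X.at R = F.X.at P → (p : ℤ) ∣ F.Y.at Q - F.Y.at P →
      (p : ℤ) ∣ F.Y.at R - F.Y.at P → False)
    (hisoY : ∀ P ∈ K, ∀ Q ∈ K, ∀ R ∈ K, P ≠ Q → P ≠ R → Q ≠ R → (p : ℤ) ∣ F.Y.at P →
      F.Y.at Q = F.Y.at P → F.Y.at R = F.Y.at P → (p : ℤ) ∣ F.X.at Q - F.X.at P →
      (p : ℤ) ∣ F.X.at R - F.X.at P → False) :
    Cov (K : Set Pt) (p + (4 * (12 * w + 1)) * cost p (bB w T) M N (4 * (12 * w + 1)) +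
      (12 * w + 1) ^ 2) := by
  classical
  have hp0 : (0 : ℤ) < p := by exact_mod_cast hp.out.pos
  have hw' : (n : ℤ) ≤ w * p := by exact_mod_cast hw
  have hcls0 : ∀ P, F.cls p P = 0 ↔ (p : ℤ) ∣ F.X.at P ∨ (p : ℤ) ∣ F.Y.at P := by
    intro P
    unfold Fm.cls
    rw [ZMod.intCast_zmod_eq_zero_iff_dvd]
    exact (Nat.prime_iff_prime_int.1 hp.out).dvd_mul
  let C : Finset Pt := K.filter fun P => F.cls p P ≠ 0
  have hC : ∀ P ∈ C, InSq n P := fun P hP => hK P (mem_filter.1 hP).1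
  have hC0 : ∀ P ∈ C, F.cls p P ≠ 0 := fun P hP => (mem_filter.1 hP).2
  let Fq : ℕ → Fm := fun q => if q % 2 = 0 then F else F.sw
  have hFdet : ∀ q, (Fq q).det ≠ 0 := by
    intro q
    change (if q % 2 = 0 then F else F.sw).det ≠ 0
    split_ifs
    · exact hdet
    · rw [F.sw_det]; exact neg_ne_zero.2 hdet
  have hFX : ∀ q, (Fq q).X.Small n := by
    intro q
    change (if q % 2 = 0 then F else F.sw).X.Small n
    split_ifs
    · exact hX
    · exact hY
  have hFY : ∀ q, (Fq q).Y.Small n := by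
    intro q
    change (if q % 2 = 0 then F else F.sw).Y.Small n
    split_ifs
    · exact hY
    · exact hX
  have hFcls : ∀ q P, (Fq q).cls p P = F.cls p P := by
    intro q P
    change (if q % 2 = 0 then F else F.sw).cls p P = _
    split_ifs
    · rfl
    · exact F.sw_cls p P
  let jq : ℕ → ℤ := fun q => ((q / 2 : ℕ) : ℤ) - 6 * w
  let Wq : ℕ → Finset Pt := fun q => K.filter fun P =>
    (Fq q).X.at P = jq q * p ∧ ¬ (p : ℤ) ∣ (Fq q).Y.at P
  have hWq : ∀ q P, P ∈ Wq q ↔ P ∈ K ∧ (Fq q).X.at P = jq q * p ∧ ¬ (p : ℤ) ∣ (Fq q).Y.at P :=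
    fun q P => mem_filter
  have hWC : ∀ q, ∀ P ∈ Wq q, P ∉ C := by
    intro q P hP hPC
    rw [hWq] at hP
    apply hC0 P hPC
    have h1 : (Fq q).cls p P = 0 := by
      unfold Fm.cls
      rw [ZMod.intCast_zmod_eq_zero_iff_dvd, hP.2.1]
      exact Dvd.dvd.mul_right (dvd_mul_left _ _) _
    rw [← h1, hFcls]
  let aq : ℕ → Pt → ZMod p := fun q P => (((Fq q).Y.at P : ℤ) : ZMod p)
  have hhalf : ∀ q, ∃ W1 ⊆ Wq q, Set.InjOn (aq q) W1 ∧
      ∀ P ∈ Wq q, P ∉ W1 → ∀ Q ∈ Wq q, Q ∉ W1 → aq q P = aq q Q → P = Q := by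
    intro q
    refine exists_half _ _ ?_
    intro P hP Q hQ R hR hPQ hPR hQR h1 h2
    rw [hWq] at hP hQ hR
    have h1' : (p : ℤ) ∣ (Fq q).Y.at Q - (Fq q).Y.at P := (ZMod.intCast_eq_intCast_iff_dvd_sub _ _ _).1 h1
    have h2' : (p : ℤ) ∣ (Fq q).Y.at R - (Fq q).Y.at P := (ZMod.intCast_eq_intCast_iff_dvd_sub _ _ _).1 h2
    have h3 : (p : ℤ) ∣ (Fq q).X.at P := by rw [hP.2.1]; exact dvd_mul_left _ _
    have h4 : (Fq q).X.at Q = (Fq q).X.at P := hQ.2.1.trans hP.2.1.symm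
    have h5 : (Fq q).X.at R = (Fq q).X.at P := hR.2.1.trans hP.2.1.symm
    by_cases hq : q % 2 = 0
    · have hF : Fq q = F := if_pos hq
      rw [hF] at h1' h2' h3 h4 h5
      exact hisoX P hP.1 Q hQ.1 R hR.1 hPQ hPR hQR h3 h4 h5 h1' h2'
    · have hF : Fq q = F.sw := if_neg hq
      rw [hF] at h1' h2' h3 h4 h5
      exact hisoY P hP.1 Q hQ.1 R hR.1 hPQ hPR hQR h3 h4 h5 h1' h2'
  choose W1 hW1 hW1inj hW2inj using hhalf
  let V : ℕ → Finset Pt := fun s => if s % 2 = 0 then W1 (s / 2) else Wq (s / 2) \ W1 (s / 2)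
  have hVW : ∀ s, ∀ v ∈ V s, v ∈ Wq (s / 2) := by
    intro s v hv
    change v ∈ (if s % 2 = 0 then W1 (s / 2) else Wq (s / 2) \ W1 (s / 2)) at hv
    split_ifs at hv
    · exact hW1 _ hv
    · exact (mem_sdiff.1 hv).1
  -- the line of a point determines `q`
  have hline : ∀ q q' P, P ∈ Wq q → P ∈ Wq q' → q = q' := by
    intro q q' P h1 h2
    rw [hWq] at h1 h2
    by_cases hq : q % 2 = 0 <;> by_cases hq' : q' % 2 = 0
    · have hF : Fq q = F := if_pos hq
      have hF' : Fq q' = F := if_pos hq'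
      rw [hF] at h1
      rw [hF'] at h2
      have h3 := h1.2.1.symm.trans h2.2.1
      have h4 : jq q = jq q' := mul_right_cancel₀ hp0.ne' h3
      change ((q / 2 : ℕ) : ℤ) - 6 * w = ((q' / 2 : ℕ) : ℤ) - 6 * w at h4
      omega
    · have hF : Fq q = F := if_pos hq
      have hF' : Fq q' = F.sw := if_neg hq'
      rw [hF] at h1
      rw [hF'] at h2
      exact absurd (show (p : ℤ) ∣ F.Y.at P by
        have : F.Y.at P = jq q' * p := h2.2.1
        rw [this]; exact dvd_mul_left _ _) h1.2.2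
    · have hF : Fq q = F.sw := if_neg hq
      have hF' : Fq q' = F := if_pos hq'
      rw [hF] at h1
      rw [hF'] at h2
      exact absurd (show (p : ℤ) ∣ F.Y.at P by
        have : F.Y.at P = jq q * p := h1.2.1
        rw [this]; exact dvd_mul_left _ _) h2.2.2
    · have hF : Fq q = F.sw := if_neg hq
      have hF' : Fq q' = F.sw := if_neg hq'
      rw [hF] at h1
      rw [hF'] at h2
      have h3 := h1.2.1.symm.trans h2.2.1
      have h4 : jq q = jq q' := mul_right_cancel₀ hp0.ne' h3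
      change ((q / 2 : ℕ) : ℤ) - 6 * w = ((q' / 2 : ℕ) : ℤ) - 6 * w at h4
      omega
  -- a point of another piece on the line of a piece
  have hsame : ∀ s t, ∀ Q ∈ V t, ∀ v1 ∈ V s, ∀ v2 ∈ V s, v1 ≠ v2 → col v1 v2 Q → t / 2 = s / 2 := by
    intro s t Q hQ v1 hv1 v2 hv2 hne hcol
    have e1 := (hWq _ _).1 (hVW s v1 hv1)
    have e2 := (hWq _ _).1 (hVW s v2 hv2)
    have e3 := (hWq _ _).1 (hVW t Q hQ)
    have e4 := (Fq (s / 2)).X.at_col hne (e1.2.1.trans e2.2.1.symm) hcol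
    rw [e1.2.1] at e4
    refine hline _ _ Q (hVW t Q hQ) ((hWq _ _).2 ⟨e3.1, e4, fun h6 => ?_⟩)
    -- the other form is not divisible
    have h7 : (p : ℤ) ∣ (Fq (s / 2)).X.at Q := by rw [e4]; exact dvd_mul_left _ _
    have h8 : (p : ℤ) ∣ F.X.at Q ∧ (p : ℤ) ∣ F.Y.at Q := by
      by_cases hq : s / 2 % 2 = 0
      · have hF : Fq (s / 2) = F := if_pos hq
        rw [hF] at h6 h7
        exact ⟨h7, h6⟩
      · have hF : Fq (s / 2) = F.sw := if_neg hq
        rw [hF] at h6 h7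
        exact ⟨h6, h7⟩
    have h9 := e3.2.2
    by_cases hq : t / 2 % 2 = 0
    · have hF : Fq (t / 2) = F := if_pos hq
      rw [hF] at h9
      exact h9 h8.2
    · have hF : Fq (t / 2) = F.sw := if_neg hq
      rw [hF] at h9
      exact h9 h8.1
  have hyp : InsHyp C (F.cls p) V (fun s => aq (s / 2)) (bB w T) := by
    refine ⟨?_, ?_, ?_, ?_, ?_, ?_, ?_⟩
    · intro κ
      by_cases hκ : κ = 0
      · rintro P ⟨hP, hP1⟩
        exact absurd (hP1.trans hκ) (hC0 P hP)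
      · exact (hgp κ hκ).mono fun P hP => ⟨(mem_filter.1 hP.1).1, hP.2⟩
    · intro s v hv
      exact hWC _ v (hVW s v hv)
    · intro s t hst v hv hvt
      have h1 := hline _ _ v (hVW s v hv) (hVW t v hvt)
      change v ∈ (if s % 2 = 0 then W1 (s / 2) else Wq (s / 2) \ W1 (s / 2)) at hv
      change v ∈ (if t % 2 = 0 then W1 (t / 2) else Wq (t / 2) \ W1 (t / 2)) at hvt
      rw [← h1] at hvt
      split_ifs at hv hvt
      · omega
      · exact (mem_sdiff.1 hvt).2 hv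
      · exact (mem_sdiff.1 hv).2 hvt
      · omega
    · intro s P hP Q hQ h
      have hP' : P ∈ (if s % 2 = 0 then W1 (s / 2) else Wq (s / 2) \ W1 (s / 2)) := hP
      have hQ' : Q ∈ (if s % 2 = 0 then W1 (s / 2) else Wq (s / 2) \ W1 (s / 2)) := hQ
      split_ifs at hP' hQ'
      · exact hW1inj _ hP' hQ' h
      · exact hW2inj _ P (mem_sdiff.1 hP').1 (mem_sdiff.1 hP').2 Q (mem_sdiff.1 hQ').1
          (mem_sdiff.1 hQ').2 h
    · intro s P hP
      have h1 := bad_le (F := Fq (s / 2)) (p := p) (n := n) (w := w) (T := T) (hFdet _) (hFX _)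
        (hFY _) hw hT (C := C) (V := V s) hC (fun P hP => by rw [hFcls]; exact hC0 P hP)
        (fun v hv => hK v ((hWq _ _).1 (hVW s v hv)).1) (fun v hv => hWC _ v (hVW s v hv))
        (j0 := jq (s / 2)) (fun v hv => ((hWq _ _).1 (hVW s v hv)).2.1) hP
      refine le_trans (card_le_card ?_) h1
      intro v hv
      rw [mem_filter] at hv ⊢
      obtain ⟨h2, Q, h3, h4, h5, h6⟩ := hv
      exact ⟨h2, Q, h3, h4, by rw [hFcls, hFcls]; exact h5, h6⟩
    · intro s P hP v1 hv1 v2 hv2 hne hcol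
      have e1 := (hWq _ _).1 (hVW s v1 hv1)
      have e2 := (hWq _ _).1 (hVW s v2 hv2)
      have e4 := (Fq (s / 2)).X.at_col hne (e1.2.1.trans e2.2.1.symm) hcol
      apply hC0 P hP
      rw [← hFcls (s / 2)]
      unfold Fm.cls
      rw [ZMod.intCast_zmod_eq_zero_iff_dvd, e4, e1.2.1]
      exact Dvd.dvd.mul_right (dvd_mul_left _ _) _
    · rintro s t1 t2 h1 h2 hne Q1 hQ1 Q2 hQ2 v1 hv1 v2 hv2 hv ⟨hc1, hc2⟩
      have e1 := hsame s t1 Q1 hQ1 v1 hv1 v2 hv2 hv hc1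
      have e2 := hsame s t2 Q2 hQ2 v1 hv1 v2 hv2 hv hc2
      omega
  -- the double points
  let Z : Finset Pt := K.filter fun P => (p : ℤ) ∣ F.X.at P ∧ (p : ℤ) ∣ F.Y.at P
  have hjb : ∀ (L : Lin) (P : Pt) (j : ℤ), L.Small n → InSq n P → L.at P = j * p →
      |j| ≤ 6 * w := by
    intro L P j hL hP h
    have h1 := hL.abs_le hP
    rw [h, abs_mul, abs_of_pos hp0] at h1
    by_contra hc
    push Not at hc
    nlinarith [abs_nonneg j]
  have hZ : Z.card ≤ (12 * w + 1) ^ 2 := by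
    have h1 : (Icc (-(6 * w : ℤ)) (6 * w) ×ˢ Icc (-(6 * w : ℤ)) (6 * w)).card =
        (12 * w + 1) ^ 2 := by
      rw [card_product, Int.card_Icc, sq]
      congr 1 <;> omega
    rw [← h1]
    refine card_le_card_of_injOn (fun P => (F.X.at P / p, F.Y.at P / p)) ?_ ?_
    · intro P hP
      obtain ⟨hPK, ⟨j, hj⟩, ⟨j', hj'⟩⟩ := mem_filter.1 hP
      rw [mul_comm] at hj hj'
      have e1 := hjb F.X P j hX (hK P hPK) hj
      have e2 := hjb F.Y P j' hY (hK P hPK) hj'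
      have e3 : F.X.at P / p = j := by rw [hj, Int.mul_ediv_cancel _ hp0.ne']
      have e4 : F.Y.at P / p = j' := by rw [hj', Int.mul_ediv_cancel _ hp0.ne']
      rw [mem_coe, mem_product]
      simp only [e3, e4]
      exact ⟨mem_Icc.2 (abs_le.1 e1), mem_Icc.2 (abs_le.1 e2)⟩
    · intro P hP Q hQ h
      obtain ⟨hPK, ⟨j, hj⟩, ⟨j', hj'⟩⟩ := mem_filter.1 hP
      obtain ⟨hQK, ⟨i, hi⟩, ⟨i', hi'⟩⟩ := mem_filter.1 hQ
      rw [mul_comm] at hj hj' hi hi'
      have h2 := congrArg Prod.fst h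
      have h3 := congrArg Prod.snd h
      simp only at h2 h3
      rw [hj, hi, Int.mul_ediv_cancel _ hp0.ne', Int.mul_ediv_cancel _ hp0.ne'] at h2
      rw [hj', hi', Int.mul_ediv_cancel _ hp0.ne', Int.mul_ediv_cancel _ hp0.ne'] at h3
      have e1 : F.X.at P = F.X.at Q := by rw [hj, hi, h2]
      have e2 : F.Y.at P = F.Y.at Q := by rw [hj', hi', h3]
      unfold Lin.at at e1 e2
      have e3 : F.det * (P.1 - Q.1) = 0 := by
        unfold Fm.det
        linear_combination F.Y.m * e1 - F.X.m * e2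
      have e4 : F.det * (P.2 - Q.2) = 0 := by
        unfold Fm.det
        linear_combination F.X.l * e2 - F.Y.l * e1
      have e5 := (mul_eq_zero.1 e3).resolve_left hdet
      have e6 := (mul_eq_zero.1 e4).resolve_left hdet
      exact Prod.ext (by linarith) (by linarith)
  refine ((insertion hyp (hM C hC) hN (4 * (12 * w + 1))).union (Cov.card Z)).mono ?_
    (Nat.add_le_add_left hZ _)
  intro P hP
  have hPK : P ∈ K := hP
  by_cases hPC : F.cls p P ≠ 0
  · exact Or.inl (Or.inl (mem_filter.2 ⟨hPK, hPC⟩))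
  · push Not at hPC
    by_cases hZP : (p : ℤ) ∣ F.X.at P ∧ (p : ℤ) ∣ F.Y.at P
    · exact Or.inr (mem_filter.2 ⟨hPK, hZP⟩)
    · left; right
      -- find the piece
      obtain ⟨q, hq, hPq⟩ : ∃ q < 2 * (12 * w + 1), P ∈ Wq q := by
        rcases (hcls0 P).1 hPC with h1 | h1
        · obtain ⟨j, hj⟩ := h1
          rw [mul_comm] at hj
          have e1 := abs_le.1 (hjb F.X P j hX (hK P hPK) hj)
          refine ⟨2 * (j + 6 * w).toNat, by omega, (hWq _ _).2 ⟨hPK, ?_, ?_⟩⟩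
          · have hF : Fq (2 * (j + 6 * w).toNat) = F := if_pos (by omega)
            rw [hF, hj]
            congr 1
            change j = ((2 * (j + 6 * w).toNat / 2 : ℕ) : ℤ) - 6 * w
            omega
          · have hF : Fq (2 * (j + 6 * w).toNat) = F := if_pos (by omega)
            rw [hF]
            exact fun h => hZP ⟨by rw [hj]; exact dvd_mul_left _ _, h⟩
        · obtain ⟨j, hj⟩ := h1
          rw [mul_comm] at hj
          have e1 := abs_le.1 (hjb F.Y P j hY (hK P hPK) hj)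
          refine ⟨2 * (j + 6 * w).toNat + 1, by omega, (hWq _ _).2 ⟨hPK, ?_, ?_⟩⟩
          · have hF : Fq (2 * (j + 6 * w).toNat + 1) = F.sw := if_neg (by omega)
            rw [hF]
            change F.Y.at P = _
            rw [hj]
            congr 1
            change j = (((2 * (j + 6 * w).toNat + 1) / 2 : ℕ) : ℤ) - 6 * w
            omega
          · have hF : Fq (2 * (j + 6 * w).toNat + 1) = F.sw := if_neg (by omega)
            rw [hF]
            change ¬ (p : ℤ) ∣ F.X.at P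
            exact fun h => hZP ⟨h, by rw [hj]; exact dvd_mul_left _ _⟩
      by_cases hP1 : P ∈ W1 q
      · refine ⟨2 * q, by omega, ?_⟩
        change P ∈ (if 2 * q % 2 = 0 then W1 (2 * q / 2) else Wq (2 * q / 2) \ W1 (2 * q / 2))
        rw [if_pos (by omega), show 2 * q / 2 = q by omega]
        exact hP1
      · refine ⟨2 * q + 1, by omega, ?_⟩
        change P ∈ (if (2 * q + 1) % 2 = 0 then W1 ((2 * q + 1) / 2) else
          Wq ((2 * q + 1) / 2) \ W1 ((2 * q + 1) / 2))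
        rw [if_neg (by omega), show (2 * q + 1) / 2 = q by omega]
        exact mem_sdiff.2 ⟨hPq, hP1⟩

end Pool.Agent.Helper7.GPC
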