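import Pool.Agent.Helper7.GPC.Design

/-!
# The partition number of the grid

The definitions of the final statement and the passage from the integer square `[0, n)²` to the
grid `{1, ..., n}²` in the real plane.
-/

open Filter Asymptotics

namespace Pool.Agent.Helper7.GPC

/-- The grid `G_n = {1, ..., n}²` in the plane. -/
def grid (n : ℕ) : Set (ℝ × ℝ) :=
  {P | ∃ i j : ℕ, 1 ≤ i ∧ i ≤ n ∧ 1 ≤ j ∧ j ≤ n ∧ P = ((i : ℝ), (j : ℝ))}

/-- A set of points of the plane is in general position: no three of its points are on a line. -/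
def GenPos (S : Set (ℝ × ℝ)) : Prop :=
  ∀ P ∈ S, ∀ Q ∈ S, ∀ R ∈ S, P ≠ Q → P ≠ R → Q ≠ R → ¬ Collinear ℝ {P, Q, R}

/-- `S` can be partitioned into `k` (possibly empty) sets in general position, namely into the
preimages of the elements of `Fin k` under a map. -/
def Partitions (S : Set (ℝ × ℝ)) (k : ℕ) : Prop :=
  ∃ c : S → Fin k, ∀ i, GenPos (Subtype.val '' (c ⁻¹' {i}))

/-- `gp S`: the least number `k` such that `S` can be partitioned into `k` sets in general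
position. -/
noncomputable def gp (S : Set (ℝ × ℝ)) : ℕ := sInf {k : ℕ | Partitions S k}

theorem col_of_collinear {P Q R : Pt} (h : Collinear ℝ {(((P.1 : ℤ) : ℝ), ((P.2 : ℤ) : ℝ)),
    (((Q.1 : ℤ) : ℝ), ((Q.2 : ℤ) : ℝ)), (((R.1 : ℤ) : ℝ), ((R.2 : ℤ) : ℝ))}) : col P Q R := by
  rw [collinear_iff_of_mem (p₀ := (((P.1 : ℤ) : ℝ), ((P.2 : ℤ) : ℝ))) (by simp)] at h
  obtain ⟨v, hv⟩ := h
  obtain ⟨a, ha⟩ := hv (((Q.1 : ℤ) : ℝ), ((Q.2 : ℤ) : ℝ)) (by simp)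
  obtain ⟨b, hb⟩ := hv (((R.1 : ℤ) : ℝ), ((R.2 : ℤ) : ℝ)) (by simp)
  have a1 : ((Q.1 : ℤ) : ℝ) = a * v.1 + P.1 := by
    have := congrArg Prod.fst ha
    simpa using this
  have a2 : ((Q.2 : ℤ) : ℝ) = a * v.2 + P.2 := by
    have := congrArg Prod.snd ha
    simpa using this
  have b1 : ((R.1 : ℤ) : ℝ) = b * v.1 + P.1 := by
    have := congrArg Prod.fst hb
    simpa using this
  have b2 : ((R.2 : ℤ) : ℝ) = b * v.2 + P.2 := by
    have := congrArg Prod.snd hb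
    simpa using this
  have key : (((Q.1 - P.1) * (R.2 - P.2) : ℤ) : ℝ) = (((Q.2 - P.2) * (R.1 - P.1) : ℤ) : ℝ) := by
    push_cast
    rw [a1, a2, b1, b2]
    ring
  unfold col
  exact_mod_cast key

theorem partitions_of_cov {n m : ℕ} (h : Cov {P | InSq n P} m) : Partitions (grid n) m := by
  obtain ⟨c, h1, h2⟩ := h
  let toZ : ℝ × ℝ → Pt := fun P => (⌊P.1⌋ - 1, ⌊P.2⌋ - 1)
  have hz : ∀ P ∈ grid n, InSq n (toZ P) ∧
      P = ((((toZ P).1 + 1 : ℤ) : ℝ), (((toZ P).2 + 1 : ℤ) : ℝ)) := by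
    rintro P ⟨i, j, hi, hi', hj, hj', rfl⟩
    have e1 : ⌊(i : ℝ)⌋ = i := Int.floor_natCast i
    have e2 : ⌊(j : ℝ)⌋ = j := Int.floor_natCast j
    refine ⟨?_, ?_⟩
    · show 0 ≤ ⌊(i : ℝ)⌋ - 1 ∧ ⌊(i : ℝ)⌋ - 1 < n ∧ 0 ≤ ⌊(j : ℝ)⌋ - 1 ∧ ⌊(j : ℝ)⌋ - 1 < n
      rw [e1, e2]
      omega
    · show _ = (((⌊(i : ℝ)⌋ - 1 + 1 : ℤ) : ℝ), ((⌊(j : ℝ)⌋ - 1 + 1 : ℤ) : ℝ))
      rw [e1, e2]
      simp
  refine ⟨fun P => ⟨c (toZ P.1), h1 _ (hz P.1 P.2).1⟩, fun i => ?_⟩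
  rintro P ⟨⟨P, hP⟩, hP2, rfl⟩ Q ⟨⟨Q, hQ⟩, hQ2, rfl⟩ R ⟨⟨R, hR⟩, hR2, rfl⟩ hPQ hPR hQR hcol
  have cP : c (toZ P) = i := congrArg Fin.val hP2
  have cQ : c (toZ Q) = i := congrArg Fin.val hQ2
  have cR : c (toZ R) = i := congrArg Fin.val hR2
  obtain ⟨sP, eP⟩ := hz P hP
  obtain ⟨sQ, eQ⟩ := hz Q hQ
  obtain ⟨sR, eR⟩ := hz R hR
  simp only at hPQ hPR hQR hcol
  have hinj : ∀ S T : ℝ × ℝ, S = ((((toZ S).1 + 1 : ℤ) : ℝ), (((toZ S).2 + 1 : ℤ) : ℝ)) →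
      T = ((((toZ T).1 + 1 : ℤ) : ℝ), (((toZ T).2 + 1 : ℤ) : ℝ)) → S ≠ T → toZ S ≠ toZ T := by
    intro S T hS hT hne h
    apply hne
    rw [hS, hT, h]
  refine h2 i (toZ P) ⟨sP, cP⟩ (toZ Q) ⟨sQ, cQ⟩ (toZ R) ⟨sR, cR⟩ (hinj P Q eP eQ hPQ)
    (hinj P R eP eR hPR) (hinj Q R eQ eR hQR) ?_
  have h3 : col ((toZ P).1 + 1, (toZ P).2 + 1) ((toZ Q).1 + 1, (toZ Q).2 + 1)
      ((toZ R).1 + 1, (toZ R).2 + 1) := by
    apply col_of_collinear
    rw [eP, eQ, eR] at hcol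
    exact hcol
  unfold col at h3 ⊢
  simp only at h3
  linarith

/-- the minimum in the definition of `gp` is attained -/
theorem gp_attained (n : ℕ) : Partitions (grid n) (gp (grid n)) := by
  show gp (grid n) ∈ {k : ℕ | Partitions (grid n) k}
  apply Nat.sInf_mem
  have h := Cov.card (Finset.Ico (0 : ℤ) n ×ˢ Finset.Ico (0 : ℤ) n)
  refine ⟨_, partitions_of_cov (h.mono (fun P hP => ?_) le_rfl)⟩
  obtain ⟨h1, h2, h3, h4⟩ := hP
  rw [Finset.mem_coe, Finset.mem_product, Finset.mem_Ico, Finset.mem_Ico]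
  exact ⟨⟨h1, h2⟩, h3, h4⟩

theorem gp_le {n m : ℕ} (h : Cov {P | InSq n P} m) : gp (grid n) ≤ m :=
  Nat.sInf_le (partitions_of_cov h)

/-- **From the coverings to the partition number.** -/
theorem final {c : ℝ} (hc : 0 ≤ c) (H : ∀ ε : ℝ, 0 < ε → ∀ᶠ n : ℕ in atTop,
    ∃ m : ℕ, Cov {P | InSq n P} m ∧ (m : ℝ) ≤ (c + ε) * n) :
    (∃ f : ℕ → ℝ, f =o[atTop] (fun n : ℕ => (n : ℝ)) ∧
      ∀ n : ℕ, (gp (grid n) : ℝ) ≤ c * n + f n) ∧
    limsup (fun n : ℕ => (gp (grid n) : ℝ) / n) atTop ≤ c := by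
  have H' : ∀ ε : ℝ, 0 < ε → ∀ᶠ n : ℕ in atTop, (gp (grid n) : ℝ) ≤ (c + ε) * n := by
    intro ε hε
    filter_upwards [H ε hε] with n hn
    obtain ⟨m, hm, hm2⟩ := hn
    exact le_trans (by exact_mod_cast gp_le hm) hm2
  constructor
  · refine ⟨fun n => max 0 ((gp (grid n) : ℝ) - c * n), ?_, fun n => ?_⟩
    · rw [isLittleO_iff]
      intro ε hε
      filter_upwards [H' ε hε] with n hn
      have hn0 : (0 : ℝ) ≤ n := Nat.cast_nonneg n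
      rw [Real.norm_of_nonneg (le_max_left _ _), Real.norm_of_nonneg hn0]
      exact max_le (by positivity) (by linarith)
    · have := le_max_right (0 : ℝ) ((gp (grid n) : ℝ) - c * n)
      linarith
  · refine le_of_forall_pos_le_add fun ε hε => ?_
    refine limsup_le_of_le ?_ ?_
    · refine isCoboundedUnder_le_of_le atTop (x := 0) fun n => by positivity
    · filter_upwards [H' ε hε] with n hn
      rcases Nat.eq_zero_or_pos n with h0 | h0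
      · subst h0
        simp only [Nat.cast_zero, div_zero]
        linarith
      · have hn0 : (0 : ℝ) < n := by exact_mod_cast h0
        rw [div_le_iff₀ hn0]
        exact hn

end Pool.Agent.Helper7.GPC
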