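import Pool.Agent.Helper7.GPC.Step

/-!
# Insertion of several pieces
-/

open Finset

namespace Pool.Agent.Helper7.GPC

/-- the hypotheses of the insertion theorem -/
structure InsHyp {p : ℕ} (C : Finset Pt) (c : Pt → ZMod p) (V : ℕ → Finset Pt)
    (a : ℕ → Pt → ZMod p) (B : ℕ) : Prop where
  gp : ∀ κ, GP {P | P ∈ C ∧ c P = κ}
  disj : ∀ s, ∀ v ∈ V s, v ∉ C
  disj' : ∀ s t, s ≠ t → ∀ v ∈ V s, v ∉ V t
  inj : ∀ s, Set.InjOn (a s) (V s)
  bad : ∀ s, ∀ P ∈ C, ((V s).filter fun v => ∃ Q ∈ C, Q ≠ P ∧ c Q = c P ∧ col v P Q).card ≤ B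
  off : ∀ s, ∀ P ∈ C, ∀ v1 ∈ V s, ∀ v2 ∈ V s, v1 ≠ v2 → ¬ col v1 v2 P
  two : ∀ s t1 t2, t1 < s → t2 < s → t1 ≠ t2 → ∀ Q1 ∈ V t1, ∀ Q2 ∈ V t2,
    ∀ v1 ∈ V s, ∀ v2 ∈ V s, v1 ≠ v2 → ¬ (col v1 v2 Q1 ∧ col v1 v2 Q2)

/-- the cost of one step -/
def cost (p B M N r : ℕ) : ℕ :=
  N + ((1 + r ^ 2) * (M * (B + r) ^ 2 + 1) / (p * (p - 1))) / N ^ 2 + (1 + r ^ 2)

open Classical in
theorem insert_all {p : ℕ} [Fact p.Prime] {C : Finset Pt} {c : Pt → ZMod p} {V : ℕ → Finset Pt}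
    {a : ℕ → Pt → ZMod p} {B M N : ℕ} (h : InsHyp C c V a B) (hM : (trip C).card ≤ M)
    (hN : 0 < N) (r : ℕ) : ∀ s ≤ r, ∃ (D R : Finset Pt) (c' : Pt → ZMod p) (L : Set Pt),
      (∀ Q ∈ R, ∃ t < s, Q ∈ V t) ∧ (∀ P ∈ C, c' P = c P) ∧
      (∀ κ, GP {P | (P ∈ C ∧ P ∉ D ∨ P ∈ R) ∧ c' P = κ}) ∧
      (∀ κ, (R.filter fun Q => c' Q = κ).card ≤ s) ∧
      (∀ t, ∀ Q1 ∈ R, ∀ Q2 ∈ R, Q1 ∈ V t → Q2 ∈ V t → c' Q1 = c' Q2 → Q1 = Q2) ∧
      (∀ P, (P ∈ C ∨ ∃ t < s, P ∈ V t) → (P ∈ C ∧ P ∉ D ∨ P ∈ R) ∨ P ∈ L) ∧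
      Cov L (s * cost p B M N r) := by
  intro s
  induction s with
  | zero =>
    intro _
    refine ⟨∅, ∅, c, ∅, by simp, fun _ _ => rfl, fun κ => (h.gp κ).mono ?_, by simp, by simp, ?_,
      ?_⟩
    · rintro P ⟨hP | hP, h1⟩
      · exact ⟨hP.1, h1⟩
      · exact absurd hP (notMem_empty _)
    · rintro P (hP | ⟨t, ht, -⟩)
      · exact Or.inl (Or.inl ⟨hP, notMem_empty _⟩)
      · omega
    · exact ⟨fun _ => 0, fun P hP => absurd hP (Set.notMem_empty _), fun i P hP =>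
        absurd hP.1 (Set.notMem_empty _)⟩
  | succ s ih =>
    intro hs
    obtain ⟨D, R, c', L, hR, hc, hGP, hRc, hinj, hcov, hL⟩ := ih (by omega)
    have hRC : ∀ Q ∈ R, Q ∉ C := fun Q hQ hQC => by
      obtain ⟨t, -, ht⟩ := hR Q hQ
      exact h.disj t Q ht hQC
    have hVR : ∀ v ∈ V s, v ∉ R := fun v hv hvR => by
      obtain ⟨t, hts, ht⟩ := hR v hvR
      exact h.disj' s t (by omega) v hv ht
    obtain ⟨f, D', V0, hD', hV0, hf, hGP', htr, hV0c⟩ := insert_step (p := p) (C := C) (R := R)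
      (V := V s) (D := D) (c := c') (a := a s) (B := B) (ρ := r) (M := M) hGP
      (fun κ => (h.gp κ).mono fun P hP => ⟨hP.1, (hc P hP.1).symm.trans hP.2⟩)
      (h.disj s) hVR (h.inj s) (fun P hP => by
        refine le_trans (card_le_card ?_) (h.bad s P hP)
        intro v hv
        rw [mem_filter] at hv ⊢
        obtain ⟨h1, Q, h2, h3, h4, h5⟩ := hv
        exact ⟨h1, Q, h2, h3, by rw [← hc Q h2, ← hc P hP, h4], h5⟩)
      (h.off s) (fun κ => (hRc κ).trans (by omega)) (fun Q1 hQ1 Q2 hQ2 hne hcc v1 hv1 v2 hv2 hv => by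
        obtain ⟨t1, ht1, h1⟩ := hR Q1 hQ1
        obtain ⟨t2, ht2, h2⟩ := hR Q2 hQ2
        by_cases ht : t1 = t2
        · subst ht
          exact absurd (hinj t1 Q1 hQ1 Q2 hQ2 h1 h2 hcc) hne
        · exact h.two s t1 t2 ht1 ht2 ht Q1 h1 Q2 h2 v1 hv1 v2 hv2 hv) hRC hM
    refine ⟨D ∪ D', R ∪ (V s \ V0), fun P => if P ∈ V s then f P else c' P, L ∪ (D' ∪ V0), ?_, ?_,
      hGP', ?_, ?_, ?_, ?_⟩
    · intro Q hQ
      rcases mem_union.1 hQ with hQ | hQ
      · obtain ⟨t, ht, h1⟩ := hR Q hQ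
        exact ⟨t, by omega, h1⟩
      · exact ⟨s, by omega, (mem_sdiff.1 hQ).1⟩
    · intro P hP
      have h1 : P ∉ V s := fun h1 => h.disj s P h1 hP
      simp only [if_neg h1]
      exact hc P hP
    · intro κ
      have e1 : ((R ∪ (V s \ V0)).filter fun Q => (if Q ∈ V s then f Q else c' Q) = κ) ⊆
          (R.filter fun Q => c' Q = κ) ∪ ((V s).filter fun Q => f Q = κ) := by
        intro Q hQ
        rw [mem_filter] at hQ
        obtain ⟨h1, h2⟩ := hQ
        rw [mem_union]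
        by_cases hQV : Q ∈ V s
        · rw [if_pos hQV] at h2
          exact Or.inr (mem_filter.2 ⟨hQV, h2⟩)
        · rw [if_neg hQV] at h2
          refine Or.inl (mem_filter.2 ⟨?_, h2⟩)
          rcases mem_union.1 h1 with h1 | h1
          · exact h1
          · exact absurd (mem_sdiff.1 h1).1 hQV
      refine (card_le_card e1).trans ((card_union_le _ _).trans (add_le_add (hRc κ) ?_))
      rw [card_le_one]
      intro v1 hv1 v2 hv2
      rw [mem_filter] at hv1 hv2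
      exact hf hv1.1 hv2.1 (hv1.2.trans hv2.2.symm)
    · intro t Q1 hQ1 Q2 hQ2 h1 h2 h3
      by_cases ht : t = s
      · subst ht
        simp only [if_pos h1, if_pos h2] at h3
        exact hf h1 h2 h3
      · have h4 : Q1 ∉ V s := h.disj' t s ht Q1 h1
        have h5 : Q2 ∉ V s := h.disj' t s ht Q2 h2
        simp only [if_neg h4, if_neg h5] at h3
        have h6 : Q1 ∈ R := by
          rcases mem_union.1 hQ1 with h6 | h6
          · exact h6
          · exact absurd (mem_sdiff.1 h6).1 h4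
        have h7 : Q2 ∈ R := by
          rcases mem_union.1 hQ2 with h7 | h7
          · exact h7
          · exact absurd (mem_sdiff.1 h7).1 h5
        exact hinj t Q1 h6 Q2 h7 h1 h2 h3
    · intro P hP
      by_cases hPV : P ∈ V s
      · by_cases hP0 : P ∈ V0
        · exact Or.inr (Or.inr (Or.inr hP0))
        · exact Or.inl (Or.inr (mem_union_right _ (mem_sdiff.2 ⟨hPV, hP0⟩)))
      · have hP' : P ∈ C ∨ ∃ t < s, P ∈ V t := by
          rcases hP with hP | ⟨t, ht, hP⟩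
          · exact Or.inl hP
          · refine Or.inr ⟨t, ?_, hP⟩
            rcases Nat.lt_succ_iff_lt_or_eq.1 ht with h1 | h1
            · exact h1
            · subst h1
              exact absurd hP hPV
        rcases hcov P hP' with (⟨h1, h2⟩ | h1) | h1
        · by_cases hPD : P ∈ D'
          · exact Or.inr (Or.inr (Or.inl hPD))
          · refine Or.inl (Or.inl ⟨h1, ?_⟩)
            rw [mem_union, not_or]
            exact ⟨h2, hPD⟩
        · exact Or.inl (Or.inr (mem_union_left _ h1))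
        · exact Or.inr (Or.inl h1)
    · have h1 : Cov ((D' : Set Pt) ∪ V0) (cost p B M N r) := by
        refine ((color D' hN).union (Cov.card V0)).mono le_rfl ?_
        unfold cost
        refine add_le_add (add_le_add le_rfl (Nat.div_le_div_right ?_)) hV0c
        have hp1 : 1 < p := (Fact.out : p.Prime).one_lt
        rw [Nat.le_div_iff_mul_le (Nat.mul_pos (by omega) (by omega))]
        exact htr
      have h2 := hL.union h1
      rw [← Nat.succ_mul] at h2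
      exact h2

/-- **The insertion theorem.** -/
theorem insertion {p : ℕ} [Fact p.Prime] {C : Finset Pt} {c : Pt → ZMod p} {V : ℕ → Finset Pt}
    {a : ℕ → Pt → ZMod p} {B M N : ℕ} (h : InsHyp C c V a B) (hM : (trip C).card ≤ M)
    (hN : 0 < N) (r : ℕ) :
    Cov {P | P ∈ C ∨ ∃ t < r, P ∈ V t} (p + r * cost p B M N r) := by
  obtain ⟨D, R, c', L, -, -, hGP, -, -, hcov, hL⟩ := insert_all h hM hN r r le_rfl
  have h1 : Cov {P | P ∈ C ∧ P ∉ D ∨ P ∈ R} p := by
    refine ⟨fun P => (c' P).val, fun P _ => ZMod.val_lt _, fun i => ?_⟩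
    refine (hGP (i : ZMod p)).mono fun P hP => ⟨hP.1, ?_⟩
    have h2 : (c' P).val = i := hP.2
    rw [← h2, ZMod.natCast_zmod_val]
  exact (h1.union hL).mono (fun P hP => hcov P hP) le_rfl

end Pool.Agent.Helper7.GPC
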