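import Pool.Agent.Helper7.GPC.Cell

/-!
# Bit masks
-/

open Finset

namespace Pool.Agent.Helper7.GPC

/-- shift by an integer -/
def sh (M : ℕ) (s : ℤ) : ℕ :=
  match s with
  | Int.ofNat k => M >>> k
  | Int.negSucc k => M <<< (k + 1)

theorem testBit_sh {M : ℕ} {s : ℤ} {i j : ℕ} (h : (j : ℤ) = i + s) (hM : M.testBit j = true) :
    (sh M s).testBit i = true := by
  cases s with
  | ofNat k =>
    unfold sh
    rw [Nat.testBit_shiftRight]
    have : k + i = j := by simp at h; omega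
    rw [this]; exact hM
  | negSucc k =>
    unfold sh
    rw [Nat.testBit_shiftLeft]
    have h1 : k + 1 ≤ i := by
      rw [Int.negSucc_eq] at h; omega
    have h2 : i - (k + 1) = j := by
      rw [Int.negSucc_eq] at h; omega
    rw [h2, hM]
    simp [h1]

/-- no pair -/
def chk1 (M : ℕ) (s : ℤ) : Bool := (M &&& sh M s) == 0

/-- no triple -/
def chk2 (M N : ℕ) (s t : ℤ) : Bool := ((M &&& sh M s) &&& sh N t) == 0

theorem chk1_sound {M : ℕ} {s : ℤ} (h : chk1 M s = true) {i j : ℕ} (hi : M.testBit i = true)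
    (hj : M.testBit j = true) (hij : (j : ℤ) = i + s) : False := by
  unfold chk1 at h
  rw [beq_iff_eq] at h
  have h1 : (M &&& sh M s).testBit i = true := by
    rw [Nat.testBit_and, hi, testBit_sh hij hj]; rfl
  rw [h, Nat.zero_testBit] at h1
  exact Bool.false_ne_true h1

theorem chk2_sound {M N : ℕ} {s t : ℤ} (h : chk2 M N s t = true) {i j l : ℕ}
    (hi : M.testBit i = true) (hj : M.testBit j = true) (hij : (j : ℤ) = i + s)
    (hl : N.testBit l = true) (hil : (l : ℤ) = i + t) : False := by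
  unfold chk2 at h
  rw [beq_iff_eq] at h
  have h1 : ((M &&& sh M s) &&& sh N t).testBit i = true := by
    rw [Nat.testBit_and, Nat.testBit_and, hi, testBit_sh hij hj, testBit_sh hil hl]; rfl
  rw [h, Nat.zero_testBit] at h1
  exact Bool.false_ne_true h1

/-- the set of the cells -/
def kb (S M : ℕ) (a b : ℤ) : Prop := M.testBit (a.toNat * S + b.toNat) = true

instance (S M : ℕ) (a b : ℤ) : Decidable (kb S M a b) := by unfold kb; infer_instance

/-- a transformation of the mask -/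
def Tr (W S M N : ℕ) (f g : ℕ → ℕ → ℕ) : Prop :=
  ∀ a < W, ∀ b < W, M.testBit (a * S + b) = true → N.testBit (f a b * S + g a b) = true

instance (W S M N : ℕ) (f g : ℕ → ℕ → ℕ) : Decidable (Tr W S M N f g) := by
  unfold Tr; infer_instance

theorem kb_pair {S M : ℕ} {s : ℤ} (h : chk1 M s = true) {a b a' b' : ℤ} (ha : 0 ≤ a)
    (hb : 0 ≤ b) (ha' : 0 ≤ a') (hb' : 0 ≤ b') (h1 : kb S M a b) (h2 : kb S M a' b')
    (hs : s = (a' - a) * S + (b' - b)) : False := by
  unfold kb at h1 h2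
  refine chk1_sound h h1 h2 ?_
  push_cast
  rw [Int.toNat_of_nonneg ha, Int.toNat_of_nonneg hb, Int.toNat_of_nonneg ha',
    Int.toNat_of_nonneg hb', hs]
  ring

theorem kb_triple {S M N : ℕ} {s t : ℤ} (h : chk2 M N s t = true) {a b a' b' c d : ℤ}
    (ha : 0 ≤ a) (hb : 0 ≤ b) (ha' : 0 ≤ a') (hb' : 0 ≤ b') (hc : 0 ≤ c) (hd : 0 ≤ d)
    (h1 : kb S M a b) (h2 : kb S M a' b') (h3 : kb S N c d)
    (hs : s = (a' - a) * S + (b' - b)) (ht : t = (c - a) * S + (d - b)) : False := by
  unfold kb at h1 h2 h3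
  refine chk2_sound h h1 h2 ?_ h3 ?_
  · push_cast
    rw [Int.toNat_of_nonneg ha, Int.toNat_of_nonneg hb, Int.toNat_of_nonneg ha',
      Int.toNat_of_nonneg hb', hs]
    ring
  · push_cast
    rw [Int.toNat_of_nonneg ha, Int.toNat_of_nonneg hb, Int.toNat_of_nonneg hc,
      Int.toNat_of_nonneg hd, ht]
    ring

open Classical in
/-- the points of the square in the cells of a mask -/
noncomputable def KS (W S M n : ℕ) : Finset Pt :=
  (Ico (0 : ℤ) n ×ˢ Ico (0 : ℤ) n).filter fun P => kb S M (cell W n P.1) (cell W n P.2)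

theorem mem_KS {W S M n : ℕ} {P : Pt} : P ∈ KS W S M n ↔
    InSq n P ∧ kb S M (cell W n P.1) (cell W n P.2) := by
  unfold KS InSq
  rw [mem_filter, mem_product, mem_Ico, mem_Ico]
  tauto

end Pool.Agent.Helper7.GPC
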