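import Pool.Agent.Helper7.GPC.Basic

/-!
# Insertion of points of a line into the classes of a partition
-/

open Finset

namespace Pool.Agent.Helper7.GPC

open Classical in
/-- **The insertion step.** -/
theorem insert_step {p : ℕ} [Fact p.Prime] {C R V D : Finset Pt} {c a : Pt → ZMod p}
    {B ρ M : ℕ}
    (hGP : ∀ κ, GP {P | (P ∈ C ∧ P ∉ D ∨ P ∈ R) ∧ c P = κ})
    (hGPC : ∀ κ, GP {P | P ∈ C ∧ c P = κ})
    (hVC : ∀ v ∈ V, v ∉ C) (hVR : ∀ v ∈ V, v ∉ R) (ha : Set.InjOn a V)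
    (h1 : ∀ P ∈ C, (V.filter fun v => ∃ Q ∈ C, Q ≠ P ∧ c Q = c P ∧ col v P Q).card ≤ B)
    (h2 : ∀ P ∈ C, ∀ v1 ∈ V, ∀ v2 ∈ V, v1 ≠ v2 → ¬ col v1 v2 P)
    (hR : ∀ κ, (R.filter fun Q => c Q = κ).card ≤ ρ)
    (h3 : ∀ Q1 ∈ R, ∀ Q2 ∈ R, Q1 ≠ Q2 → c Q1 = c Q2 → ∀ v1 ∈ V, ∀ v2 ∈ V, v1 ≠ v2 →
      ¬ (col v1 v2 Q1 ∧ col v1 v2 Q2))
    (hRC : ∀ Q ∈ R, Q ∉ C) (hM : (trip C).card ≤ M) :
    ∃ (f : Pt → ZMod p) (D' V0 : Finset Pt), D' ⊆ C ∧ V0 ⊆ V ∧ Set.InjOn f V ∧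
      (∀ κ, GP {P | (P ∈ C ∧ P ∉ D ∪ D' ∨ P ∈ R ∪ (V \ V0)) ∧ (if P ∈ V then f P else c P) = κ}) ∧
      (trip D').card * (p * (p - 1)) ≤ (1 + ρ ^ 2) * (M * (B + ρ) ^ 2 + 1) ∧
      V0.card ≤ 1 + ρ ^ 2 := by
  -- the family of the affine maps
  let Ω : Finset (ZMod p × ZMod p) := (univ.filter fun x : ZMod p => x ≠ 0) ×ˢ univ
  have hp1 : 1 < p := (Fact.out : p.Prime).one_lt
  have hΩ : Ω.card = (p - 1) * p := by
    have e1 : (univ.filter fun x : ZMod p => x ≠ 0).card = p - 1 := by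
      rw [filter_ne' univ (0 : ZMod p), card_erase_of_mem (mem_univ _), card_univ, ZMod.card]
    rw [card_product, e1, card_univ, ZMod.card]
  let F : ZMod p × ZMod p → Pt → ZMod p := fun ω P => ω.1 * a P + ω.2
  let S : Pt → Finset Pt := fun P => V.filter fun v => ∃ Q, (Q ∈ C ∨ Q ∈ R) ∧ Q ≠ P ∧
    c Q = c P ∧ col v P Q
  have hS : ∀ P ∈ C, (S P).card ≤ B + ρ := by
    intro P hP
    have e1 : S P ⊆ (V.filter fun v => ∃ Q ∈ C, Q ≠ P ∧ c Q = c P ∧ col v P Q) ∪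
        (R.filter fun Q => c Q = c P).biUnion fun Q => V.filter fun v => col v P Q := by
      intro v hv
      obtain ⟨hv1, Q, hQ, hQP, hc, hcol⟩ := mem_filter.1 hv
      rw [mem_union]
      rcases hQ with hQ | hQ
      · exact Or.inl (mem_filter.2 ⟨hv1, Q, hQ, hQP, hc, hcol⟩)
      · right
        rw [mem_biUnion]
        exact ⟨Q, mem_filter.2 ⟨hQ, hc⟩, mem_filter.2 ⟨hv1, hcol⟩⟩
    refine (card_le_card e1).trans ((card_union_le _ _).trans (add_le_add (h1 P hP) ?_))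
    refine (card_biUnion_le_card_mul _ _ 1 fun Q hQ => ?_).trans (by
      rw [mul_one]; exact hR _)
    rw [card_le_one]
    intro v1 hv1 v2 hv2
    rw [mem_filter] at hv1 hv2
    by_contra hne
    have hQ' := (mem_filter.1 hQ).1
    have hPQ : P ≠ Q := fun h => hRC Q hQ' (h ▸ hP)
    refine h2 P hP v1 hv1.1 v2 hv2.1 hne ?_
    have e3 : col P v1 v2 := col_trans hPQ (col_swap (col_rot hv1.2)) (col_swap (col_rot hv2.2))
    exact col_swap (col_rot e3)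
  let D' : ZMod p × ZMod p → Finset Pt := fun ω => C.filter fun P => ∃ v ∈ S P, F ω v = c P
  let V0 : ZMod p × ZMod p → Finset Pt := fun ω => V.filter fun v =>
    ∃ Q1 ∈ R, ∃ Q2 ∈ R, Q1 ≠ Q2 ∧ c Q1 = F ω v ∧ c Q2 = F ω v ∧ col v Q1 Q2
  -- two conditions determine the map
  have huniq : ∀ v1 ∈ V, ∀ v2 ∈ V, ∀ κ1 κ2 : ZMod p, κ1 ≠ κ2 →
      (Ω.filter fun ω => F ω v1 = κ1 ∧ F ω v2 = κ2).card ≤ 1 := by
    intro v1 hv1 v2 hv2 κ1 κ2 hκ
    rw [card_le_one]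
    rintro ⟨α, β⟩ h ⟨α', β'⟩ h'
    rw [mem_filter] at h h'
    have e1 : α * a v1 + β = κ1 := h.2.1
    have e2 : α * a v2 + β = κ2 := h.2.2
    have e1' : α' * a v1 + β' = κ1 := h'.2.1
    have e2' : α' * a v2 + β' = κ2 := h'.2.2
    have hne : a v1 - a v2 ≠ 0 := by
      intro h0
      apply hκ
      rw [← e1, ← e2, sub_eq_zero.1 h0]
    have e3 : α = α' := by
      apply mul_right_cancel₀ hne
      linear_combination e1 - e2 - e1' + e2'
    have e4 : β = β' := by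
      rw [e3] at e1
      exact add_left_cancel (e1.trans e1'.symm)
    rw [e3, e4]
  have hpair : ∀ P1 ∈ C, ∀ P2 ∈ C, c P1 ≠ c P2 →
      (Ω.filter fun ω => P1 ∈ D' ω ∧ P2 ∈ D' ω).card ≤ (B + ρ) ^ 2 := by
    intro P1 hP1 P2 hP2 hne
    have e1 : (Ω.filter fun ω => P1 ∈ D' ω ∧ P2 ∈ D' ω) ⊆
        (S P1 ×ˢ S P2).biUnion fun v => Ω.filter fun ω => F ω v.1 = c P1 ∧ F ω v.2 = c P2 := by
      intro ω hω
      rw [mem_filter] at hω
      obtain ⟨hω0, h4, h5⟩ := hω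
      obtain ⟨-, v1, hv1, e1⟩ := mem_filter.1 h4
      obtain ⟨-, v2, hv2, e2⟩ := mem_filter.1 h5
      rw [mem_biUnion]
      exact ⟨(v1, v2), mem_product.2 ⟨hv1, hv2⟩, mem_filter.2 ⟨hω0, e1, e2⟩⟩
    refine (card_le_card e1).trans ((card_biUnion_le_card_mul _ _ 1 fun v hv => ?_).trans ?_)
    · rw [mem_product] at hv
      exact huniq _ (mem_filter.1 hv.1).1 _ (mem_filter.1 hv.2).1 _ _ hne
    · rw [mul_one, card_product, sq]
      exact Nat.mul_le_mul (hS P1 hP1) (hS P2 hP2)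
  have hE1 : ∑ ω ∈ Ω, (trip (D' ω)).card ≤ M * (B + ρ) ^ 2 := by
    have e1 : ∀ ω, (trip (D' ω)).card = ∑ t ∈ trip C,
        if t.1 ∈ D' ω ∧ t.2.1 ∈ D' ω ∧ t.2.2 ∈ D' ω then 1 else 0 := by
      intro ω
      rw [← card_filter]
      congr 1
      ext t
      rw [mem_filter, mem_trip, mem_trip]
      have hsub : ∀ P, P ∈ D' ω → P ∈ C := fun P hP => (mem_filter.1 hP).1
      constructor
      · rintro ⟨⟨h4, h5, h6⟩, h7⟩
        exact ⟨⟨⟨hsub _ h4, hsub _ h5, hsub _ h6⟩, h7⟩, h4, h5, h6⟩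
      · rintro ⟨⟨-, h7⟩, h8⟩
        exact ⟨h8, h7⟩
    simp_rw [e1]
    rw [sum_comm]
    refine (sum_le_card_nsmul _ _ ((B + ρ) ^ 2) fun t ht => ?_).trans (by
      rw [smul_eq_mul]; exact Nat.mul_le_mul_right _ hM)
    rw [← card_filter]
    obtain ⟨⟨h4, h5, h6⟩, h7, h8, h9, h10⟩ := mem_trip.1 ht
    by_cases hc : c t.1 = c t.2.1
    · have hc' : c t.1 ≠ c t.2.2 := fun hc' =>
        hGPC (c t.1) t.1 ⟨h4, rfl⟩ t.2.1 ⟨h5, hc.symm⟩ t.2.2 ⟨h6, hc'.symm⟩ h7 h8 h9 h10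
      refine (card_le_card ?_).trans (hpair _ h4 _ h6 hc')
      intro ω hω
      rw [mem_filter] at hω ⊢
      exact ⟨hω.1, hω.2.1, hω.2.2.2⟩
    · refine (card_le_card ?_).trans (hpair _ h4 _ h5 hc)
      intro ω hω
      rw [mem_filter] at hω ⊢
      exact ⟨hω.1, hω.2.1, hω.2.2.1⟩
  have hone : ∀ (v : Pt) (κ : ZMod p), (Ω.filter fun ω => F ω v = κ).card ≤ p - 1 := by
    intro v κ
    have e1 : (Ω.filter fun ω => F ω v = κ) ⊆
        (univ.filter fun x : ZMod p => x ≠ 0).image fun x => (x, κ - x * a v) := by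
      rintro ⟨α, β⟩ h
      rw [mem_filter, mem_product] at h
      obtain ⟨⟨h4, -⟩, h5⟩ := h
      rw [mem_image]
      have h6 : α * a v + β = κ := h5
      exact ⟨α, h4, Prod.ext rfl (by rw [← h6]; ring)⟩
    refine (card_le_card e1).trans (card_image_le.trans ?_)
    rw [filter_ne' univ (0 : ZMod p), card_erase_of_mem (mem_univ _), card_univ, ZMod.card]
  have hE2 : ∑ ω ∈ Ω, (V0 ω).card ≤ (p * ρ ^ 2) * (p - 1) := by
    -- pairs of inserted points of the same class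
    let W : Finset (Pt × Pt) := (R ×ˢ R).filter fun q => q.1 ≠ q.2 ∧ c q.1 = c q.2
    have hW : W.card ≤ p * ρ ^ 2 := by
      have e1 : W ⊆ (univ : Finset (ZMod p)).biUnion fun κ =>
          (R.filter fun Q => c Q = κ) ×ˢ (R.filter fun Q => c Q = κ) := by
        intro q hq
        rw [mem_filter, mem_product] at hq
        rw [mem_biUnion]
        exact ⟨c q.1, mem_univ _, mem_product.2 ⟨mem_filter.2 ⟨hq.1.1, rfl⟩,
          mem_filter.2 ⟨hq.1.2, hq.2.2.symm⟩⟩⟩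
      refine (card_le_card e1).trans ((card_biUnion_le_card_mul _ _ (ρ ^ 2) fun κ _ => ?_).trans
        ?_)
      · rw [card_product, sq]
        exact Nat.mul_le_mul (hR κ) (hR κ)
      · rw [card_univ, ZMod.card]
    have e2 : ∀ ω, (V0 ω).card ≤ ∑ q ∈ W, ∑ v ∈ V,
        if col v q.1 q.2 ∧ F ω v = c q.1 then 1 else 0 := by
      intro ω
      have e3 : V0 ω ⊆ W.biUnion fun q => V.filter fun v => col v q.1 q.2 ∧ F ω v = c q.1 := by
        intro v hv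
        obtain ⟨hv1, Q1, hQ1, Q2, hQ2, hne, h4, h5, h6⟩ := mem_filter.1 hv
        rw [mem_biUnion]
        exact ⟨(Q1, Q2), mem_filter.2 ⟨mem_product.2 ⟨hQ1, hQ2⟩, hne, h4.trans h5.symm⟩,
          mem_filter.2 ⟨hv1, h6, h4.symm⟩⟩
      refine (card_le_card e3).trans (card_biUnion_le.trans (sum_le_sum fun q _ => ?_))
      rw [card_filter]
    refine (sum_le_sum fun ω _ => e2 ω).trans ?_
    rw [sum_comm]
    refine (sum_le_card_nsmul _ _ (p - 1) fun q hq => ?_).trans (by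
      rw [smul_eq_mul]; exact Nat.mul_le_mul_right _ hW)
    rw [sum_comm]
    rw [mem_filter, mem_product] at hq
    obtain ⟨⟨hq1, hq2⟩, hq3, hq4⟩ := hq
    -- at most one point of `V` on the line
    by_cases hex : ∃ v ∈ V, col v q.1 q.2
    · obtain ⟨v, hv, hvc⟩ := hex
      rw [sum_eq_single_of_mem v hv]
      · rw [← card_filter]
        refine (card_le_card ?_).trans (hone v (c q.1))
        intro ω hω
        rw [mem_filter] at hω ⊢
        exact ⟨hω.1, hω.2.2⟩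
      · intro w hw hwv
        refine sum_eq_zero fun ω _ => if_neg fun h => ?_
        refine h3 _ hq1 _ hq2 hq3 hq4 w hw v hv hwv ?_
        have e3 : col q.1 q.2 w := col_swap (col_rot (h.1)) |> fun h => by
          unfold col at *; linarith
        have e4 : col q.1 q.2 v := by
          unfold col at *; linarith
        have e5 : col q.1 w v := col_trans hq3 e3 e4
        have e6 : col q.2 w v := by
          have e7 : col q.2 q.1 w := col_rot e3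
          have e8 : col q.2 q.1 v := col_rot e4
          exact col_trans hq3.symm e7 e8
        exact ⟨col_swap (col_rot e5), col_swap (col_rot e6)⟩
    · rw [sum_eq_zero]
      · exact Nat.zero_le _
      · intro v hv
        exact sum_eq_zero fun ω _ => if_neg fun h => hex ⟨v, hv, h.1⟩
  -- choice of the map
  obtain ⟨ω, hω, hcost⟩ : ∃ ω ∈ Ω, (trip (D' ω)).card * (p * (p - 1)) +
      (M * (B + ρ) ^ 2 + 1) * (V0 ω).card ≤ (M * (B + ρ) ^ 2 + 1) * (1 + ρ ^ 2) := by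
    by_contra hc
    push Not at hc
    have hne : Ω.Nonempty := by
      rw [← card_pos, hΩ]
      exact Nat.mul_pos (by omega) (by omega)
    have e1 := sum_lt_sum_of_nonempty hne hc
    rw [sum_const, smul_eq_mul, sum_add_distrib, ← sum_mul, ← mul_sum, hΩ] at e1
    have e2 : (∑ ω ∈ Ω, (trip (D' ω)).card) * (p * (p - 1)) +
        (M * (B + ρ) ^ 2 + 1) * ∑ ω ∈ Ω, (V0 ω).card ≤
        (M * (B + ρ) ^ 2) * (p * (p - 1)) + (M * (B + ρ) ^ 2 + 1) * ((p * ρ ^ 2) * (p - 1)) :=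
      add_le_add (Nat.mul_le_mul_right _ hE1) (Nat.mul_le_mul_left _ hE2)
    have e3 : (M * (B + ρ) ^ 2) * (p * (p - 1)) +
        (M * (B + ρ) ^ 2 + 1) * ((p * ρ ^ 2) * (p - 1)) ≤
        (p - 1) * p * ((M * (B + ρ) ^ 2 + 1) * (1 + ρ ^ 2)) := by
      have e4 : (p - 1) * p * ((M * (B + ρ) ^ 2 + 1) * (1 + ρ ^ 2)) =
          (M * (B + ρ) ^ 2) * (p * (p - 1)) +
          (M * (B + ρ) ^ 2 + 1) * ((p * ρ ^ 2) * (p - 1)) + p * (p - 1) := by ring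
      omega
    omega
  have hω0 : ω.1 ≠ 0 := (mem_filter.1 (mem_product.1 hω).1).2
  refine ⟨F ω, D' ω, V0 ω, filter_subset _ _, filter_subset _ _, ?_, ?_, ?_, ?_⟩
  · intro v1 hv1 v2 hv2 h
    apply ha hv1 hv2
    have h4 : ω.1 * a v1 + ω.2 = ω.1 * a v2 + ω.2 := h
    exact mul_left_cancel₀ hω0 (add_right_cancel h4)
  · have key : ∀ v ∈ V, v ∉ V0 ω → ∀ P Q, (P ∈ C ∧ P ∉ D' ω ∨ P ∈ R) →
        (Q ∈ C ∧ Q ∉ D' ω ∨ Q ∈ R) → P ≠ Q → c P = F ω v → c Q = F ω v → ¬ col v P Q := by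
      intro v hv hv0 P Q hP hQ hPQ hcP hcQ hcol
      rcases hP with ⟨hP, hPD⟩ | hP
      · refine hPD (mem_filter.2 ⟨hP, v, mem_filter.2 ⟨hv, Q, ?_, hPQ.symm, hcQ.trans hcP.symm,
          hcol⟩, hcP.symm⟩)
        exact hQ.imp (fun h => h.1) id
      · rcases hQ with ⟨hQ, hQD⟩ | hQ
        · refine hQD (mem_filter.2 ⟨hQ, v, mem_filter.2 ⟨hv, P, Or.inr hP, hPQ,
            hcP.trans hcQ.symm, col_swap hcol⟩, hcQ.symm⟩)
        · exact hv0 (mem_filter.2 ⟨hv, P, hP, Q, hQ, hPQ, hcP, hcQ, hcol⟩)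
    have hinj : ∀ v1 ∈ V, ∀ v2 ∈ V, F ω v1 = F ω v2 → v1 = v2 := by
      intro v1 hv1 v2 hv2 h
      apply ha hv1 hv2
      have h4 : ω.1 * a v1 + ω.2 = ω.1 * a v2 + ω.2 := h
      exact mul_left_cancel₀ hω0 (add_right_cancel h4)
    -- old points
    have hold : ∀ P, (P ∈ C ∧ P ∉ D ∪ D' ω ∨ P ∈ R ∪ (V \ V0 ω)) → P ∉ V →
        (P ∈ C ∧ P ∉ D ∨ P ∈ R) ∧ (P ∈ C ∧ P ∉ D' ω ∨ P ∈ R) := by
      intro P hP hPV
      rcases hP with ⟨h4, h5⟩ | h4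
      · rw [mem_union, not_or] at h5
        exact ⟨Or.inl ⟨h4, h5.1⟩, Or.inl ⟨h4, h5.2⟩⟩
      · rcases mem_union.1 h4 with h4 | h4
        · exact ⟨Or.inr h4, Or.inr h4⟩
        · exact absurd (mem_sdiff.1 h4).1 hPV
    have hnew : ∀ P, (P ∈ C ∧ P ∉ D ∪ D' ω ∨ P ∈ R ∪ (V \ V0 ω)) → P ∈ V → P ∉ V0 ω := by
      intro P hP hPV
      rcases hP with ⟨h4, -⟩ | h4
      · exact absurd h4 (hVC P hPV)
      · rcases mem_union.1 h4 with h4 | h4
        · exact absurd h4 (hVR P hPV)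
        · exact (mem_sdiff.1 h4).2
    have key2 : ∀ κ v P Q, (v ∈ C ∧ v ∉ D ∪ D' ω ∨ v ∈ R ∪ (V \ V0 ω)) →
        (P ∈ C ∧ P ∉ D ∪ D' ω ∨ P ∈ R ∪ (V \ V0 ω)) →
        (Q ∈ C ∧ Q ∉ D ∪ D' ω ∨ Q ∈ R ∪ (V \ V0 ω)) →
        (if v ∈ V then F ω v else c v) = κ → (if P ∈ V then F ω P else c P) = κ →
        (if Q ∈ V then F ω Q else c Q) = κ → v ≠ P → v ≠ Q → P ≠ Q → v ∈ V → ¬ col v P Q := by
      intro κ v P Q hv hP hQ hv1 hP1 hQ1 hvP hvQ hPQ hvV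
      rw [if_pos hvV] at hv1
      have hPV : P ∉ V := by
        intro h
        rw [if_pos h] at hP1
        exact hvP (hinj v hvV P h (hv1.trans hP1.symm))
      have hQV : Q ∉ V := by
        intro h
        rw [if_pos h] at hQ1
        exact hvQ (hinj v hvV Q h (hv1.trans hQ1.symm))
      rw [if_neg hPV] at hP1
      rw [if_neg hQV] at hQ1
      exact key v hvV (hnew v hv hvV) P Q (hold P hP hPV).2 (hold Q hQ hQV).2 hPQ
        (hP1.trans hv1.symm) (hQ1.trans hv1.symm)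
    rintro κ P ⟨hP, hP1⟩ Q ⟨hQ, hQ1⟩ S' ⟨hS', hS1⟩ hPQ hPS hQS hcol
    by_cases hPV : P ∈ V
    · exact key2 κ P Q S' hP hQ hS' hP1 hQ1 hS1 hPQ hPS hQS hPV hcol
    by_cases hQV : Q ∈ V
    · exact key2 κ Q P S' hQ hP hS' hQ1 hP1 hS1 hPQ.symm hQS hPS hQV (col_rot hcol)
    by_cases hSV : S' ∈ V
    · refine key2 κ S' P Q hS' hP hQ hS1 hP1 hQ1 hPS.symm hQS.symm hPQ hSV ?_
      exact col_rot (col_swap hcol)
    · rw [if_neg hPV] at hP1
      rw [if_neg hQV] at hQ1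
      rw [if_neg hSV] at hS1
      exact hGP κ P ⟨(hold P hP hPV).1, hP1⟩ Q ⟨(hold Q hQ hQV).1, hQ1⟩ S'
        ⟨(hold S' hS' hSV).1, hS1⟩ hPQ hPS hQS hcol
  · rw [mul_comm (1 + ρ ^ 2)]
    exact (Nat.le_add_right _ _).trans hcost
  · have e1 : (M * (B + ρ) ^ 2 + 1) * (V0 ω).card ≤ (M * (B + ρ) ^ 2 + 1) * (1 + ρ ^ 2) :=
      (Nat.le_add_left _ _).trans hcost
    exact Nat.le_of_mul_le_mul_left e1 (Nat.succ_pos _)

end Pool.Agent.Helper7.GPC
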