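import Pool.Agent.Helper7.GPC.Assembly

/-!
# Three collinear points in one class
-/

open Finset

namespace Pool.Agent.Helper7.GPC

theorem Lin.lin_neg (L : Lin) (d : Pt) : L.lin (-d.1, -d.2) = -L.lin d := by
  unfold Lin.lin; ring

theorem Lin.at_add' (L : Lin) (P d : Pt) (t : ℤ) :
    L.at (P.1 + t * d.1, P.2 + t * d.2) = L.at P + t * L.lin d := L.at_add P d t

/-- if both linear parts vanish modulo `p` at a primitive vector, contradiction -/
theorem Fm.lin_ne {F : Fm} {p : ℕ} (hp : p.Prime) (hdet : ¬ (p : ℤ) ∣ F.det) {e : Pt}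
    (he : IsCoprime e.1 e.2) (h1 : (p : ℤ) ∣ F.X.lin e) (h2 : (p : ℤ) ∣ F.Y.lin e) : False := by
  have hp' : Prime (p : ℤ) := Nat.prime_iff_prime_int.1 hp
  have h3 : (p : ℤ) ∣ F.det * e.1 := by
    have : F.det * e.1 = F.Y.m * F.X.lin e - F.X.m * F.Y.lin e := by
      unfold Fm.det Lin.lin; ring
    rw [this]; exact dvd_sub (Dvd.dvd.mul_left h1 _) (Dvd.dvd.mul_left h2 _)
  have h4 : (p : ℤ) ∣ F.det * e.2 := by
    have : F.det * e.2 = F.X.l * F.Y.lin e - F.Y.l * F.X.lin e := by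
      unfold Fm.det Lin.lin; ring
    rw [this]; exact dvd_sub (Dvd.dvd.mul_left h2 _) (Dvd.dvd.mul_left h1 _)
  have h5 := (hp'.dvd_or_dvd h3).resolve_left hdet
  have h6 := (hp'.dvd_or_dvd h4).resolve_left hdet
  obtain ⟨a, b, hab⟩ := he
  have h7 : (p : ℤ) ∣ 1 := by
    rw [← hab]; exact dvd_add (Dvd.dvd.mul_left h5 _) (Dvd.dvd.mul_left h6 _)
  exact hp'.not_isUnit (isUnit_of_dvd_one h7)

/-- the configurations which have to be excluded -/
structure Bad (F : Fm) (p : ℕ) (P Q R : Pt) (e : Pt) (j t : ℤ) : Prop where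
  cop : IsCoprime e.1 e.2
  hQ : Q = (P.1 + p * j * e.1, P.2 + p * j * e.2)
  hR : R = (P.1 + t * e.1, P.2 + t * e.2)
  dv : (p : ℤ) ∣ t ∨ ((p : ℤ) ∣ F.X.lin e * F.Y.at P + F.Y.lin e * F.X.at R)

theorem Bad.neg {F : Fm} {p : ℕ} {P Q R : Pt} {e : Pt} {j t : ℤ} (h : Bad F p P Q R e j t) :
    Bad F p P Q R (-e.1, -e.2) (-j) (-t) where
  cop := h.cop.neg_left.neg_right
  hQ := by rw [h.hQ]; simp
  hR := by rw [h.hR]; simp
  dv := by
    rcases h.dv with h1 | h1
    · exact Or.inl (by simpa using h1)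
    · refine Or.inr ?_
      rw [Lin.lin_neg, Lin.lin_neg]
      have : -F.X.lin e * F.Y.at P + -F.Y.lin e * F.X.at R =
        -(F.X.lin e * F.Y.at P + F.Y.lin e * F.X.at R) := by ring
      rw [this]; exact (dvd_neg).2 h1

theorem Bad.swap {F : Fm} {p : ℕ} {P Q R : Pt} {e : Pt} {j t : ℤ} (h : Bad F p P Q R e j t) :
    Bad F p Q P R e (-j) (t - p * j) where
  cop := h.cop
  hQ := by rw [h.hQ]; ext <;> simp
  hR := by rw [h.hR, h.hQ]; ext <;> simp <;> ring
  dv := by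
    rcases h.dv with h1 | h1
    · exact Or.inl (dvd_sub h1 (Dvd.intro _ rfl))
    · refine Or.inr ?_
      rw [h.hQ, Lin.at_add]
      have : F.X.lin e * (F.Y.at P + p * j * F.Y.lin e) + F.Y.lin e * F.X.at R =
        (F.X.lin e * F.Y.at P + F.Y.lin e * F.X.at R) + p * (j * F.X.lin e * F.Y.lin e) := by ring
      rw [this]; exact dvd_add h1 (Dvd.intro _ rfl)

/-- three collinear points of one class `≠ 0`: two of them are congruent modulo `p` -/
theorem exists_bad {F : Fm} {p : ℕ} (hp : p.Prime) (hdet : ¬ (p : ℤ) ∣ F.det) {P Q R : Pt}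
    {κ : ZMod p} (hκ : κ ≠ 0) (hP : F.cls p P = κ) (hQ : F.cls p Q = κ) (hR : F.cls p R = κ)
    (hPQ : P ≠ Q) (hcol : col P Q R) : ∃ (e : Pt) (j t : ℤ),
      Bad F p P Q R e j t ∨ Bad F p P R Q e j t ∨ Bad F p Q R P e j t := by
  have hp' : Prime (p : ℤ) := Nat.prime_iff_prime_int.1 hp
  obtain ⟨g, e, t, -, he, hQ', hR'⟩ := exists_line hPQ hcol
  -- the class equations
  have hd : ∀ S T : Pt, F.cls p S = κ → F.cls p T = κ →
      (p : ℤ) ∣ F.X.at S * F.Y.at S - F.X.at T * F.Y.at T := by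
    intro S T hS hT
    unfold Fm.cls at hS hT
    rw [← ZMod.intCast_zmod_eq_zero_iff_dvd, Int.cast_sub, hS, hT, sub_self]
  have hn : ∀ S : Pt, F.cls p S = κ → ¬ (p : ℤ) ∣ F.X.at S * F.Y.at S := by
    intro S hS h
    unfold Fm.cls at hS
    rw [(ZMod.intCast_zmod_eq_zero_iff_dvd _ _).2 h] at hS
    exact hκ hS.symm
  have key : ∀ s : ℤ, F.cls p (P.1 + s * e.1, P.2 + s * e.2) = κ → (p : ℤ) ∣ s ∨
      (p : ℤ) ∣ F.X.lin e * F.Y.at P + F.Y.lin e * F.X.at P + s * (F.X.lin e * F.Y.lin e) := by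
    intro s hs
    have h1 := hd _ _ hs hP
    rw [Lin.at_add, Lin.at_add] at h1
    have h2 : (F.X.at P + s * F.X.lin e) * (F.Y.at P + s * F.Y.lin e) - F.X.at P * F.Y.at P =
      s * (F.X.lin e * F.Y.at P + F.Y.lin e * F.X.at P + s * (F.X.lin e * F.Y.lin e)) := by ring
    rw [h2] at h1
    exact hp'.dvd_or_dvd h1
  have key2 : ∀ s : ℤ, F.X.lin e * F.Y.at P + F.Y.lin e * F.X.at P + s * (F.X.lin e * F.Y.lin e) =
      F.X.lin e * F.Y.at P + F.Y.lin e * F.X.at (P.1 + s * e.1, P.2 + s * e.2) := by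
    intro s; rw [Lin.at_add]; ring
  have hg := key g (by rw [← hQ']; exact hQ)
  have ht := key t (by rw [← hR']; exact hR)
  rw [key2 g, ← hQ'] at hg
  rw [key2 t, ← hR'] at ht
  by_cases h1 : (p : ℤ) ∣ g
  · obtain ⟨j, hj⟩ := h1
    refine ⟨e, j, t, Or.inl ⟨he, by rw [hQ', hj], hR', ht⟩⟩
  by_cases h2 : (p : ℤ) ∣ t
  · obtain ⟨j, hj⟩ := h2
    refine ⟨e, j, g, Or.inr (Or.inl ⟨he, by rw [hR', hj], hQ', hg⟩)⟩
  have hg' := hg.resolve_left h1
  have ht' := ht.resolve_left h2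
  rw [hQ', ← key2 g] at hg'
  rw [hR', ← key2 t] at ht'
  have h3 : (p : ℤ) ∣ (t - g) * (F.X.lin e * F.Y.lin e) := by
    have := dvd_sub ht' hg'
    have h4 : F.X.lin e * F.Y.at P + F.Y.lin e * F.X.at P + t * (F.X.lin e * F.Y.lin e) -
      (F.X.lin e * F.Y.at P + F.Y.lin e * F.X.at P + g * (F.X.lin e * F.Y.lin e)) =
      (t - g) * (F.X.lin e * F.Y.lin e) := by ring
    rwa [h4] at this
  rcases hp'.dvd_or_dvd h3 with h4 | h4
  · obtain ⟨j, hj⟩ := h4
    refine ⟨e, j, -g, Or.inr (Or.inr ⟨he, ?_, ?_, Or.inr ?_⟩)⟩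
    · rw [hR', hQ', ← hj]; ext <;> simp <;> ring
    · rw [hQ']; ext <;> simp
    · rw [hQ', Lin.at_add]
      have h5 : F.X.lin e * (F.Y.at P + g * F.Y.lin e) + F.Y.lin e * F.X.at P =
        F.X.lin e * F.Y.at P + F.Y.lin e * F.X.at P + g * (F.X.lin e * F.Y.lin e) := by ring
      rw [h5]; exact hg'
  · exfalso
    have h5 : (p : ℤ) ∣ F.X.lin e * F.Y.at P + F.Y.lin e * F.X.at P := by
      have := dvd_sub hg' (Dvd.dvd.mul_left h4 (g : ℤ))
      simpa using this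
    rcases hp'.dvd_or_dvd h4 with h6 | h6
    · have h7 : (p : ℤ) ∣ F.Y.lin e * F.X.at P := by
        have := dvd_sub h5 (Dvd.dvd.mul_right h6 (F.Y.at P))
        simpa using this
      rcases hp'.dvd_or_dvd h7 with h8 | h8
      · exact Fm.lin_ne hp hdet he h6 h8
      · exact hn P hP (Dvd.dvd.mul_right h8 _)
    · have h7 : (p : ℤ) ∣ F.X.lin e * F.Y.at P := by
        have := dvd_sub h5 (Dvd.dvd.mul_right h6 (F.X.at P))
        simpa using this
      rcases hp'.dvd_or_dvd h7 with h8 | h8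
      · exact Fm.lin_ne hp hdet he h8 h6
      · exact hn P hP (Dvd.dvd.mul_left h8 _)

/-- the positive half of the directions -/
def Hf (e : Pt) : Prop := 0 < e.1 ∨ e.1 = 0 ∧ 0 < e.2

/-- no three translates of a point by multiples of `p` times `e` -/
def NoTr (K : Finset Pt) (p : ℕ) (e : Pt) : Prop :=
  ∀ P ∈ K, ∀ j k : ℤ, 0 < j → j < k → (P.1 + p * j * e.1, P.2 + p * j * e.2) ∈ K →
    (P.1 + p * k * e.1, P.2 + p * k * e.2) ∈ K → False

theorem NoTr.sym {K : Finset Pt} {p : ℕ} {e : Pt} (h : NoTr K p e) {P : Pt} {j k : ℤ}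
    (hj : j ≠ 0) (hk : k ≠ 0) (hjk : j ≠ k) (hP : P ∈ K)
    (hQ : (P.1 + p * j * e.1, P.2 + p * j * e.2) ∈ K)
    (hR : (P.1 + p * k * e.1, P.2 + p * k * e.2) ∈ K) : False := by
  have aux : ∀ a b c : ℤ, (P.1 + p * a * e.1, P.2 + p * a * e.2) ∈ K →
      (P.1 + p * b * e.1, P.2 + p * b * e.2) ∈ K → (P.1 + p * c * e.1, P.2 + p * c * e.2) ∈ K →
      a < b → b < c → False := by
    intro a b c ha hb hc hab hbc
    refine h _ ha (b - a) (c - a) (by omega) (by omega) ?_ ?_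
    · convert hb using 1; ext <;> simp <;> ring
    · convert hc using 1; ext <;> simp <;> ring
  have hP' : (P.1 + p * 0 * e.1, P.2 + p * 0 * e.2) ∈ K := by simpa using hP
  rcases lt_trichotomy j 0 with h1 | h1 | h1
  · rcases lt_trichotomy k 0 with h2 | h2 | h2
    · rcases lt_trichotomy j k with h3 | h3 | h3
      · exact aux j k 0 hQ hR hP' h3 h2
      · exact hjk h3
      · exact aux k j 0 hR hQ hP' h3 h1
    · exact hk h2
    · exact aux j 0 k hQ hP' hR h1 h2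
  · exact hj h1
  · rcases lt_trichotomy k 0 with h2 | h2 | h2
    · exact aux k 0 j hR hP' hQ h2 h1
    · exact hk h2
    · rcases lt_trichotomy j k with h3 | h3 | h3
      · exact aux 0 j k hP' hQ hR h1 h3
      · exact hjk h3
      · exact aux 0 k j hP' hR hQ h2 h3

/-- no companion of a pair of translates -/
def NoCo (F : Fm) (K : Finset Pt) (p : ℕ) (e : Pt) : Prop :=
  ∀ P ∈ K, ∀ j t : ℤ, 0 < j → (P.1 + p * j * e.1, P.2 + p * j * e.2) ∈ K →
    (P.1 + t * e.1, P.2 + t * e.2) ∈ K → F.X.lin e ≠ 0 → F.Y.lin e ≠ 0 →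
    (p : ℤ) ∣ F.X.lin e * F.Y.at P + F.Y.lin e * F.X.at (P.1 + t * e.1, P.2 + t * e.2) → False

theorem exists_hf {e : Pt} (he : IsCoprime e.1 e.2) : Hf e ∨ Hf (-e.1, -e.2) := by
  unfold Hf
  rcases lt_trichotomy e.1 0 with h | h | h
  · exact Or.inr (Or.inl (by simpa using h))
  · rcases lt_trichotomy e.2 0 with h2 | h2 | h2
    · exact Or.inr (Or.inr ⟨by simpa using h, by simpa using h2⟩)
    · rw [h, h2] at he
      obtain ⟨a, b, hab⟩ := he
      simp at hab
    · exact Or.inl (Or.inr ⟨h, h2⟩)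
  · exact Or.inl (Or.inl h)

/-- **The classes are in general position.** -/
theorem gp_of_no {F : Fm} {p : ℕ} (hp : p.Prime) (hdet : ¬ (p : ℤ) ∣ F.det) {K : Finset Pt}
    (hT : ∀ e : Pt, IsCoprime e.1 e.2 → Hf e → NoTr K p e)
    (hC : ∀ e : Pt, IsCoprime e.1 e.2 → Hf e → NoCo F K p e) (κ : ZMod p) (hκ : κ ≠ 0) :
    GP {P | P ∈ K ∧ F.cls p P = κ} := by
  have hp' : Prime (p : ℤ) := Nat.prime_iff_prime_int.1 hp
  have main : ∀ P Q R : Pt, P ∈ K → Q ∈ K → R ∈ K → F.cls p P = κ → F.cls p Q = κ →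
      F.cls p R = κ → P ≠ Q → P ≠ R → Q ≠ R → ∀ (e : Pt) (j t : ℤ), Bad F p P Q R e j t →
      False := by
    intro P Q R hP hQ hR cP cQ cR hPQ hPR hQR
    have hnx : ∀ S : Pt, F.cls p S = κ → ¬ (p : ℤ) ∣ F.X.at S ∧ ¬ (p : ℤ) ∣ F.Y.at S := by
      intro S hS
      have : ¬ (p : ℤ) ∣ F.X.at S * F.Y.at S := by
        intro h
        unfold Fm.cls at hS
        rw [(ZMod.intCast_zmod_eq_zero_iff_dvd _ _).2 h] at hS
        exact hκ hS.symm
      exact ⟨fun h => this (Dvd.dvd.mul_right h _), fun h => this (Dvd.dvd.mul_left h _)⟩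
    -- with the half plane condition and positivity
    have step : ∀ P Q : Pt, P ∈ K → Q ∈ K → F.cls p P = κ → F.cls p Q = κ → P ≠ Q → P ≠ R →
        Q ≠ R → ∀ (e : Pt) (j t : ℤ), Bad F p P Q R e j t → Hf e → 0 < j → False := by
      intro P Q hP hQ cP cQ hPQ hPR hQR e j t hb he hj
      by_cases ht : (p : ℤ) ∣ t
      · obtain ⟨k, hk⟩ := ht
        refine (hT e hb.cop he).sym (P := P) (j := j) (k := k) hj.ne' ?_ ?_ hP ?_ ?_
        · rintro rfl
          exact hPR (by rw [hb.hR, hk]; simp)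
        · rintro rfl
          exact hQR (by rw [hb.hR, hk, hb.hQ])
        · rw [← hb.hQ]; exact hQ
        · rw [← hk, ← hb.hR]; exact hR
      · have h1 := hb.dv.resolve_left ht
        have hlin : F.X.lin e ≠ 0 ∧ F.Y.lin e ≠ 0 := by
          constructor
          · intro h0
            rw [h0, zero_mul, zero_add] at h1
            rcases hp'.dvd_or_dvd h1 with h2 | h2
            · exact Fm.lin_ne hp hdet hb.cop (by rw [h0]; exact dvd_zero _) h2
            · exact (hnx R cR).1 h2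
          · intro h0
            rw [h0, zero_mul, add_zero] at h1
            rcases hp'.dvd_or_dvd h1 with h2 | h2
            · exact Fm.lin_ne hp hdet hb.cop h2 (by rw [h0]; exact dvd_zero _)
            · exact (hnx P cP).2 h2
        refine hC e hb.cop he P hP j t hj ?_ ?_ hlin.1 hlin.2 ?_
        · rw [← hb.hQ]; exact hQ
        · rw [← hb.hR]; exact hR
        · rw [← hb.hR]; exact h1
    have step2 : ∀ (e : Pt) (j t : ℤ), Bad F p P Q R e j t → 0 < j → Hf e → False := by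
      intro e j t hb hj he
      exact step P Q hP hQ cP cQ hPQ hPR hQR e j t hb he hj
    have step3 : ∀ (e : Pt) (j t : ℤ), Bad F p P Q R e j t → j < 0 → Hf e → False := by
      intro e j t hb hj he
      exact step Q P hQ hP cQ cP hPQ.symm hQR hPR e (-j) _ hb.swap he (by omega)
    intro e j t hb
    have hj0 : j ≠ 0 := by
      rintro rfl
      exact hPQ (by rw [hb.hQ]; simp)
    rcases exists_hf hb.cop with he | he
    · rcases lt_or_gt_of_ne hj0 with hj | hj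
      · exact step3 e j t hb hj he
      · exact step2 e j t hb hj he
    · rcases lt_or_gt_of_ne hj0 with hj | hj
      · exact step2 _ _ _ hb.neg (by omega) he
      · exact step3 _ _ _ hb.neg (by omega) he
  rintro P ⟨hP, cP⟩ Q ⟨hQ, cQ⟩ R ⟨hR, cR⟩ hPQ hPR hQR hcol
  obtain ⟨e, j, t, h | h | h⟩ := exists_bad hp hdet hκ cP cQ cR hPQ hcol
  · exact main P Q R hP hQ hR cP cQ cR hPQ hPR hQR e j t h
  · exact main P R Q hP hR hQ cP cR cQ hPR hPQ hQR.symm e j t h
  · exact main Q R P hQ hR hP cQ cR cP hQR hPQ.symm hPR.symm e j t h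

end Pool.Agent.Helper7.GPC
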