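import Pool.Agent.Helper7.GPC.Mask

/-!
# The family `x y`
-/

open Finset

namespace Pool.Agent.Helper7.GPC

/-- the first constant -/
def cc1 (W n T1 T2 : ℤ) : ℤ := 2 * (T1 - T2) * n / (4 * W)

/-- the second constant -/
def cc2 (W n T1 T2 : ℤ) : ℤ := (2 * (T1 + T2) + 2) * n / (4 * W)

theorem cen_add {W n T1 T2 : ℤ} (hW : 0 < W) :
    Cen W n (cc1 W n T1 T2 + cc2 W n T1 T2) (4 * T1 + 2) := by
  have h1 := Int.mul_ediv_self_le (x := 2 * (T1 - T2) * n) (k := 4 * W) (by omega)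
  have h2 := Int.lt_mul_ediv_self_add (x := 2 * (T1 - T2) * n) (k := 4 * W) (by omega)
  have h3 := Int.mul_ediv_self_le (x := (2 * (T1 + T2) + 2) * n) (k := 4 * W) (by omega)
  have h4 := Int.lt_mul_ediv_self_add (x := (2 * (T1 + T2) + 2) * n) (k := 4 * W) (by omega)
  unfold Cen cc1 cc2
  constructor <;> linarith

theorem cen_sub {W n T1 T2 : ℤ} (hW : 0 < W) :
    Cen W n (cc2 W n T1 T2 - cc1 W n T1 T2) (4 * T2 + 2) := by
  have h1 := Int.mul_ediv_self_le (x := 2 * (T1 - T2) * n) (k := 4 * W) (by omega)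
  have h2 := Int.lt_mul_ediv_self_add (x := 2 * (T1 - T2) * n) (k := 4 * W) (by omega)
  have h3 := Int.mul_ediv_self_le (x := (2 * (T1 + T2) + 2) * n) (k := 4 * W) (by omega)
  have h4 := Int.lt_mul_ediv_self_add (x := (2 * (T1 + T2) + 2) * n) (k := 4 * W) (by omega)
  unfold Cen cc1 cc2
  constructor <;> linarith

theorem cc1_le {W m p n T1 T2 : ℤ} (h : Sc W m p n) (h1 : -(2 * W) ≤ T1) (h2 : T1 < 2 * W)
    (h3 : -(2 * W) ≤ T2) (h4 : T2 < 2 * W) : |cc1 W n T1 T2| ≤ 4 * n := by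
  have hn := h.npos
  have hW := h.W0
  have hn0 := h.n0
  have e1 := Int.mul_ediv_self_le (x := 2 * (T1 - T2) * n) (k := 4 * W) (by omega)
  have e2 := Int.lt_mul_ediv_self_add (x := 2 * (T1 - T2) * n) (k := 4 * W) (by omega)
  unfold cc1
  set c := 2 * (T1 - T2) * n / (4 * W)
  rw [abs_le]
  constructor
  · have h5 : 4 * W * (-(4 * n)) ≤ 4 * W * c := by
      have h6 : -(8 * W) * n ≤ 2 * (T1 - T2) * n := mul_le_mul_of_nonneg_right (by omega) hn.le
      nlinarith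
    exact le_of_mul_le_mul_left h5 (by omega)
  · have h5 : 4 * W * c ≤ 4 * W * (4 * n) := by
      have h6 : 2 * (T1 - T2) * n ≤ 8 * W * n := mul_le_mul_of_nonneg_right (by omega) hn.le
      nlinarith
    exact le_of_mul_le_mul_left h5 (by omega)

theorem cc2_le {W m p n T1 T2 : ℤ} (h : Sc W m p n) (h1 : -(2 * W) ≤ T1) (h2 : T1 < 2 * W)
    (h3 : -(2 * W) ≤ T2) (h4 : T2 < 2 * W) : |cc2 W n T1 T2| ≤ 4 * n := by
  have hn := h.npos
  have hW := h.W0
  have hn0 := h.n0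
  have e1 := Int.mul_ediv_self_le (x := (2 * (T1 + T2) + 2) * n) (k := 4 * W) (by omega)
  have e2 := Int.lt_mul_ediv_self_add (x := (2 * (T1 + T2) + 2) * n) (k := 4 * W) (by omega)
  unfold cc2
  set c := (2 * (T1 + T2) + 2) * n / (4 * W)
  rw [abs_le]
  constructor
  · have h5 : 4 * W * (-(4 * n)) ≤ 4 * W * c := by
      have h6 : -(8 * W) * n ≤ (2 * (T1 + T2) + 2) * n :=
        mul_le_mul_of_nonneg_right (by omega) hn.le
      nlinarith
    exact le_of_mul_le_mul_left h5 (by omega)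
  · have h5 : 4 * W * c ≤ 4 * W * (4 * n) := by
      have h6 : (2 * (T1 + T2) + 2) * n ≤ 8 * W * n :=
        mul_le_mul_of_nonneg_right (by omega) hn.le
      nlinarith
    exact le_of_mul_le_mul_left h5 (by omega)

/-- the family `x y` -/
def fmA (c1 c2 : ℤ) : Fm := ⟨⟨1, 0, c1⟩, ⟨0, 1, c2⟩⟩

/-- one check for the family `x y` -/
def PA (W m S M N1 N2 : ℕ) (T1 T2 : ℤ) (k o1 o2 u v : ℕ) : Prop :=
  o2 ≤ u → o1 ≤ v →
    chk2 M N1 (((m : ℤ) + o1) * S + (m + o2))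
      ((W - 1 - (((k : ℤ) - 14) * m + T1 - v)) * S + (W - 1 - (((k : ℤ) - 14) * m + T1 - u)))
        = true ∧
    chk2 M N2 (((m : ℤ) + o1) * S - (m + o2))
      ((((k : ℤ) - 14) * m + T2 + v) * S - (((k : ℤ) - 14) * m + T2 + u)) = true

instance (W m S M N1 N2 : ℕ) (T1 T2 : ℤ) (k o1 o2 u v : ℕ) :
    Decidable (PA W m S M N1 N2 T1 T2 k o1 o2 u v) := by
  unfold PA; infer_instance

/-- the check for the family `x y` -/
def ChkA (W m S M N1 N2 : ℕ) (T1 T2 : ℤ) : Prop :=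
  ∀ k < (29 : ℕ), ∀ o1 < (2 : ℕ), ∀ o2 < (2 : ℕ), ∀ u < (2 : ℕ), ∀ v < (2 : ℕ),
    PA W m S M N1 N2 T1 T2 k o1 o2 u v

instance (W m S M N1 N2 : ℕ) (T1 T2 : ℤ) : Decidable (ChkA W m S M N1 N2 T1 T2) := by
  unfold ChkA; infer_instance

theorem abs_mul_lt {p n a b c : ℤ} (hp : 0 < p) (hk : n ≤ c * p) (ha : 0 ≤ a) (ha' : a < n)
    (hb : 0 ≤ b) (hb' : b < n) {d : ℤ} (hd : b = a + p * d) : -c < d ∧ d < c := by
  constructor
  · by_contra h
    have : p * d ≤ p * (-c) := mul_le_mul_of_nonneg_left (by omega) hp.le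
    have e : p * (-c) = -(c * p) := by ring
    rw [e] at this
    omega
  · by_contra h
    have : p * c ≤ p * d := mul_le_mul_of_nonneg_left (by omega) hp.le
    rw [mul_comm p c] at this
    omega

theorem Sc.pos {W m p n : ℤ} (h : Sc W m p n) : 0 < p := by
  have hn := h.npos
  have h1 : W * 0 < W * p := by
    have := h.lo
    have h2 : 0 < m * n := mul_pos h.m0 hn
    rw [mul_zero]; omega
  exact lt_of_mul_lt_mul_left h1 h.W0.le

theorem Sc.mul_lt {W m p n : ℤ} (h : Sc W m p n) {c : ℤ} (hc : 0 ≤ c) (hcm : W ≤ c * m) :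
    n ≤ c * p := by
  have hn := h.npos
  have h1 : W * n ≤ W * (c * p) := by
    have h2 := h.lo
    have h3 : W * n ≤ c * m * n := mul_le_mul_of_nonneg_right hcm hn.le
    have h4 : c * (m * n) ≤ c * (W * p) := mul_le_mul_of_nonneg_left h2.le hc
    linarith
  exact le_of_mul_le_mul_left h1 h.W0

theorem mem_cell {W S M n : ℕ} (hW : 0 < W) {P : Pt} (h : P ∈ KS W S M n) :
    (0 ≤ P.1 ∧ P.1 < n ∧ 0 ≤ P.2 ∧ P.2 < n) ∧ (0 ≤ cell W n P.1 ∧ cell W n P.1 < W) ∧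
      (0 ≤ cell W n P.2 ∧ cell W n P.2 < W) ∧ kb S M (cell W n P.1) (cell W n P.2) := by
  rw [mem_KS] at h
  obtain ⟨⟨h1, h2, h3, h4⟩, h5⟩ := h
  exact ⟨⟨h1, h2, h3, h4⟩, cell_range (by exact_mod_cast hW) h1 h2,
    cell_range (by exact_mod_cast hW) h3 h4, h5⟩

theorem kb_tr {W S M N : ℕ} {f g : ℕ → ℕ → ℕ} (h : Tr W S M N f g) {a b : ℤ} (ha : 0 ≤ a)
    (ha' : a < W) (_hb : 0 ≤ b) (hb' : b < W) (hk : kb S M a b) {c d : ℤ}
    (hc : c = f a.toNat b.toNat) (hd : d = g a.toNat b.toNat) : kb S N c d := by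
  have h1 := h a.toNat (by omega) b.toNat (by omega) hk
  unfold kb
  rw [hc, hd, Int.toNat_natCast, Int.toNat_natCast]
  exact h1

theorem noTrA {W m S M n p : ℕ} (hsc : Sc W m p n) (hm : W ≤ 2 * m) {e : Pt} (he : Hf e) :
    NoTr (KS W S M n) p e := by
  intro P hP j k hj hjk hQ hR
  have hW : 0 < W := by exact_mod_cast hsc.W0
  obtain ⟨⟨h1, h2, h3, h4⟩, -, -, -⟩ := mem_cell hW hP
  obtain ⟨⟨g1, g2, g3, g4⟩, -, -, -⟩ := mem_cell hW hR
  have hp := hsc.pos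
  have hn2 : (n : ℤ) ≤ 2 * p := hsc.mul_lt (by norm_num) (by exact_mod_cast hm)
  have e1 := abs_mul_lt hp hn2 h1 h2 g1 g2 (d := k * e.1) (by ring)
  have e2 := abs_mul_lt hp hn2 h3 h4 g3 g4 (d := k * e.2) (by ring)
  rcases he with he | ⟨-, he⟩
  · nlinarith
  · nlinarith

theorem fmA_det (c1 c2 : ℤ) : (fmA c1 c2).det = 1 := by
  unfold fmA Fm.det; norm_num

theorem mem_cell2 {W S M n : ℕ} (hW : 0 < W) {x y : ℤ} (h : (x, y) ∈ KS W S M n) :
    (0 ≤ x ∧ x < n ∧ 0 ≤ y ∧ y < n) ∧ (0 ≤ cell W n x ∧ cell W n x < W) ∧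
      (0 ≤ cell W n y ∧ cell W n y < W) ∧ kb S M (cell W n x) (cell W n y) :=
  mem_cell hW h

theorem noCoA {W m S M N1 N2 n p : ℕ} {T1 T2 : ℤ} (hsc : Sc W m p n) (hm : W ≤ 2 * m)
    (h1 : -(2 * (W : ℤ)) ≤ T1) (h2 : T1 < 2 * W) (h3 : -(2 * (W : ℤ)) ≤ T2) (h4 : T2 < 2 * W)
    (hN1 : Tr W S M N1 (fun _ b => W - 1 - b) (fun a _ => W - 1 - a))
    (hN2 : Tr W S M N2 (fun _ b => b) (fun a _ => a)) (hchk : ChkA W m S M N1 N2 T1 T2) {e : Pt}
    (he : Hf e) : NoCo (fmA (cc1 W n T1 T2) (cc2 W n T1 T2)) (KS W S M n) p e := by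
  rintro ⟨x, y⟩ hP j t hj hQ hR hX hY hdvd
  obtain ⟨e1, e2⟩ := e
  have hW : 0 < W := by exact_mod_cast hsc.W0
  have hX' : e1 ≠ 0 := by
    intro h; apply hX; unfold fmA Lin.lin; simp [h]
  have hY' : e2 ≠ 0 := by
    intro h; apply hY; unfold fmA Lin.lin; simp [h]
  simp only at hQ hR
  obtain ⟨κ, hκ⟩ := hdvd
  unfold fmA Lin.lin Lin.at at hκ
  simp only at hκ
  clear hX hY
  obtain ⟨⟨p1, p2, p3, p4⟩, ⟨pa0, pa1⟩, ⟨pb0, pb1⟩, kP⟩ := mem_cell2 hW hP
  obtain ⟨⟨q1, q2, q3, q4⟩, ⟨qa0, qa1⟩, ⟨qb0, qb1⟩, kQ⟩ := mem_cell2 hW hQ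
  obtain ⟨⟨r1, r2, r3, r4⟩, ⟨ra0, ra1⟩, ⟨rb0, rb1⟩, kR⟩ := mem_cell2 hW hR
  have hp := hsc.pos
  have hn := hsc.npos
  have hn2 : (n : ℤ) ≤ 2 * p := hsc.mul_lt (by norm_num) (by exact_mod_cast hm)
  have b1 := abs_mul_lt hp hn2 p1 p2 q1 q2 (d := j * e1) (by ring)
  have b2 := abs_mul_lt hp hn2 p3 p4 q3 q4 (d := j * e2) (by ring)
  have he1 : 0 < e1 := by
    rcases he with he | ⟨he, -⟩
    · exact he
    · exact absurd he hX'
  have he1' : e1 = 1 := by nlinarith [b1.2]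
  subst he1'
  have hj1 : j = 1 := by omega
  subst hj1
  have he2 : e2 = 1 ∨ e2 = -1 := by omega
  obtain ⟨o1, ho1, -, co1, no1⟩ := shift_pos hsc (x := x) (d := 1) (by norm_num) (by norm_num)
  have hc1 := cen_add (n := n) (T1 := T1) (T2 := T2) hsc.W0
  have hc2 := cen_sub (n := n) (T1 := T1) (T2 := T2) hsc.W0
  have tr0 : ∀ x : ℤ, 128 * ((n : ℤ) * (cell W n x + (0 : ℕ))) ≤ 128 * (W * x) + n := by
    intro x
    have := cell_le (W := W) hn x
    push_cast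
    rw [add_zero]
    linarith
  have tr1 : ∀ x : ℤ, 128 * ((W : ℤ) * x) ≤ 128 * (n * (cell W n x + 1 - (0 : ℕ))) + n := by
    intro x
    have := lt_cell (W := W) hn x
    push_cast
    rw [sub_zero, mul_add, mul_one]
    linarith
  have f1 : (p : ℤ) * 1 * 1 = p * 1 := by ring
  have f2 : (p : ℤ) * 1 * -1 = p * -1 := by ring
  rcases he2 with rfl | rfl
  · -- direction `(1, 1)`
    obtain ⟨o2, ho2, -, co2, no2⟩ := shift_pos hsc (x := y) (d := 1) (by norm_num) (by norm_num)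
    have hκ' : (x + t * 1) + y = κ * p + (cc1 W n T1 T2 + cc2 W n T1 T2) := by linarith
    have hk := kbound hsc h1 h2 (by linarith) (by linarith) hκ' hc1
    obtain ⟨w11, w12⟩ := win_sum hsc hk.1 hk.2 (u := y) (v := x + t * 1) (by linarith) hc1 no2
    obtain ⟨w21, w22⟩ := win_sum hsc hk.1 hk.2 (u := x) (v := y + t * 1) (by linarith) hc1 no1
    have hkm := hchk (κ + 14).toNat (by omega) o1 ho1 o2 ho2
      (κ * m + T1 - (cell W n y + cell W n (x + t * 1))).toNat (by omega)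
      (κ * m + T1 - (cell W n x + cell W n (y + t * 1))).toNat (by omega) (by omega) (by omega)
    have hk14 : (((κ + 14).toNat : ℕ) : ℤ) - 14 = κ := by omega
    rw [hk14, Int.toNat_of_nonneg (by omega), Int.toNat_of_nonneg (by omega)] at hkm
    have kN : kb S N1 ((W : ℤ) - 1 - cell W n (y + t * 1)) (W - 1 - cell W n (x + t * 1)) :=
      kb_tr hN1 ra0 ra1 rb0 rb1 kR (by omega) (by omega)
    refine kb_triple hkm.1 pa0 pb0 qa0 qb0 (by omega) (by omega) kP kQ kN ?_ ?_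
    · rw [f1, co1, co2]; ring
    · ring
  · -- direction `(1, -1)`
    obtain ⟨o2, ho2, co2, no2⟩ := shift_neg hsc (x := y) (d := 1) (by norm_num) (by norm_num)
    have hκ' : y - (x + t * 1) = κ * p + (cc2 W n T1 T2 - cc1 W n T1 T2) := by linarith
    have hk := kbound hsc h3 h4 (by linarith) (by linarith) hκ' hc2
    obtain ⟨-, w12, w13⟩ := win_diff hsc hk.1 hk.2 (u := x + t * 1) (v := y) hκ' hc2 (tr0 _) no2
    obtain ⟨w21, -, w23⟩ := win_diff hsc hk.1 hk.2 (u := x) (v := y + t * -1) (by linarith) hc2 no1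
      (tr1 _)
    have hkm := hchk (κ + 14).toNat (by omega) o1 ho1 o2 ho2
      (cell W n y - cell W n (x + t * 1) - (κ * m + T2)).toNat (by omega)
      (cell W n (y + t * -1) - cell W n x - (κ * m + T2)).toNat (by omega) (by omega)
      (by omega)
    have hk14 : (((κ + 14).toNat : ℕ) : ℤ) - 14 = κ := by omega
    rw [hk14, Int.toNat_of_nonneg (by omega), Int.toNat_of_nonneg (by omega)] at hkm
    have kN : kb S N2 (cell W n (y + t * -1)) (cell W n (x + t * 1)) :=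
      kb_tr hN2 ra0 ra1 rb0 rb1 kR (by omega) (by omega)
    refine kb_triple hkm.2 pa0 pb0 qa0 qb0 (by omega) (by omega) kP kQ kN ?_ ?_
    · rw [f1, f2, co1, co2]; ring
    · ring

theorem isCoprime_01 : IsCoprime (0 : ℤ) 1 := isCoprime_one_right

theorem validA {W m S M N1 N2 n p : ℕ} {T1 T2 : ℤ} (hpp : p.Prime) (hsc : Sc W m p n)
    (hm : W ≤ 2 * m) (h1 : -(2 * (W : ℤ)) ≤ T1) (h2 : T1 < 2 * W) (h3 : -(2 * (W : ℤ)) ≤ T2)
    (h4 : T2 < 2 * W) (hN1 : Tr W S M N1 (fun _ b => W - 1 - b) (fun a _ => W - 1 - a))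
    (hN2 : Tr W S M N2 (fun _ b => b) (fun a _ => a)) (hchk : ChkA W m S M N1 N2 T1 T2) :
    Valid (fmA (cc1 W n T1 T2) (cc2 W n T1 T2)) p n (KS W S M n) where
  det := by rw [fmA_det]; norm_num
  X := ⟨by simp [fmA], by simp [fmA], cc1_le hsc h1 h2 h3 h4⟩
  Y := ⟨by simp [fmA], by simp [fmA], cc2_le hsc h1 h2 h3 h4⟩
  sq := fun P hP => (mem_KS.1 hP).1
  gp := gp_of_no hpp (by
      rw [fmA_det]
      intro h
      exact (Nat.prime_iff_prime_int.1 hpp).not_isUnit (isUnit_of_dvd_one h))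
    (fun e _ he => noTrA hsc hm he) (fun e _ he => noCoA hsc hm h1 h2 h3 h4 hN1 hN2 hchk he)
  isoX := by
    intro P hP Q hQ R hR hPQ hPR hQR _ hX1 hX2 hY1 hY2
    obtain ⟨j, hj⟩ := hY1
    obtain ⟨k, hk⟩ := hY2
    unfold fmA Lin.at at hX1 hX2 hj hk
    simp only at hX1 hX2 hj hk
    have hQ' : Q = (P.1 + p * j * (0, 1).1, P.2 + p * j * (0, 1).2) := by
      ext
      · simp; linarith
      · simp; linarith
    have hR' : R = (P.1 + p * k * (0, 1).1, P.2 + p * k * (0, 1).2) := by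
      ext
      · simp; linarith
      · simp; linarith
    refine (noTrA (S := S) (M := M) hsc hm (e := (0, 1)) (Or.inr ⟨rfl, one_pos⟩)).sym (P := P)
      (j := j) (k := k) ?_ ?_ ?_ hP (by rw [← hQ']; exact hQ) (by rw [← hR']; exact hR)
    · rintro rfl
      exact hPQ (by rw [hQ']; simp)
    · rintro rfl
      exact hPR (by rw [hR']; simp)
    · rintro rfl
      exact hQR (by rw [hQ', hR'])
  isoY := by
    intro P hP Q hQ R hR hPQ hPR hQR _ hX1 hX2 hY1 hY2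
    obtain ⟨j, hj⟩ := hY1
    obtain ⟨k, hk⟩ := hY2
    unfold fmA Lin.at at hX1 hX2 hj hk
    simp only at hX1 hX2 hj hk
    have hQ' : Q = (P.1 + p * j * (1, 0).1, P.2 + p * j * (1, 0).2) := by
      ext
      · simp; linarith
      · simp; linarith
    have hR' : R = (P.1 + p * k * (1, 0).1, P.2 + p * k * (1, 0).2) := by
      ext
      · simp; linarith
      · simp; linarith
    refine (noTrA (S := S) (M := M) hsc hm (e := (1, 0)) (Or.inl one_pos)).sym (P := P)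
      (j := j) (k := k) ?_ ?_ ?_ hP (by rw [← hQ']; exact hQ) (by rw [← hR']; exact hR)
    · rintro rfl
      exact hPQ (by rw [hQ']; simp)
    · rintro rfl
      exact hPR (by rw [hR']; simp)
    · rintro rfl
      exact hQR (by rw [hQ', hR'])

end Pool.Agent.Helper7.GPC
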