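import Pool.Agent.Helper7.GPC.ValidA

/-!
# The family `(x - y) (x + y)`
-/

open Finset

namespace Pool.Agent.Helper7.GPC

/-- the family `(x - y) (x + y)` -/
def fmB (c1 c2 : ℤ) : Fm := ⟨⟨1, -1, c1⟩, ⟨1, 1, c2⟩⟩

theorem fmB_det (c1 c2 : ℤ) : (fmB c1 c2).det = 2 := by
  unfold fmB Fm.det; norm_num

/-- companions -/
def PB1 (W m S M NX NY : ℕ) (T1 T2 : ℤ) (k j o u : ℕ) : Prop :=
  o ≤ u →
    chk2 M NX ((((j : ℤ) + 1) * m + o) * S) ((W - 1 - (((k : ℤ) - 14) * m + T1 - u)) * S) = true ∧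
    (0 ≤ ((k : ℤ) - 14) * m + T2 - u → ((k : ℤ) - 14) * m + T2 - u < 2 * W →
      chk2 M NY (((j : ℤ) + 1) * m + o) (W - 1 - (((k : ℤ) - 14) * m + T2 - u)) = true)

instance (W m S M NX NY : ℕ) (T1 T2 : ℤ) (k j o u : ℕ) :
    Decidable (PB1 W m S M NX NY T1 T2 k j o u) := by
  unfold PB1; infer_instance

/-- pairs -/
def PB2 (m S M : ℕ) (o1 o2 : ℕ) : Prop :=
  chk1 M (((m : ℤ) + o1) * S + (2 * m + o2)) = true ∧
  chk1 M ((2 * (m : ℤ) + o1) * S + (m + o2)) = true ∧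
  chk1 M (((m : ℤ) + o1) * S - (2 * m + o2)) = true ∧
  chk1 M ((2 * (m : ℤ) + o1) * S - (m + o2)) = true

instance (m S M o1 o2 : ℕ) : Decidable (PB2 m S M o1 o2) := by
  unfold PB2; infer_instance

/-- triples -/
def PB3 (m S M : ℕ) (o1 o2 p1 p2 : ℕ) : Prop :=
  o1 ≤ p1 → o2 ≤ p2 →
    chk2 M M (((m : ℤ) + o1) * S) ((2 * (m : ℤ) + p1) * S) = true ∧
    chk2 M M ((m : ℤ) + o1) (2 * (m : ℤ) + p1) = true ∧
    chk2 M M (((m : ℤ) + o1) * S + (m + o2)) ((2 * (m : ℤ) + p1) * S + (2 * m + p2)) = true ∧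
    chk2 M M (((m : ℤ) + o1) * S - (m + o2)) ((2 * (m : ℤ) + p1) * S - (2 * m + p2)) = true

instance (m S M o1 o2 p1 p2 : ℕ) : Decidable (PB3 m S M o1 o2 p1 p2) := by
  unfold PB3; infer_instance

/-- the check for the family `(x - y) (x + y)` -/
structure ChkB (W m S M NX NY : ℕ) (T1 T2 : ℤ) : Prop where
  c1 : ∀ k < (29 : ℕ), ∀ j < (2 : ℕ), ∀ o < (2 : ℕ), ∀ u < (2 : ℕ), PB1 W m S M NX NY T1 T2 k j o u
  c2 : ∀ o1 < (2 : ℕ), ∀ o2 < (2 : ℕ), PB2 m S M o1 o2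
  c3 : ∀ o1 < (2 : ℕ), ∀ o2 < (2 : ℕ), ∀ p1 < (2 : ℕ), ∀ p2 < (2 : ℕ), PB3 m S M o1 o2 p1 p2

theorem noTrB {W m S M n p : ℕ} (hsc : Sc W m p n)
    (hc3 : ∀ o1 < (2 : ℕ), ∀ o2 < (2 : ℕ), ∀ p1 < (2 : ℕ), ∀ p2 < (2 : ℕ), PB3 m S M o1 o2 p1 p2)
    {e : Pt} (he : Hf e) : NoTr (KS W S M n) p e := by
  rintro ⟨x, y⟩ hP j k hj hjk hQ hR
  obtain ⟨e1, e2⟩ := e
  have hW : 0 < W := by exact_mod_cast hsc.W0
  simp only at hQ hR
  obtain ⟨⟨p1, p2, p3, p4⟩, ⟨pa0, pa1⟩, ⟨pb0, pb1⟩, kP⟩ := mem_cell2 hW hP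
  obtain ⟨⟨q1, q2, q3, q4⟩, ⟨qa0, qa1⟩, ⟨qb0, qb1⟩, kQ⟩ := mem_cell2 hW hQ
  obtain ⟨⟨r1, r2, r3, r4⟩, ⟨ra0, ra1⟩, ⟨rb0, rb1⟩, kR⟩ := mem_cell2 hW hR
  have hp := hsc.pos
  have hn3 : (n : ℤ) ≤ 3 * p := hsc.mul_lt (by norm_num) hsc.W3
  have b1 := abs_mul_lt hp hn3 p1 p2 r1 r2 (d := k * e1) (by ring)
  have b2 := abs_mul_lt hp hn3 p3 p4 r3 r4 (d := k * e2) (by ring)
  -- `k = 2`
  have hk2 : k = 2 := by
    rcases he with he | ⟨-, he⟩
    · simp only at he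
      nlinarith [b1.2]
    · simp only at he
      nlinarith [b2.2]
  subst hk2
  have hj1 : j = 1 := by omega
  subst hj1
  obtain ⟨o1, ho1, -, co1, -⟩ := shift_pos hsc (x := x) (d := 1) (by norm_num) (by norm_num)
  obtain ⟨o2, ho2, -, co2, -⟩ := shift_pos hsc (x := y) (d := 1) (by norm_num) (by norm_num)
  obtain ⟨u1, hu1, -, cu1, -⟩ := shift_pos hsc (x := x) (d := 2) (by norm_num) (by norm_num)
  obtain ⟨u2, hu2, -, cu2, -⟩ := shift_pos hsc (x := y) (d := 2) (by norm_num) (by norm_num)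
  obtain ⟨o2', ho2', co2', -⟩ := shift_neg hsc (x := y) (d := 1) (by norm_num) (by norm_num)
  obtain ⟨u2', hu2', cu2', -⟩ := shift_neg hsc (x := y) (d := 2) (by norm_num) (by norm_num)
  have m1 := shift_mono hsc (by norm_num) co1 cu1
  have m2 := shift_mono hsc (by norm_num) co2 cu2
  have m2' := shift_mono_neg hsc (by norm_num) co2' cu2'
  have h1 := hc3 o1 ho1 o2 ho2 u1 hu1 u2 hu2 m1 m2
  have h2 := hc3 o1 ho1 o2' ho2' u1 hu1 u2' hu2' m1 m2'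
  have h3 := hc3 o2 ho2 o2 ho2 u2 hu2 u2 hu2 m2 m2
  have g0 : ∀ z c : ℤ, z + p * c * 0 = z := by intro z c; ring
  have g1 : ∀ z c : ℤ, z + p * c * 1 = z + p * c := by intro z c; ring
  have g2 : ∀ z c : ℤ, z + p * c * -1 = z + p * -c := by intro z c; ring
  have he' : (e1 = 1 ∧ e2 = 0) ∨ (e1 = 0 ∧ e2 = 1) ∨ (e1 = 1 ∧ e2 = 1) ∨ (e1 = 1 ∧ e2 = -1) := by
    rcases he with he | ⟨he, he2⟩
    · simp only at he
      omega
    · simp only at he he2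
      omega
  rcases he' with ⟨rfl, rfl⟩ | ⟨rfl, rfl⟩ | ⟨rfl, rfl⟩ | ⟨rfl, rfl⟩
  · simp only [g0, g1] at kQ kR qa0 qb0 ra0 rb0
    refine kb_triple h1.1 pa0 pb0 qa0 qb0 ra0 rb0 kP kQ kR ?_ ?_
    · rw [co1]; ring
    · rw [cu1]; ring
  · simp only [g0, g1] at kQ kR qa0 qb0 ra0 rb0
    refine kb_triple h3.2.1 pa0 pb0 qa0 qb0 ra0 rb0 kP kQ kR ?_ ?_
    · rw [co2]; ring
    · rw [cu2]; ring
  · simp only [g1] at kQ kR qa0 qb0 ra0 rb0
    refine kb_triple h1.2.2.1 pa0 pb0 qa0 qb0 ra0 rb0 kP kQ kR ?_ ?_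
    · rw [co1, co2]; ring
    · rw [cu1, cu2]; ring
  · simp only [g1, g2] at kQ kR qa0 qb0 ra0 rb0
    refine kb_triple h2.2.2.2 pa0 pb0 qa0 qb0 ra0 rb0 kP kQ kR ?_ ?_
    · rw [co1, co2']; ring
    · rw [cu1, cu2']; ring

theorem not_cop_22 {a b : ℤ} (h : IsCoprime a b) (ha : (2 : ℤ) ∣ a) (hb : (2 : ℤ) ∣ b) : False := by
  have := h.isUnit_of_dvd' ha hb
  rw [Int.isUnit_iff] at this
  omega

theorem noCoB {W m S M NX NY n p : ℕ} {T1 T2 : ℤ} (hsc : Sc W m p n)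
    (h1 : -(2 * (W : ℤ)) ≤ T1) (h2 : T1 < 2 * W) (h3 : -(2 * (W : ℤ)) ≤ T2) (h4 : T2 < 2 * W)
    (hNX : Tr W S M NX (fun a _ => W - 1 - a) (fun _ b => b))
    (hNY : Tr W S M NY (fun a _ => a) (fun _ b => W - 1 - b)) (hchk : ChkB W m S M NX NY T1 T2)
    {e : Pt} (hcop : IsCoprime e.1 e.2) (he : Hf e) :
    NoCo (fmB (cc1 W n T1 T2) (cc2 W n T1 T2)) (KS W S M n) p e := by
  rintro ⟨x, y⟩ hP j t hj hQ hR hX hY hdvd
  obtain ⟨e1, e2⟩ := e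
  have hW : 0 < W := by exact_mod_cast hsc.W0
  unfold fmB Lin.lin at hX hY
  obtain ⟨κ, hκ⟩ := hdvd
  unfold fmB Lin.lin Lin.at at hκ
  simp only at hκ hX hY hQ hR hcop
  have hX' : e1 ≠ e2 := by
    intro h; apply hX; rw [h]; ring
  have hY' : e1 ≠ -e2 := by
    intro h; apply hY; rw [h]; ring
  clear hX hY
  obtain ⟨⟨p1, p2, p3, p4⟩, ⟨pa0, pa1⟩, ⟨pb0, pb1⟩, kP⟩ := mem_cell2 hW hP
  obtain ⟨⟨q1, q2, q3, q4⟩, ⟨qa0, qa1⟩, ⟨qb0, qb1⟩, kQ⟩ := mem_cell2 hW hQ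
  obtain ⟨⟨r1, r2, r3, r4⟩, ⟨ra0, ra1⟩, ⟨rb0, rb1⟩, kR⟩ := mem_cell2 hW hR
  have hp := hsc.pos
  have hn := hsc.npos
  have hn3 : (n : ℤ) ≤ 3 * p := hsc.mul_lt (by norm_num) hsc.W3
  have b1 := abs_mul_lt hp hn3 p1 p2 q1 q2 (d := j * e1) (by ring)
  have b2 := abs_mul_lt hp hn3 p3 p4 q3 q4 (d := j * e2) (by ring)
  have hc1 := cen_add (n := n) (T1 := T1) (T2 := T2) hsc.W0
  have hc2 := cen_sub (n := n) (T1 := T1) (T2 := T2) hsc.W0
  have g0 : ∀ z c : ℤ, z + p * c * 0 = z := by intro z c; ring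
  have g1 : ∀ z c : ℤ, z + p * c * 1 = z + p * c := by intro z c; ring
  have g2 : ∀ z c : ℤ, z + p * c * -1 = z + p * -c := by intro z c; ring
  have g3 : ∀ z : ℤ, z + p * 1 * 2 = z + p * 2 := by intro z; ring
  have g4 : ∀ z : ℤ, z + p * 1 * -2 = z + p * -2 := by intro z; ring
  -- the cases
  have key : (e1 = 1 ∧ e2 = 0) ∨ (e1 = 0 ∧ e2 = 1) ∨ (j = 1 ∧ ((e1 = 1 ∧ e2 = 2) ∨
      (e1 = 2 ∧ e2 = 1) ∨ (e1 = 1 ∧ e2 = -2) ∨ (e1 = 2 ∧ e2 = -1))) := by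
    have a1 : e1 < 3 := by
      rcases le_or_gt e1 0 with h | h
      · omega
      · nlinarith [b1.2]
    have a2 : e2 < 3 := by
      rcases le_or_gt e2 0 with h | h
      · omega
      · nlinarith [b2.2]
    have a3 : -3 < e2 := by
      rcases le_or_gt 0 e2 with h | h
      · omega
      · nlinarith [b2.1]
    have a4 : 0 ≤ e1 := by
      rcases he with he | ⟨he, -⟩
      · exact le_of_lt he
      · exact le_of_eq he.symm
    have a5 : e1 = 0 → 0 < e2 := by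
      intro h
      rcases he with he | ⟨-, he⟩
      · simp only at he
        omega
      · exact he
    have a6 : e1 = 2 → j = 1 := by
      rintro rfl
      omega
    have a7 : e2 = 2 → j = 1 := by
      rintro rfl
      omega
    have a8 : e2 = -2 → j = 1 := by
      rintro rfl
      omega
    have a9 : ¬ (e1 = 0 ∧ e2 = 2) := by
      rintro ⟨rfl, rfl⟩
      exact not_cop_22 hcop (dvd_zero _) (dvd_refl _)
    have a10 : ¬ (e1 = 2 ∧ e2 = 0) := by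
      rintro ⟨rfl, rfl⟩
      exact not_cop_22 hcop (dvd_refl _) (dvd_zero _)
    omega
  rcases key with ⟨rfl, rfl⟩ | ⟨rfl, rfl⟩ | ⟨rfl, ⟨rfl, rfl⟩ | ⟨rfl, rfl⟩ | ⟨rfl, rfl⟩ | ⟨rfl, rfl⟩⟩
  · -- direction `(1, 0)`
    have hj2 : j ≤ 2 := by omega
    obtain ⟨o, ho, -, co, no⟩ := shift_pos hsc (x := x) (d := j) hj.le hj2
    have hy0 : y + t * 0 = y := by ring
    rw [hy0] at kR rb0 rb1 hκ
    rw [g0, g1] at kQ
    rw [g1] at qa0
    have hκ' : x + (x + t * 1) = κ * p + (cc1 W n T1 T2 + cc2 W n T1 T2) := by linarith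
    have hk := kbound hsc h1 h2 (by linarith) (by linarith) hκ' hc1
    obtain ⟨w1, w2⟩ := win_sum hsc hk.1 hk.2 (u := x) (v := x + t * 1) hκ' hc1 no
    have hkm := hchk.c1 (κ + 14).toNat (by omega) (j - 1).toNat (by omega) o ho
      (κ * m + T1 - (cell W n x + cell W n (x + t * 1))).toNat (by omega) (by omega)
    have hk14 : (((κ + 14).toNat : ℕ) : ℤ) - 14 = κ := by omega
    have hj14 : (((j - 1).toNat : ℕ) : ℤ) + 1 = j := by omega
    rw [hk14, hj14, Int.toNat_of_nonneg (by omega)] at hkm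
    have kN : kb S NX ((W : ℤ) - 1 - cell W n (x + t * 1)) (cell W n y) :=
      kb_tr hNX ra0 ra1 rb0 rb1 kR (by omega) (by omega)
    refine kb_triple hkm.1 pa0 pb0 qa0 pb0 (by omega) pb0 kP kQ kN ?_ ?_
    · rw [co]; ring
    · ring
  · -- direction `(0, 1)`
    have hj2 : j ≤ 2 := by omega
    obtain ⟨o, ho, -, co, no⟩ := shift_pos hsc (x := y) (d := j) hj.le hj2
    have hx0 : x + t * 0 = x := by ring
    rw [hx0] at kR ra0 ra1 hκ
    rw [g0, g1] at kQ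
    rw [g1] at qb0
    have hκ' : y + (y + t * 1) = (-κ) * p + (cc2 W n T1 T2 - cc1 W n T1 T2) := by linarith
    have hk := kbound hsc h3 h4 (by linarith) (by linarith) hκ' hc2
    obtain ⟨w1, w2⟩ := win_sum hsc hk.1 hk.2 (u := y) (v := y + t * 1) hκ' hc2 no
    have hkm := hchk.c1 (-κ + 14).toNat (by omega) (j - 1).toNat (by omega) o ho
      (-κ * m + T2 - (cell W n y + cell W n (y + t * 1))).toNat (by omega) (by omega)
    have hk14 : (((-κ + 14).toNat : ℕ) : ℤ) - 14 = -κ := by omega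
    have hj14 : (((j - 1).toNat : ℕ) : ℤ) + 1 = j := by omega
    rw [hk14, hj14, Int.toNat_of_nonneg (by omega)] at hkm
    have kN : kb S NY (cell W n x) ((W : ℤ) - 1 - cell W n (y + t * 1)) :=
      kb_tr hNY ra0 ra1 rb0 rb1 kR (by omega) (by omega)
    refine kb_triple (hkm.2 (by omega) (by omega)) pa0 pb0 pa0 qb0 pa0 (by omega) kP kQ kN ?_ ?_
    · rw [co]; ring
    · ring
  · obtain ⟨o1, ho1, -, co1, -⟩ := shift_pos hsc (x := x) (d := 1) (by norm_num) (by norm_num)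
    obtain ⟨o2, ho2, -, co2, -⟩ := shift_pos hsc (x := y) (d := 2) (by norm_num) (by norm_num)
    rw [g1, g3] at kQ
    rw [g1] at qa0
    rw [g3] at qb0
    refine kb_pair (hchk.c2 o1 ho1 o2 ho2).1 pa0 pb0 qa0 qb0 kP kQ ?_
    rw [co1, co2]; ring
  · obtain ⟨o1, ho1, -, co1, -⟩ := shift_pos hsc (x := x) (d := 2) (by norm_num) (by norm_num)
    obtain ⟨o2, ho2, -, co2, -⟩ := shift_pos hsc (x := y) (d := 1) (by norm_num) (by norm_num)
    rw [g1, g3] at kQ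
    rw [g3] at qa0
    rw [g1] at qb0
    refine kb_pair (hchk.c2 o1 ho1 o2 ho2).2.1 pa0 pb0 qa0 qb0 kP kQ ?_
    rw [co1, co2]; ring
  · obtain ⟨o1, ho1, -, co1, -⟩ := shift_pos hsc (x := x) (d := 1) (by norm_num) (by norm_num)
    obtain ⟨o2, ho2, co2, -⟩ := shift_neg hsc (x := y) (d := 2) (by norm_num) (by norm_num)
    rw [g1, g4] at kQ
    rw [g1] at qa0
    rw [g4] at qb0
    refine kb_pair (hchk.c2 o1 ho1 o2 ho2).2.2.1 pa0 pb0 qa0 qb0 kP kQ ?_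
    rw [co1, co2]; ring
  · obtain ⟨o1, ho1, -, co1, -⟩ := shift_pos hsc (x := x) (d := 2) (by norm_num) (by norm_num)
    obtain ⟨o2, ho2, co2, -⟩ := shift_neg hsc (x := y) (d := 1) (by norm_num) (by norm_num)
    rw [g2, g3] at kQ
    rw [g3] at qa0
    rw [g2] at qb0
    refine kb_pair (hchk.c2 o1 ho1 o2 ho2).2.2.2 pa0 pb0 qa0 qb0 kP kQ ?_
    rw [co1, co2]; ring

theorem validB {W m S M NX NY n p : ℕ} {T1 T2 : ℤ} (hpp : p.Prime) (hp2 : 2 < p)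
    (hsc : Sc W m p n)
    (h1 : -(2 * (W : ℤ)) ≤ T1) (h2 : T1 < 2 * W) (h3 : -(2 * (W : ℤ)) ≤ T2) (h4 : T2 < 2 * W)
    (hNX : Tr W S M NX (fun a _ => W - 1 - a) (fun _ b => b))
    (hNY : Tr W S M NY (fun a _ => a) (fun _ b => W - 1 - b)) (hchk : ChkB W m S M NX NY T1 T2) :
    Valid (fmB (cc1 W n T1 T2) (cc2 W n T1 T2)) p n (KS W S M n) := by
  have hp' : Prime (p : ℤ) := Nat.prime_iff_prime_int.1 hpp
  have hnd : ¬ (p : ℤ) ∣ 2 := by
    intro h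
    have := Int.le_of_dvd (by norm_num) h
    omega
  refine ⟨?_, ?_, ?_, ?_, ?_, ?_, ?_⟩
  · rw [fmB_det]; norm_num
  · exact ⟨by simp [fmB], by simp [fmB], cc1_le hsc h1 h2 h3 h4⟩
  · exact ⟨by simp [fmB], by simp [fmB], cc2_le hsc h1 h2 h3 h4⟩
  · exact fun P hP => (mem_KS.1 hP).1
  · exact gp_of_no hpp (by rw [fmB_det]; exact hnd) (fun e _ he => noTrB hsc hchk.c3 he)
      (fun e hc he => noCoB hsc h1 h2 h3 h4 hNX hNY hchk hc he)
  · intro P hP Q hQ R hR hPQ hPR hQR _ hX1 hX2 hY1 hY2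
    unfold fmB Lin.at at hX1 hX2 hY1 hY2
    simp only at hX1 hX2 hY1 hY2
    have e1 : (p : ℤ) ∣ 2 * (Q.2 - P.2) := by
      have : 1 * Q.1 + 1 * Q.2 - cc2 W n T1 T2 - (1 * P.1 + 1 * P.2 - cc2 W n T1 T2) =
        2 * (Q.2 - P.2) := by linarith
      rwa [this] at hY1
    have e2 : (p : ℤ) ∣ 2 * (R.2 - P.2) := by
      have : 1 * R.1 + 1 * R.2 - cc2 W n T1 T2 - (1 * P.1 + 1 * P.2 - cc2 W n T1 T2) =
        2 * (R.2 - P.2) := by linarith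
      rwa [this] at hY2
    obtain ⟨j, hj⟩ := (hp'.dvd_or_dvd e1).resolve_left hnd
    obtain ⟨k, hk⟩ := (hp'.dvd_or_dvd e2).resolve_left hnd
    have hQ' : Q = (P.1 + p * j * (1, 1).1, P.2 + p * j * (1, 1).2) := by
      ext
      · simp; linarith
      · simp; linarith
    have hR' : R = (P.1 + p * k * (1, 1).1, P.2 + p * k * (1, 1).2) := by
      ext
      · simp; linarith
      · simp; linarith
    refine (noTrB (S := S) (M := M) hsc hchk.c3 (e := (1, 1)) (Or.inl one_pos)).sym (P := P)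
      (j := j) (k := k) ?_ ?_ ?_ hP (by rw [← hQ']; exact hQ) (by rw [← hR']; exact hR)
    · rintro rfl
      exact hPQ (by rw [hQ']; simp)
    · rintro rfl
      exact hPR (by rw [hR']; simp)
    · rintro rfl
      exact hQR (by rw [hQ', hR'])
  · intro P hP Q hQ R hR hPQ hPR hQR _ hX1 hX2 hY1 hY2
    unfold fmB Lin.at at hX1 hX2 hY1 hY2
    simp only at hX1 hX2 hY1 hY2
    have e1 : (p : ℤ) ∣ 2 * (Q.1 - P.1) := by
      have : 1 * Q.1 + -1 * Q.2 - cc1 W n T1 T2 - (1 * P.1 + -1 * P.2 - cc1 W n T1 T2) =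
        2 * (Q.1 - P.1) := by linarith
      rwa [this] at hY1
    have e2 : (p : ℤ) ∣ 2 * (R.1 - P.1) := by
      have : 1 * R.1 + -1 * R.2 - cc1 W n T1 T2 - (1 * P.1 + -1 * P.2 - cc1 W n T1 T2) =
        2 * (R.1 - P.1) := by linarith
      rwa [this] at hY2
    obtain ⟨j, hj⟩ := (hp'.dvd_or_dvd e1).resolve_left hnd
    obtain ⟨k, hk⟩ := (hp'.dvd_or_dvd e2).resolve_left hnd
    have hQ' : Q = (P.1 + p * j * (1, -1).1, P.2 + p * j * (1, -1).2) := by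
      ext
      · simp; linarith
      · simp; linarith
    have hR' : R = (P.1 + p * k * (1, -1).1, P.2 + p * k * (1, -1).2) := by
      ext
      · simp; linarith
      · simp; linarith
    refine (noTrB (S := S) (M := M) hsc hchk.c3 (e := (1, -1)) (Or.inl one_pos)).sym (P := P)
      (j := j) (k := k) ?_ ?_ ?_ hP (by rw [← hQ']; exact hQ) (by rw [← hR']; exact hR)
    · rintro rfl
      exact hPQ (by rw [hQ']; simp)
    · rintro rfl
      exact hPR (by rw [hR']; simp)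
    · rintro rfl
      exact hQR (by rw [hQ', hR'])

end Pool.Agent.Helper7.GPC
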